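import Mathlib

set_option autoImplicit false

/-!
# Recognizable series with natural number values

A function `F : List α → ℕ` is recognizable when it lies in a finite family of functions which is
stable, up to linear combinations with natural number coefficients, under removing the first
letter.
-/

namespace Pool.Agent.H81

/-- Recognizable series over a finite alphabet, with natural number coefficients. -/
def Recog {α : Type} (F : List α → ℕ) : Prop :=
  ∃ (ι : Type) (_ : Fintype ι) (g : ι → List α → ℕ) (μ : α → ι → ι → ℕ) (i0 : ι),
    g i0 = F ∧ ∀ a i w, g i (a :: w) = ∑ j, μ a i j * g j w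

namespace Recog

variable {α : Type}

theorem zero : Recog (fun _ : List α => 0) :=
  ⟨Unit, inferInstance, fun _ _ => 0, fun _ _ _ => 0, (), rfl, by simp⟩

theorem add {F G : List α → ℕ} (hF : Recog F) (hG : Recog G) : Recog (fun w => F w + G w) := by
  obtain ⟨ι, _, g, μ, i0, hg, h⟩ := hF
  obtain ⟨κ, _, g', μ', j0, hg', h'⟩ := hG
  subst hg hg'
  refine ⟨Option (ι ⊕ κ), inferInstance,
    fun o w => match o with
      | none => g i0 w + g' j0 w
      | some (Sum.inl i) => g i w
      | some (Sum.inr j) => g' j w,
    fun a o o' => match o, o' with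
      | _, none => 0
      | none, some (Sum.inl j) => μ a i0 j
      | none, some (Sum.inr j) => μ' a j0 j
      | some (Sum.inl i), some (Sum.inl j) => μ a i j
      | some (Sum.inl _), some (Sum.inr _) => 0
      | some (Sum.inr _), some (Sum.inl _) => 0
      | some (Sum.inr i), some (Sum.inr j) => μ' a i j, none, rfl, ?_⟩
  intro a o w
  rw [Fintype.sum_option, Fintype.sum_sum_type]
  rcases o with _ | i | j
  · simp [h, h']
  · simp [h]
  · simp [h']

theorem mul {F G : List α → ℕ} (hF : Recog F) (hG : Recog G) : Recog (fun w => F w * G w) := by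
  obtain ⟨ι, _, g, μ, i0, hg, h⟩ := hF
  obtain ⟨κ, _, g', μ', j0, hg', h'⟩ := hG
  subst hg hg'
  refine ⟨ι × κ, inferInstance, fun o w => g o.1 w * g' o.2 w,
    fun a o o' => μ a o.1 o'.1 * μ' a o.2 o'.2, (i0, j0), rfl, ?_⟩
  rintro a ⟨i, j⟩ w
  rw [Fintype.sum_prod_type]
  simp only [h, h']
  rw [Finset.sum_mul_sum]
  refine Finset.sum_congr rfl fun k _ => Finset.sum_congr rfl fun l _ => ?_
  ring

/-- Closure under definitions by recursion on the word of the form `F (a :: w) = G a w + ε a * F w`. -/
theorem of_rec [Fintype α] {F : List α → ℕ} (G : α → List α → ℕ) (ε : α → ℕ)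
    (hG : ∀ a, Recog (G a)) (h : ∀ a w, F (a :: w) = G a w + ε a * F w) : Recog F := by
  choose ι hι g μ i0 hg hμ using hG
  classical
  refine ⟨Option (Σ a, ι a), inferInstance,
    fun o w => match o with
      | none => F w
      | some p => g p.1 p.2 w,
    fun a o o' => match o, o' with
      | none, none => ε a
      | none, some p => if h : a = p.1 then (if h ▸ i0 a = p.2 then 1 else 0) else 0
      | some _, none => 0
      | some p, some q => if h : p.1 = q.1 then μ q.1 a (h ▸ p.2) q.2 else 0, none, rfl, ?_⟩
  intro a o w
  rw [Fintype.sum_option, Fintype.sum_sigma]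
  rcases o with _ | ⟨b, i⟩
  · simp only [h]
    rw [add_comm, Finset.sum_eq_single a]
    · simp only [dite_true]
      rw [Finset.sum_eq_single (i0 a)]
      · simp [hg]
      · intro j _ hj
        simp [Ne.symm hj]
      · simp
    · intro b _ hb
      simp [Ne.symm hb]
    · simp
  · simp only [zero_mul, zero_add]
    rw [Finset.sum_eq_single b]
    · simp only [dite_true]
      exact hμ _ _ _ _
    · intro c _ hc
      simp [Ne.symm hc]
    · simp

theorem const [Fintype α] (c : ℕ) : Recog (fun _ : List α => c) :=
  of_rec (fun _ _ => 0) (fun _ => 1) (fun _ => zero) (by simp)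

theorem pow [Fintype α] {F : List α → ℕ} (hF : Recog F) (n : ℕ) : Recog (fun w => F w ^ n) := by
  induction n with
  | zero => simpa using const 1
  | succ n ih => simpa [pow_succ] using ih.mul hF

/-- The characteristic series of a regular language pulled back along a letter-to-word filter. -/
theorem char_filterMap {β : Type} {L : Language β} (hL : L.IsRegular) (f : α → Option β)
    [DecidablePred (fun w : List β => w ∈ L)] :
    Recog (fun w : List α => if w.filterMap f ∈ L then 1 else 0) := by
  obtain ⟨σ, _, M, rfl⟩ := hL
  classical
  refine ⟨σ, inferInstance, fun q w => if M.evalFrom q (w.filterMap f) ∈ M.accept then 1 else 0,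
    fun a q q' => if q' = (match f a with | none => q | some b => M.step q b) then 1 else 0,
    M.start, ?_, ?_⟩
  · funext w
    have : (List.filterMap f w ∈ M.accepts) ↔ M.evalFrom M.start (w.filterMap f) ∈ M.accept :=
      Iff.rfl
    by_cases h : List.filterMap f w ∈ M.accepts
    · simp only [if_pos h, if_pos (this.1 h)]
    · simp only [if_neg h, if_neg (fun h' => h (this.2 h'))]
  · intro a q w
    rw [Finset.sum_eq_single (match f a with | none => q | some b => M.step q b)]
    · cases h : f a with
      | none => simp [h]
      | some b => simp [h]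
    · intro b _ hb
      simp [hb]
    · simp

end Recog

end Pool.Agent.H81
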