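import Mathlib
import Pool.Agent.H81.Recog

set_option autoImplicit false

/-!
# Finite automata given by transition sets, and automata counting a recognizable series
-/

namespace Pool.Agent.H81

section acc

variable {β : Type}

/-- Acceptance of a word from a state of an automaton given by its transition set. -/
def Acc (δ : Set (ℕ × β × ℕ)) (F : Set ℕ) : ℕ → List β → Prop
  | q, [] => q ∈ F
  | q, a :: w => ∃ q', (q, a, q') ∈ δ ∧ Acc δ F q' w

theorem mem_acceptsFrom_iff (δ : Finset (ℕ × β × ℕ)) (s : Set ℕ) (F : Finset ℕ) (w : List β)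
    (S : Set ℕ) :
    w ∈ (⟨fun q a => {q' | (q, a, q') ∈ δ}, s, (F : Set ℕ)⟩ : NFA β ℕ).acceptsFrom S ↔
      ∃ q ∈ S, Acc (δ : Set (ℕ × β × ℕ)) F q w := by
  induction w generalizing S with
  | nil => simp [Acc]
  | cons a w ih =>
    rw [NFA.cons_mem_acceptsFrom, ih]
    constructor
    · rintro ⟨q, hq, h⟩
      rw [NFA.mem_stepSet] at hq
      obtain ⟨t, ht, hq⟩ := hq
      exact ⟨t, ht, q, hq, h⟩
    · rintro ⟨t, ht, q, hq, h⟩
      exact ⟨q, NFA.mem_stepSet.2 ⟨t, ht, hq⟩, h⟩

theorem mem_accepts_iff (δ : Finset (ℕ × β × ℕ)) (s : ℕ) (F : Finset ℕ) (w : List β) :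
    w ∈ (⟨fun q a => {q' | (q, a, q') ∈ δ}, {s}, (F : Set ℕ)⟩ : NFA β ℕ).accepts ↔
      Acc (δ : Set (ℕ × β × ℕ)) F s w := by
  have h : w ∈ (⟨fun q a => {q' | (q, a, q') ∈ δ}, {s}, (F : Set ℕ)⟩ : NFA β ℕ).accepts ↔
    w ∈ (⟨fun q a => {q' | (q, a, q') ∈ δ}, {s}, (F : Set ℕ)⟩ : NFA β ℕ).acceptsFrom {s} := Iff.rfl
  rw [h, mem_acceptsFrom_iff]
  simp

end acc

/-- Convolution of two words. -/
def conv (u v : List ℕ) : List (Option ℕ × Option ℕ) :=
  List.map (fun i => (u[i]?, v[i]?)) (List.range (max u.length v.length))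

theorem conv_nil_nil : conv [] [] = [] := rfl

theorem conv_cons_cons (a b : ℕ) (u v : List ℕ) :
    conv (a :: u) (b :: v) = (some a, some b) :: conv u v := by
  unfold conv
  rw [List.length_cons, List.length_cons, Nat.succ_max_succ, List.range_succ_eq_map,
    List.map_cons, List.map_map]
  rfl

theorem conv_cons_nil (a : ℕ) (u : List ℕ) :
    conv (a :: u) [] = (some a, none) :: conv u [] := by
  unfold conv
  rw [List.length_cons, List.length_nil, Nat.max_zero, Nat.max_zero, List.range_succ_eq_map,
    List.map_cons, List.map_map]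
  simp only [List.getElem?_nil, List.getElem?_cons_zero, List.cons.injEq, true_and]
  rfl

theorem conv_nil_cons (b : ℕ) (v : List ℕ) :
    conv [] (b :: v) = (none, some b) :: conv [] v := by
  unfold conv
  rw [List.length_cons, List.length_nil, Nat.zero_max, Nat.zero_max, List.range_succ_eq_map,
    List.map_cons, List.map_map]
  simp only [List.getElem?_nil, List.getElem?_cons_zero, List.cons.injEq, true_and]
  rfl

/-- The base component of a letter. -/
def base (l : ℕ) : ℕ := l.unpair.1

/-- Words of the automaton with transitions `δ` lying over a given base word. -/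
def lying (δ : Finset (ℕ × ℕ × ℕ)) (F : Set ℕ) (q : ℕ) (b : List ℕ) : Set (List ℕ) :=
  {u | Acc (δ : Set (ℕ × ℕ × ℕ)) F q u ∧ u.map base = b}

/-- A recognizable series counts the words of a finite automaton lying over a given word. -/
theorem exists_dom {α : Type} [Fintype α] (ga : α → ℕ) (hga : Function.Injective ga)
    {F : List α → ℕ} (hF : Recog F) :
    ∃ (δ : Finset (ℕ × ℕ × ℕ)) (s t : ℕ),
      (∀ w : List α, w ≠ [] → (lying δ {t} s (w.map ga)).Finite ∧
        (lying δ {t} s (w.map ga)).ncard = F w) ∧
      (∀ u, Acc (δ : Set (ℕ × ℕ × ℕ)) {t} s u → u ≠ [] ∧ 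
        (∀ l ∈ u, ∃ q ∈ δ, q.2.1 = l) ∧ ∃ w : List α, u.map base = w.map ga) := by
  classical
  obtain ⟨ι, _, g, μ, i0, hg, hμ⟩ := hF
  let num : Option ι → ℕ := fun o => Fintype.equivFin (Option ι) o
  have hnum : Function.Injective num := fun o o' h => by
    have := Fin.ext h
    exact (Fintype.equivFin (Option ι)).injective this
  let W : α → ι → Option ι → ℕ := fun a i o => match o with
    | some j => μ a i j
    | none => g i [a]
  let code : α → Option ι → ℕ → ℕ := fun a o c => Nat.pair (ga a) (Nat.pair (num o) c)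
  have hcode : ∀ a o c a' o' c', code a o c = code a' o' c' → a = a' ∧ o = o' ∧ c = c' := by
    intro a o c a' o' c' h
    simp only [code, Nat.pair_eq_pair] at h
    exact ⟨hga h.1, hnum h.2.1, h.2.2⟩
  let δ : Finset (ℕ × ℕ × ℕ) := (Finset.univ : Finset (α × ι × Option ι)).biUnion fun p =>
    (Finset.range (W p.1 p.2.1 p.2.2)).image fun c =>
      (num (some p.2.1), code p.1 p.2.2 c, num p.2.2)
  have hδ : ∀ q l q', (q, l, q') ∈ δ ↔ ∃ a i o c, c < W a i o ∧ q = num (some i) ∧
      l = code a o c ∧ q' = num o := by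
    intro q l q'
    simp only [δ, Finset.mem_biUnion, Finset.mem_univ, true_and, Finset.mem_image,
      Finset.mem_range, Prod.mk.injEq, Prod.exists]
    constructor
    · rintro ⟨a, i, o, c, hc, rfl, rfl, rfl⟩
      exact ⟨a, i, o, c, hc, rfl, rfl, rfl⟩
    · rintro ⟨a, i, o, c, hc, rfl, rfl, rfl⟩
      exact ⟨a, i, o, c, hc, rfl, rfl, rfl⟩
  have hbase : ∀ a o c, base (code a o c) = ga a := by
    intro a o c
    simp [base, code]
  -- words over the empty word
  have h0 : ∀ o, lying δ {num none} (num o) [] = if o = none then {[]} else ∅ := by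
    intro o
    ext u
    split_ifs with h
    · subst h
      constructor
      · rintro ⟨-, hu⟩
        simpa using hu
      · rintro rfl
        exact ⟨rfl, rfl⟩
    · constructor
      · rintro ⟨h1, hu⟩
        have : u = [] := by simpa using hu
        subst this
        exact (h (hnum h1)).elim
      · intro h; exact h.elim
  have h1 : ∀ (a : α) (w : List α), lying δ {num none} (num none) ((a :: w).map ga) = ∅ := by
    intro a w
    ext u
    constructor
    · rintro ⟨h1, hu⟩
      cases u with
      | nil => simp at hu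
      | cons l u =>
        obtain ⟨q', hq', -⟩ := h1
        rw [Finset.mem_coe, hδ] at hq'
        obtain ⟨_, i, _, _, _, h, _⟩ := hq'
        exact absurd (hnum h) (by simp)
    · intro h; exact h.elim
  have h2 : ∀ (a : α) (w : List α) (i : ι), Nonempty
      (lying δ {num none} (num (some i)) ((a :: w).map ga) ≃
        Σ o : Option ι, Fin (W a i o) × lying δ {num none} (num o) (w.map ga)) := by
    intro a w i
    refine ⟨Equiv.symm (Equiv.ofBijective (fun p => ⟨code a p.1 p.2.1 :: p.2.2.1,
      ⟨num p.1, ?_, p.2.2.2.1⟩, ?_⟩) ⟨?_, ?_⟩)⟩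
    · rw [Finset.mem_coe, hδ]
      exact ⟨a, i, p.1, p.2.1, p.2.1.2, rfl, rfl, rfl⟩
    · rw [List.map_cons, List.map_cons, hbase, p.2.2.2.2]
    · rintro ⟨o, c, u, hu⟩ ⟨o', c', u', hu'⟩ h
      simp only [Subtype.mk.injEq, List.cons.injEq] at h
      obtain ⟨-, rfl, hc⟩ := hcode _ _ _ _ _ _ h.1
      obtain rfl : c = c' := Fin.ext hc
      obtain rfl : u = u' := h.2
      rfl
    · rintro ⟨u, hu1, hu2⟩
      cases u with
      | nil => simp at hu2
      | cons l u =>
        obtain ⟨q', hq', hu1⟩ := hu1
        rw [Finset.mem_coe, hδ] at hq'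
        obtain ⟨a', i', o, c, hc, hi, rfl, rfl⟩ := hq'
        rw [List.map_cons, List.map_cons, hbase, List.cons.injEq] at hu2
        obtain rfl : a' = a := hga hu2.1
        obtain rfl : i' = i := by
          have := hnum hi
          simpa using this.symm
        exact ⟨⟨o, ⟨c, hc⟩, ⟨u, hu1, hu2.2⟩⟩, rfl⟩
  have hfin : ∀ (w : List α) (o : Option ι), Finite (lying δ {num none} (num o) (w.map ga)) := by
    intro w
    induction w with
    | nil =>
      intro o
      rw [List.map_nil, h0]
      split_ifs <;> infer_instance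
    | cons a w ih =>
      intro o
      cases o with
      | none => rw [h1]; infer_instance
      | some i =>
        have := ih
        obtain ⟨e⟩ := h2 a w i
        exact Finite.of_equiv _ e.symm
  have hcard : ∀ (w : List α) (i : ι), w ≠ [] →
      Nat.card (lying δ {num none} (num (some i)) (w.map ga)) = g i w := by
    intro w
    induction w with
    | nil => intro i h; exact absurd rfl h
    | cons a w ih =>
      intro i _
      have := hfin w
      obtain ⟨e⟩ := h2 a w i
      rw [Nat.card_congr e, Nat.card_sigma, Fintype.sum_option]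
      simp only [Nat.card_prod, Nat.card_fin]
      cases w with
      | nil =>
        have h3 : ∀ o : Option ι, Nat.card (lying δ {num none} (num o) (List.map ga [])) =
            if o = none then 1 else 0 := by
          intro o
          rw [List.map_nil, h0]
          split_ifs <;> simp
        simp only [h3]
        simp [W]
      | cons b w =>
        have h3 : Nat.card (lying δ {num none} (num none) ((b :: w).map ga)) = 0 := by
          rw [h1]; simp
        rw [h3, mul_zero, zero_add, hμ]
        refine Finset.sum_congr rfl fun j _ => ?_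
        rw [ih j (by simp)]
  refine ⟨δ, num (some i0), num none, ?_, ?_⟩
  · intro w hw
    refine ⟨?_, ?_⟩
    · have := hfin w (some i0)
      exact Set.toFinite _
    · rw [← hg, ← hcard w i0 hw]
      rfl
  · intro u hu
    refine ⟨?_, ?_⟩
    · rintro rfl
      have : num (some i0) = num none := hu
      exact absurd (hnum this) (by simp)
    · have : ∀ (u : List ℕ) (q : ℕ), Acc (δ : Set (ℕ × ℕ × ℕ)) {num none} q u →
          (∀ l ∈ u, ∃ q ∈ δ, q.2.1 = l) ∧ ∃ w : List α, u.map base = w.map ga := by
        intro u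
        induction u with
        | nil => intro q _; exact ⟨by simp, [], rfl⟩
        | cons l u ih =>
          rintro q ⟨q', hq', hu⟩
          obtain ⟨h3, w, hw⟩ := ih q' hu
          refine ⟨?_, ?_⟩
          · intro m hm
            rcases List.mem_cons.1 hm with rfl | hm
            · exact ⟨_, hq', rfl⟩
            · exact h3 m hm
          · rw [Finset.mem_coe, hδ] at hq'
            obtain ⟨a, i, o, c, _, _, rfl, _⟩ := hq'
            exact ⟨a :: w, by rw [List.map_cons, List.map_cons, hbase, hw]⟩
      exact this u _ hu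

end Pool.Agent.H81
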