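import Mathlib

set_option autoImplicit false

/-!
# Closure of regular languages under product and Kleene star
-/

namespace Pool.Agent.H81

open Language Computability

variable {α : Type}

theorem isRegular_of_subset {L : Language α} {S : Set (Language α)} (hS : S.Finite)
    (h : ∀ x, L.leftQuotient x ∈ S) : L.IsRegular :=
  IsRegular.of_finite_range_leftQuotient (hS.subset (by rintro _ ⟨x, rfl⟩; exact h x))

/-- Union of a set of languages. -/
def unionL (T : Set (Language α)) : Language α := {y | ∃ N ∈ T, y ∈ N}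

theorem mem_unionL {T : Set (Language α)} {y : List α} : y ∈ unionL T ↔ ∃ N ∈ T, y ∈ N := Iff.rfl

theorem isRegular_finite {L : Language α} (s : Finset (List α)) (hL : ∀ x ∈ L, x ∈ s) :
    L.IsRegular := by
  classical
  have hsuf : ((⋃ l ∈ s, {m | m <:+ l}) : Set (List α)).Finite := by
    refine s.finite_toSet.biUnion fun l _ => ?_
    have : {m | m <:+ l} = {m | m ∈ l.tails} := by ext; simp
    rw [this]; exact l.tails.finite_toSet
  have h2 : Set.Finite {M : Set (List α) | M ⊆ ((⋃ l ∈ s, {m | m <:+ l}) : Set (List α))} :=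
    hsuf.finite_subsets
  refine isRegular_of_subset (S := {M : Set (List α) | M ⊆ ((⋃ l ∈ s, {m | m <:+ l}) : Set (List α))})
    h2 ?_
  intro x y hy
  simp only [Set.mem_iUnion]
  exact ⟨x ++ y, hL _ hy, List.suffix_append _ _⟩

theorem isRegular_mul {L M : Language α} (hL : L.IsRegular) (hM : M.IsRegular) :
    (L * M).IsRegular := by
  have h1 := hL.finite_range_leftQuotient
  have h2 := hM.finite_range_leftQuotient
  refine isRegular_of_subset
    (S := (fun p : Language α × Set (Language α) => p.1 * M + unionL p.2) ''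
      (Set.range L.leftQuotient ×ˢ {T | T ⊆ Set.range M.leftQuotient})) ?_ ?_
  · exact (h1.prod h2.finite_subsets).image _
  · intro x
    refine ⟨(L.leftQuotient x, {N | ∃ x1 x2, x = x1 ++ x2 ∧ x1 ∈ L ∧ N = M.leftQuotient x2}),
      ⟨⟨x, rfl⟩, ?_⟩, ?_⟩
    · rintro N ⟨x1, x2, -, -, rfl⟩
      exact ⟨x2, rfl⟩
    · ext y
      constructor
      · rintro (h | ⟨N, ⟨x1, x2, rfl, hx1, rfl⟩, hy⟩)
        · obtain ⟨a, ha, b, hb, rfl⟩ := h
          show x ++ (a ++ b) ∈ L * M
          rw [← List.append_assoc]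
          exact append_mem_mul ha hb
        · show x1 ++ x2 ++ y ∈ L * M
          rw [List.append_assoc]
          exact append_mem_mul hx1 hy
      · rintro ⟨a, ha, b, hb, hab⟩
        have hab : a ++ b = x ++ y := hab
        rcases List.append_eq_append_iff.1 hab with ⟨c, rfl, rfl⟩ | ⟨c, rfl, rfl⟩
        · exact Or.inr ⟨_, ⟨a, c, rfl, ha, rfl⟩, hb⟩
        · exact Or.inl (append_mem_mul ha hb)

theorem star_split {L : Language α} (ls : List (List α)) (hls : ∀ l ∈ ls, l ∈ L) (x y : List α)
    (hx : x ≠ []) (h : ls.flatten = x ++ y) :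
    ∃ x1 x2 y1 y2, x = x1 ++ x2 ∧ y = y1 ++ y2 ∧ x1 ∈ L∗ ∧ x2 ++ y1 ∈ L ∧ y2 ∈ L∗ := by
  induction ls generalizing x with
  | nil => simp at h; exact absurd h.1 hx
  | cons l ls ih =>
    simp only [List.flatten_cons] at h
    have hl : l ∈ L := hls l (by simp)
    have hls' : ∀ l ∈ ls, l ∈ L := fun m hm => hls m (by simp [hm])
    rcases List.append_eq_append_iff.1 h with ⟨c, hc1, hc2⟩ | ⟨c, hc1, hc2⟩
    · by_cases hc : c = []
      · subst hc
        refine ⟨[], l, [], y, by simpa using hc1, rfl, nil_mem_kstar _, by simpa using hl, ?_⟩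
        rw [List.nil_append] at hc2
        rw [← hc2]; exact join_mem_kstar hls'
      · obtain ⟨x1, x2, y1, y2, h1, h2, h3, h4, h5⟩ := ih hls' c hc hc2
        refine ⟨l ++ x1, x2, y1, y2, by rw [hc1, h1, List.append_assoc], h2, ?_, h4, h5⟩
        obtain ⟨ms, rfl, hms⟩ := h3
        exact ⟨l :: ms, by simp, by
          intro m hm
          rcases List.mem_cons.1 hm with rfl | hm
          · exact hl
          · exact hms m hm⟩
    · exact ⟨[], x, c, ls.flatten, rfl, hc2, nil_mem_kstar _, hc1 ▸ hl, join_mem_kstar hls'⟩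

theorem isRegular_kstar {L : Language α} (hL : L.IsRegular) : (L∗).IsRegular := by
  have h1 := hL.finite_range_leftQuotient
  refine isRegular_of_subset
    (S := insert (L∗) ((fun T : Set (Language α) => unionL T * L∗) ''
      {T | T ⊆ Set.range L.leftQuotient})) ?_ ?_
  · exact (h1.finite_subsets.image _).insert _
  · intro x
    by_cases hx : x = []
    · subst hx; left; rfl
    · right
      refine ⟨{N | ∃ x1 x2, x = x1 ++ x2 ∧ x1 ∈ L∗ ∧ N = L.leftQuotient x2}, ?_, ?_⟩
      · rintro N ⟨x1, x2, -, -, rfl⟩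
        exact ⟨x2, rfl⟩
      · ext y
        constructor
        · rintro ⟨a, ⟨N, ⟨x1, x2, rfl, hx1, rfl⟩, ha⟩, b, hb, rfl⟩
          obtain ⟨l1, rfl, hl1⟩ := hx1
          obtain ⟨l2, rfl, hl2⟩ := hb
          refine ⟨l1 ++ [x2 ++ a] ++ l2, by simp, ?_⟩
          intro m hm
          simp only [List.append_assoc, List.mem_append, List.mem_cons, List.not_mem_nil,
            or_false] at hm
          rcases hm with hm | hm | hm
          · exact hl1 m hm
          · subst hm; exact ha
          · exact hl2 m hm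
        · rintro ⟨ls, hls, hL'⟩
          obtain ⟨x1, x2, y1, y2, h1, h2, h3, h4, h5⟩ := star_split ls hL' x y hx hls.symm
          subst h2
          exact append_mem_mul ⟨_, ⟨x1, x2, h1, h3, rfl⟩, h4⟩ h5

end Pool.Agent.H81
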