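import Mathlib

set_option autoImplicit false

/-!
# Computable invariants of co-enumerable equivalence relations
-/

namespace Pool.Agent.H81

/-- Bounded universal quantifier. -/
def ball (q : ℕ → Bool) (n : ℕ) : Bool := Nat.rec true (fun k acc => acc && q k) n

theorem ball_iff (q : ℕ → Bool) (n : ℕ) : ball q n = true ↔ ∀ k < n, q k = true := by
  induction n with
  | zero => simp [ball]
  | succ n ih =>
    have : ball q (n + 1) = (ball q n && q n) := rfl
    rw [this, Bool.and_eq_true, ih]
    constructor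
    · rintro ⟨h1, h2⟩ k hk
      rcases Nat.lt_succ_iff_lt_or_eq.1 hk with h | rfl
      · exact h1 k h
      · exact h2
    · intro h
      exact ⟨fun k hk => h k (by omega), h n (by omega)⟩

theorem ball_computable {α : Type} [Primcodable α] {q : α → ℕ → Bool} {n : α → ℕ}
    (hq : Computable₂ q) (hn : Computable n) : Computable (fun a => ball (q a) (n a)) := by
  unfold ball
  refine Computable.nat_rec hn (Computable.const true)
    (h := fun a p => p.2 && q a p.1) ?_
  exact (Primrec.and.to_comp).comp (Computable.snd.comp Computable.snd)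
    (hq.comp Computable.fst (Computable.fst.comp Computable.snd))

attribute [irreducible] ball

section

variable (f : ℕ × ℕ × ℕ → Bool)

/-- The decreasing symmetric approximations. -/
def bb (s x y : ℕ) : Bool := ball (fun t => f (x, y, t) && f (y, x, t)) s

theorem bb_iff (s x y : ℕ) :
    bb f s x y = true ↔ ∀ t < s, f (x, y, t) = true ∧ f (y, x, t) = true := by
  simp [bb, ball_iff]

theorem bb_mono {s s' x y : ℕ} (h : s ≤ s') (hb : bb f s' x y = true) : bb f s x y = true := by
  rw [bb_iff] at hb ⊢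
  exact fun t ht => hb t (by omega)

theorem bb_symm {s x y : ℕ} (hb : bb f s x y = true) : bb f s y x = true := by
  rw [bb_iff] at hb ⊢
  exact fun t ht => (hb t ht).symm

/-- Transitivity of the approximation on an initial segment. -/
def tr (s x : ℕ) : Bool :=
  ball (fun a => ball (fun b => ball (fun c => !(bb f s a b && bb f s b c) || bb f s a c)
    (x + 1)) (x + 1)) (x + 1)

theorem tr_iff (s x : ℕ) : tr f s x = true ↔ ∀ a ≤ x, ∀ b ≤ x, ∀ c ≤ x,
    bb f s a b = true → bb f s b c = true → bb f s a c = true := by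
  simp only [tr, ball_iff, Nat.lt_succ_iff, Bool.or_eq_true, Bool.not_eq_true',
    Bool.and_eq_false_iff]
  constructor
  · intro h a ha b hb c hc h1 h2
    rcases h a ha b hb c hc with (h' | h') | h'
    · rw [h1] at h'; exact absurd h' (by simp)
    · rw [h2] at h'; exact absurd h' (by simp)
    · exact h'
  · intro h a ha b hb c hc
    have := h a ha b hb c hc
    by_cases h1 : bb f s a b = true
    · by_cases h2 : bb f s b c = true
      · exact Or.inr (this h1 h2)
      · exact Or.inl (Or.inr (by simpa using h2))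
    · exact Or.inl (Or.inl (by simpa using h1))

variable {f}

theorem bb_computable (hf : Computable f) :
    Computable (fun p : ℕ × ℕ × ℕ => bb f p.1 p.2.1 p.2.2) := by
  have h1 : Computable (fun p : (ℕ × ℕ × ℕ) × ℕ => (p.1.2.1, p.1.2.2, p.2)) :=
    Computable.pair (Computable.fst.comp (Computable.snd.comp Computable.fst))
      (Computable.pair (Computable.snd.comp (Computable.snd.comp Computable.fst)) Computable.snd)
  have h2 : Computable (fun p : (ℕ × ℕ × ℕ) × ℕ => (p.1.2.2, p.1.2.1, p.2)) :=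
    Computable.pair (Computable.snd.comp (Computable.snd.comp Computable.fst))
      (Computable.pair (Computable.fst.comp (Computable.snd.comp Computable.fst)) Computable.snd)
  have h3 : Computable (fun p : (ℕ × ℕ × ℕ) × ℕ =>
      (f (p.1.2.1, p.1.2.2, p.2) && f (p.1.2.2, p.1.2.1, p.2))) :=
    (Primrec.and.to_comp).comp (hf.comp h1) (hf.comp h2)
  exact ball_computable (q := fun (p : ℕ × ℕ × ℕ) t =>
    f (p.2.1, p.2.2, t) && f (p.2.2, p.2.1, t)) h3 Computable.fst

attribute [irreducible] bb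

theorem tr_computable_aux (hf : Computable f) : Computable (fun q : (ℕ × ℕ) × (ℕ × ℕ) =>
    (!(bb f q.1.1 q.1.2 q.2.1 && bb f q.1.1 q.2.1 q.2.2) || bb f q.1.1 q.1.2 q.2.2)) := by
  have hb := bb_computable hf
  have h1 : Computable (fun q : (ℕ × ℕ) × (ℕ × ℕ) => bb f q.1.1 q.1.2 q.2.1) :=
    hb.comp (f := fun p : ℕ × ℕ × ℕ => bb f p.1 p.2.1 p.2.2)
      (g := fun q : (ℕ × ℕ) × (ℕ × ℕ) => (q.1.1, q.1.2, q.2.1))
      (Computable.pair (Computable.fst.comp Computable.fst)
        (Computable.pair (Computable.snd.comp Computable.fst) (Computable.fst.comp Computable.snd)))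
  have h2 : Computable (fun q : (ℕ × ℕ) × (ℕ × ℕ) => bb f q.1.1 q.2.1 q.2.2) :=
    hb.comp (f := fun p : ℕ × ℕ × ℕ => bb f p.1 p.2.1 p.2.2)
      (g := fun q : (ℕ × ℕ) × (ℕ × ℕ) => (q.1.1, q.2.1, q.2.2))
      (Computable.pair (Computable.fst.comp Computable.fst)
        (Computable.pair (Computable.fst.comp Computable.snd) (Computable.snd.comp Computable.snd)))
  have h3 : Computable (fun q : (ℕ × ℕ) × (ℕ × ℕ) => bb f q.1.1 q.1.2 q.2.2) :=
    hb.comp (f := fun p : ℕ × ℕ × ℕ => bb f p.1 p.2.1 p.2.2)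
      (g := fun q : (ℕ × ℕ) × (ℕ × ℕ) => (q.1.1, q.1.2, q.2.2))
      (Computable.pair (Computable.fst.comp Computable.fst)
        (Computable.pair (Computable.snd.comp Computable.fst) (Computable.snd.comp Computable.snd)))
  exact (Primrec.or.to_comp).comp (Primrec.not.to_comp.comp ((Primrec.and.to_comp).comp h1 h2)) h3

theorem tr_computable (hf : Computable f) : Computable (fun p : ℕ × ℕ => tr f p.1 p.2) := by
  have hsucc : Computable (fun p : ℕ × ℕ => p.2 + 1) := Computable.succ.comp Computable.snd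
  have h0 := tr_computable_aux hf
  have h1 : Computable (fun q : ((ℕ × ℕ) × ℕ × ℕ) × ℕ =>
      (!(bb f q.1.1.1 q.1.2.1 q.1.2.2 && bb f q.1.1.1 q.1.2.2 q.2) || bb f q.1.1.1 q.1.2.1 q.2)) :=
    h0.comp (f := fun q : (ℕ × ℕ) × (ℕ × ℕ) =>
        (!(bb f q.1.1 q.1.2 q.2.1 && bb f q.1.1 q.2.1 q.2.2) || bb f q.1.1 q.1.2 q.2.2))
      (g := fun q : ((ℕ × ℕ) × ℕ × ℕ) × ℕ => ((q.1.1.1, q.1.2.1), (q.1.2.2, q.2)))
      (Computable.pair (Computable.pair (Computable.fst.comp (Computable.fst.comp Computable.fst))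
        (Computable.fst.comp (Computable.snd.comp Computable.fst)))
        (Computable.pair (Computable.snd.comp (Computable.snd.comp Computable.fst))
          Computable.snd))
  have h2 : Computable (fun p : (ℕ × ℕ) × ℕ × ℕ => 
      ball (fun c => !(bb f p.1.1 p.2.1 p.2.2 && bb f p.1.1 p.2.2 c) || bb f p.1.1 p.2.1 c)
      (p.1.2 + 1)) :=
    ball_computable (q := fun (p : (ℕ × ℕ) × ℕ × ℕ) c =>
      !(bb f p.1.1 p.2.1 p.2.2 && bb f p.1.1 p.2.2 c) || bb f p.1.1 p.2.1 c)
      (n := fun (p : (ℕ × ℕ) × ℕ × ℕ) => p.1.2 + 1) h1 (hsucc.comp Computable.fst)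
  have h3 : Computable (fun q : ((ℕ × ℕ) × ℕ) × ℕ =>
      ball (fun c => !(bb f q.1.1.1 q.1.2 q.2 && bb f q.1.1.1 q.2 c) || bb f q.1.1.1 q.1.2 c)
      (q.1.1.2 + 1)) :=
    h2.comp (f := fun p : (ℕ × ℕ) × ℕ × ℕ => 
        ball (fun c => !(bb f p.1.1 p.2.1 p.2.2 && bb f p.1.1 p.2.2 c) || bb f p.1.1 p.2.1 c)
        (p.1.2 + 1))
      (g := fun q : ((ℕ × ℕ) × ℕ) × ℕ => (q.1.1, (q.1.2, q.2)))
      (Computable.pair (Computable.fst.comp Computable.fst)
        (Computable.pair (Computable.snd.comp Computable.fst) Computable.snd))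
  have h4 : Computable (fun p : (ℕ × ℕ) × ℕ => 
      ball (fun b => ball (fun c => !(bb f p.1.1 p.2 b && bb f p.1.1 b c) || bb f p.1.1 p.2 c)
      (p.1.2 + 1)) (p.1.2 + 1)) :=
    ball_computable (q := fun (p : (ℕ × ℕ) × ℕ) b =>
      ball (fun c => !(bb f p.1.1 p.2 b && bb f p.1.1 b c) || bb f p.1.1 p.2 c) (p.1.2 + 1))
      (n := fun (p : (ℕ × ℕ) × ℕ) => p.1.2 + 1) h3 (hsucc.comp Computable.fst)
  exact ball_computable (q := fun (p : ℕ × ℕ) a =>
    ball (fun b => ball (fun c => !(bb f p.1 a b && bb f p.1 b c) || bb f p.1 a c)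
    (p.2 + 1)) (p.2 + 1)) (n := fun (p : ℕ × ℕ) => p.2 + 1) h4 hsucc

attribute [irreducible] tr

end

/-- Iteration of a decreasing function stabilizes. -/
theorem iterate_stable {r : ℕ → ℕ} (hr : ∀ x, r x ≤ x) (x n : ℕ) (hn : x ≤ n) :
    r^[n] x = r^[x] x := by
  have key : ∀ n x, x ≤ n → r (r^[n] x) = r^[n] x := by
    intro n
    induction n with
    | zero =>
      intro x hx
      obtain rfl : x = 0 := by omega
      have := hr 0
      simp; omega
    | succ n ih =>
      intro x hx
      rw [Function.iterate_succ_apply]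
      rcases Nat.lt_or_ge (r x) x with h | h
      · exact ih (r x) (by omega)
      · have h' : r x = x := le_antisymm (hr x) h
        rw [h']
        have : ∀ m, r^[m] x = x := fun m => Function.iterate_fixed h' m
        rw [this, h']
  induction n with
  | zero =>
    obtain rfl : x = 0 := by omega
    rfl
  | succ n ih =>
    rcases Nat.lt_or_ge n x with h | h
    · obtain rfl : x = n + 1 := by omega
      rfl
    · rw [Function.iterate_succ_apply', key n x h, ih h]

theorem find_computable {P : ℕ × ℕ → ℕ → Bool} (hP : Computable (fun q : (ℕ × ℕ) × ℕ => P q.1 q.2))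
    (hex : ∀ p, ∃ n, P p n = true) : Computable (fun p => Nat.find (hex p)) := by
  have h1 : ComputablePred (fun q : (ℕ × ℕ) × ℕ => P q.1 q.2 = true) :=
    ComputablePred.computable_iff.2 ⟨fun q => P q.1 q.2, hP, rfl⟩
  exact Computable.find (P := fun p n => P p n = true) h1 hex

theorem exists_min {P : ℕ × ℕ → ℕ → Bool} (hP : Computable (fun q : (ℕ × ℕ) × ℕ => P q.1 q.2))
    (hex : ∀ p, ∃ n, P p n = true) : ∃ g : ℕ × ℕ → ℕ, Computable g ∧ (∀ p, P p (g p) = true) ∧
      ∀ p n, P p n = true → g p ≤ n :=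
  ⟨_, find_computable hP hex, fun p => Nat.find_spec (hex p), fun p _ h => Nat.find_min' (hex p) h⟩

theorem exists_stage {f : ℕ × ℕ × ℕ → Bool} (hf : Computable f)
    (hex : ∀ i x : ℕ, ∃ n, tr f (i + n) x = true) :
    ∃ st : ℕ → ℕ → ℕ, Computable (fun p : ℕ × ℕ => st p.1 p.2) ∧
      (∀ i x, tr f (st i x) x = true) ∧ (∀ i x, i ≤ st i x) ∧
      ∀ i x s, i ≤ s → tr f s x = true → st i x ≤ s := by
  have h0 : Computable (fun q : (ℕ × ℕ) × ℕ => (q.1.1 + q.2, q.1.2)) :=
    Computable.pair (Primrec.nat_add.to_comp.comp (Computable.fst.comp Computable.fst)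
      Computable.snd) (Computable.snd.comp Computable.fst)
  have h1 : Computable (fun q : (ℕ × ℕ) × ℕ => tr f (q.1.1 + q.2) q.1.2) :=
    (tr_computable hf).comp (f := fun p : ℕ × ℕ => tr f p.1 p.2)
      (g := fun q : (ℕ × ℕ) × ℕ => (q.1.1 + q.2, q.1.2)) h0
  obtain ⟨g, hg, hg1, hg2⟩ := exists_min (P := fun p n => tr f (p.1 + n) p.2) h1
    (fun p => hex p.1 p.2)
  refine ⟨fun i x => i + g (i, x), ?_, ?_, ?_, ?_⟩
  · exact Primrec.nat_add.to_comp.comp Computable.fst hg
  · intro i x; exact hg1 (i, x)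
  · intro i x; exact Nat.le_add_right _ _
  · intro i x s hs ht
    obtain ⟨n, rfl⟩ := Nat.exists_eq_add_of_le hs
    exact Nat.add_le_add_left (hg2 (i, x) n ht) i

theorem exists_rep {f : ℕ × ℕ × ℕ → Bool} (hf : Computable f) {st : ℕ → ℕ → ℕ}
    (hst : Computable (fun p : ℕ × ℕ => st p.1 p.2)) (hrefl : ∀ s x, bb f s x x = true) :
    ∃ rp : ℕ → ℕ → ℕ, Computable (fun p : ℕ × ℕ => rp p.1 p.2) ∧
      (∀ i x, bb f (st i x) (rp i x) x = true) ∧
      ∀ i x y, bb f (st i x) y x = true → rp i x ≤ y := by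
  have h2 : Computable (fun q : (ℕ × ℕ) × ℕ => st q.1.1 q.1.2) :=
    hst.comp (f := fun p : ℕ × ℕ => st p.1 p.2) (g := fun q : (ℕ × ℕ) × ℕ => q.1) Computable.fst
  have h0 : Computable (fun q : (ℕ × ℕ) × ℕ => (st q.1.1 q.1.2, q.2, q.1.2)) :=
    Computable.pair h2 (Computable.pair Computable.snd (Computable.snd.comp Computable.fst))
  have h1 : Computable (fun q : (ℕ × ℕ) × ℕ => bb f (st q.1.1 q.1.2) q.2 q.1.2) :=
    (bb_computable hf).comp (f := fun p : ℕ × ℕ × ℕ => bb f p.1 p.2.1 p.2.2)
      (g := fun q : (ℕ × ℕ) × ℕ => (st q.1.1 q.1.2, q.2, q.1.2)) h0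
  obtain ⟨g, hg, hg1, hg2⟩ := exists_min (P := fun p n => bb f (st p.1 p.2) n p.2) h1
    (fun p => ⟨p.2, hrefl _ _⟩)
  exact ⟨fun i x => g (i, x), hg, fun i x => hg1 (i, x), fun i x y h => hg2 (i, x) y h⟩

theorem exists_root {rp : ℕ → ℕ → ℕ} (hrp : Computable (fun p : ℕ × ℕ => rp p.1 p.2)) :
    ∃ rt : ℕ → ℕ → ℕ, Computable (fun p : ℕ × ℕ => rt p.1 p.2) ∧
      ∀ i x, rt i x = (rp i)^[x] x := by
  refine ⟨fun i x => (rp i)^[x] x, ?_, fun _ _ => rfl⟩
  have h0 : Computable (fun r : (ℕ × ℕ) × (ℕ × ℕ) => rp r.1.1 r.2.2) :=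
    hrp.comp (f := fun p : ℕ × ℕ => rp p.1 p.2) (g := fun r : (ℕ × ℕ) × (ℕ × ℕ) => (r.1.1, r.2.2))
      (Computable.pair (Computable.fst.comp Computable.fst) (Computable.snd.comp Computable.snd))
  have h1 : Computable (fun p : ℕ × ℕ => (Nat.rec p.2 (fun _ v => rp p.1 v) p.2 : ℕ)) :=
    Computable.nat_rec (f := fun p : ℕ × ℕ => p.2) (g := fun p : ℕ × ℕ => p.2)
      (h := fun (p : ℕ × ℕ) (q : ℕ × ℕ) => rp p.1 q.2) Computable.snd Computable.snd h0
  refine h1.of_eq ?_
  rintro ⟨i, x⟩
  have : ∀ n, (Nat.rec x (fun _ v => rp i v) n : ℕ) = (rp i)^[n] x := by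
    intro n
    induction n with
    | zero => rfl
    | succ n ih => rw [Function.iterate_succ_apply', ← ih]
  exact this x

/-- Every co-enumerable equivalence relation is given by a computable family of Boolean
invariants. -/
theorem exists_invariant {R : ℕ → ℕ → Prop} (hR : Equivalence R)
    (hP : ∃ P : ℕ × ℕ × ℕ → Prop, ComputablePred P ∧ ∀ x y, R x y ↔ ∀ t, P (x, y, t)) :
    ∃ κ : ℕ → ℕ → Bool, Computable₂ κ ∧ ∀ x y, R x y ↔ ∀ i, κ i x = κ i y := by
  obtain ⟨P, hP, hRP⟩ := hP
  obtain ⟨f, hf, rfl⟩ := ComputablePred.computable_iff.1 hP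
  -- basic facts on the approximations
  have hRb : ∀ x y, R x y → ∀ s, bb f s x y = true := by
    intro x y h s
    rw [bb_iff]
    exact fun t _ => ⟨(hRP x y).1 h t, (hRP y x).1 (hR.symm h) t⟩
  have hrefl : ∀ s x, bb f s x x = true := fun s x => hRb x x (hR.refl x) s
  have hlim : ∀ m, ∃ s, ∀ s' ≥ s, ∀ x ≤ m, ∀ y ≤ m, (bb f s' x y = true ↔ R x y) := by
    intro m
    have h1 : ∀ x y, ∃ s, bb f s x y = true → R x y := by
      intro x y
      by_cases h : R x y
      · exact ⟨0, fun _ => h⟩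
      · rw [hRP] at h
        push Not at h
        obtain ⟨t, ht⟩ := h
        refine ⟨t + 1, fun hb => ?_⟩
        rw [bb_iff] at hb
        exact absurd (hb t (by omega)).1 ht
    choose s hs using h1
    refine ⟨∑ x ∈ Finset.range (m + 1), ∑ y ∈ Finset.range (m + 1), s x y, ?_⟩
    intro s' hs' x hx y hy
    refine ⟨fun h => hs x y (bb_mono f ?_ h), fun h => hRb x y h s'⟩
    refine le_trans ?_ hs'
    refine le_trans ?_ (Finset.single_le_sum (f := fun x => ∑ y ∈ Finset.range (m + 1), s x y)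
      (fun _ _ => Nat.zero_le _) (Finset.mem_range.2 (by omega : x < m + 1)))
    exact Finset.single_le_sum (f := fun y => s x y)
      (fun _ _ => Nat.zero_le _) (Finset.mem_range.2 (by omega : y < m + 1))
  have hex : ∀ i x : ℕ, ∃ n, tr f (i + n) x = true := by
    intro i x
    obtain ⟨s, hs⟩ := hlim x
    refine ⟨s, ?_⟩
    rw [tr_iff]
    intro a ha b hb c hc h1 h2
    have := hs (i + s) (by omega)
    rw [this a ha b hb] at h1
    rw [this b hb c hc] at h2
    rw [this a ha c hc]
    exact hR.trans h1 h2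
  -- stages
  obtain ⟨st, hst_comp, hst_tr, hst_ge, hst_min⟩ := exists_stage hf hex
  have hst_mono : ∀ i x y, y ≤ x → st i y ≤ st i x := by
    intro i x y hyx
    refine hst_min i y _ (hst_ge i x) ?_
    have h := hst_tr i x
    rw [tr_iff] at h ⊢
    exact fun a ha b hb c hc => h a (by omega) b (by omega) c (by omega)
  -- representatives
  obtain ⟨rp, hrp_comp, hrp_spec, hrp_min⟩ := exists_rep hf hst_comp hrefl
  have hrp_le : ∀ i x, rp i x ≤ x := fun i x => hrp_min i x x (hrefl _ _)
  -- roots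
  obtain ⟨rt, hrt_comp, hrt⟩ := exists_root hrp_comp
  have hrt_rp : ∀ i x, rt i (rp i x) = rt i x := by
    intro i x
    rw [hrt, hrt, ← iterate_stable (hrp_le i) (rp i x) x (hrp_le i x),
      ← Function.iterate_succ_apply, iterate_stable (hrp_le i) x (x + 1) (by omega)]
  have hinv : ∀ i x y, y < x → bb f (st i x) y x = true → rt i y = rt i x := by
    intro i x
    induction x using Nat.strong_induction_on with
    | _ x ih =>
      intro y hyx hb
      have h1 := hrp_spec i x
      have h2 := hrp_min i x y hb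
      rw [← hrt_rp i x]
      rcases Nat.lt_or_ge (rp i x) y with h | h
      · refine (ih y hyx (rp i x) h ?_).symm
        have h3 := hst_tr i x
        rw [tr_iff] at h3
        have h4 := h3 (rp i x) (by omega) x le_rfl y (by omega) h1 (bb_symm f hb)
        exact bb_mono f (hst_mono i x y (by omega)) h4
      · obtain rfl : y = rp i x := le_antisymm h h2
        rfl
  refine ⟨fun n x => decide (rt n.unpair.1 x = n.unpair.2), ?_, ?_⟩
  · have h1 : Computable (fun p : ℕ × ℕ => rt p.1.unpair.1 p.2) :=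
      hrt_comp.comp (Computable.pair (Computable.fst.comp (Computable.unpair.comp Computable.fst))
        Computable.snd)
    have h2 : Computable (fun p : ℕ × ℕ => p.1.unpair.2) :=
      Computable.snd.comp (Computable.unpair.comp Computable.fst)
    exact (Primrec.eq (α := ℕ)).decide.to_comp.comp h1 h2
  · intro x y
    constructor
    · intro h n
      have : ∀ i, rt i x = rt i y := by
        intro i
        rcases lt_trichotomy x y with h' | h' | h'
        · exact hinv i y x h' (hRb _ _ h _)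
        · rw [h']
        · exact (hinv i x y h' (hRb _ _ (hR.symm h) _)).symm
      simp only [this]
    · intro h
      obtain ⟨s, hs⟩ := hlim (max x y)
      -- at stage `s` the root of `z ≤ max x y` is `R`-related to `z`
      have h1 : ∀ z ≤ max x y, R (rp s z) z := by
        intro z hz
        have := hrp_spec s z
        rwa [hs (st s z) (hst_ge s z) _ (le_trans (hrp_le s z) hz) _ hz] at this
      have h2 : ∀ n, ∀ z ≤ max x y, R ((rp s)^[n] z) z := by
        intro n
        induction n with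
        | zero => intro z _; exact hR.refl z
        | succ n ih =>
          intro z hz
          rw [Function.iterate_succ_apply]
          exact hR.trans (ih _ (le_trans (hrp_le s z) hz)) (h1 z hz)
      have h3 := h (Nat.pair s (rt s x))
      simp only [Nat.unpair_pair, decide_true] at h3
      have h4 : rt s y = rt s x := by simpa using h3.symm
      have h5 : R (rt s x) x := by rw [hrt]; exact h2 x x (le_max_left _ _)
      have h6 : R (rt s y) y := by rw [hrt]; exact h2 y y (le_max_right _ _)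
      rw [h4] at h6
      exact hR.trans (hR.symm h5) h6

end Pool.Agent.H81
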