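import Mathlib

set_option autoImplicit false

/-!
# Isomorphism of countable equivalence structures through class counts
-/

namespace Pool.Agent.H81

variable {α : Type}

/-- `r` is an equivalence relation on the set `X`. -/
structure EqOn (X : Set α) (r : α → α → Prop) : Prop where
  refl : ∀ u ∈ X, r u u
  symm : ∀ u ∈ X, ∀ v ∈ X, r u v → r v u
  trans : ∀ u ∈ X, ∀ v ∈ X, ∀ w ∈ X, r u v → r v w → r u w

/-- The class of `u`. -/
def cls (X : Set α) (r : α → α → Prop) (u : α) : Set α := {v | v ∈ X ∧ r u v}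

/-- The set of classes. -/
def classes (X : Set α) (r : α → α → Prop) : Set (Set α) := {c | ∃ u ∈ X, c = cls X r u}

/-- The set of classes of size `k`. -/
def classesOf (X : Set α) (r : α → α → Prop) (k : ℕ∞) : Set (Set α) :=
  {c | c ∈ classes X r ∧ c.encard = k}

theorem nonempty_equiv_of_encard_eq {β γ : Type} {s : Set β} {t : Set γ} (hs : s.Countable)
    (ht : t.Countable) (h : s.encard = t.encard) : Nonempty (s ≃ t) := by
  have h1 : Cardinal.mk s ≤ Cardinal.aleph0 := Cardinal.mk_le_aleph0_iff.2 hs.to_subtype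
  have h2 : Cardinal.mk t ≤ Cardinal.aleph0 := Cardinal.mk_le_aleph0_iff.2 ht.to_subtype
  have h3 : Cardinal.toENat (Cardinal.mk s) = Cardinal.toENat (Cardinal.mk t) := h
  have h4 : Cardinal.mk s = Cardinal.mk t := Cardinal.toENat_injOn h1 h2 h3
  exact Cardinal.eq.1 h4

section

variable {X : Set α} {r : α → α → Prop}

theorem EqOn.mem_cls (h : EqOn X r) {u : α} (hu : u ∈ X) : u ∈ cls X r u := ⟨hu, h.refl u hu⟩

theorem EqOn.cls_eq (h : EqOn X r) {u v : α} (hu : u ∈ X) (hv : v ∈ X) (huv : r u v) :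
    cls X r u = cls X r v := by
  ext w
  constructor
  · rintro ⟨hw, hr⟩
    exact ⟨hw, h.trans v hv u hu w hw (h.symm u hu v hv huv) hr⟩
  · rintro ⟨hw, hr⟩
    exact ⟨hw, h.trans u hu v hv w hw huv hr⟩

theorem EqOn.cls_eq_iff (h : EqOn X r) {u v : α} (hu : u ∈ X) (hv : v ∈ X) :
    cls X r u = cls X r v ↔ r u v := by
  refine ⟨fun e => ?_, h.cls_eq hu hv⟩
  have : v ∈ cls X r u := e ▸ h.mem_cls hv
  exact this.2

theorem classes_subset_mem (h : EqOn X r) {c : Set α} (hc : c ∈ classes X r) {u : α} (hu : u ∈ c) :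
    c = cls X r u ∧ u ∈ X := by
  obtain ⟨v, hv, rfl⟩ := hc
  exact ⟨h.cls_eq hv hu.1 hu.2, hu.1⟩

/-- The set is the disjoint union of its classes. -/
noncomputable def EqOn.sigmaEquiv (h : EqOn X r) : (Σ c : classes X r, (c : Set α)) ≃ X :=
  Equiv.ofBijective (fun p => ⟨p.2.1, (classes_subset_mem h p.1.2 p.2.2).2⟩) (by
    constructor
    · rintro ⟨⟨c, hc⟩, ⟨u, hu⟩⟩ ⟨⟨c', hc'⟩, ⟨u', hu'⟩⟩ e
      simp only [Subtype.mk.injEq] at e
      subst e
      obtain rfl : c = c' := by
        rw [(classes_subset_mem h hc hu).1, (classes_subset_mem h hc' hu').1]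
      rfl
    · rintro ⟨u, hu⟩
      exact ⟨⟨⟨cls X r u, u, hu, rfl⟩, ⟨u, h.mem_cls hu⟩⟩, rfl⟩)

theorem sigmaEquiv_coe (h : EqOn X r) (p : Σ c : classes X r, (c : Set α)) :
    ((h.sigmaEquiv p : X) : α) = p.2.1 := rfl

theorem rel_sigmaEquiv (h : EqOn X r) (p q : Σ c : classes X r, (c : Set α)) :
    r (h.sigmaEquiv p) (h.sigmaEquiv q) ↔ p.1 = q.1 := by
  rw [← h.cls_eq_iff (h.sigmaEquiv p).2 (h.sigmaEquiv q).2, sigmaEquiv_coe, sigmaEquiv_coe,
    ← (classes_subset_mem h p.1.2 p.2.2).1, ← (classes_subset_mem h q.1.2 q.2.2).1]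
  exact ⟨fun e => Subtype.ext e, fun e => congrArg _ e⟩

theorem EqOn.countable_classes [Countable α] (_h : EqOn X r) : (classes X r).Countable := by
  have : Function.Surjective (fun u : X => (⟨cls X r u, u, u.2, rfl⟩ : classes X r)) := by
    rintro ⟨_, u, hu, rfl⟩
    exact ⟨⟨u, hu⟩, rfl⟩
  exact Set.countable_coe_iff.1 this.countable

end

/-- Two countable equivalence structures are isomorphic if and only if they have the same number of
classes of each size. -/
theorem iso_iff [Countable α] {X Y : Set α} {r s : α → α → Prop} (hX : EqOn X r) (hY : EqOn Y s) :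
    (∃ f : α → α, Set.BijOn f X Y ∧ ∀ u ∈ X, ∀ v ∈ X, (r u v ↔ s (f u) (f v))) ↔
      ∀ k, (classesOf X r k).encard = (classesOf Y s k).encard := by
  classical
  constructor
  · rintro ⟨f, hf, hrs⟩ k
    have himg : ∀ u ∈ X, f '' cls X r u = cls Y s (f u) := by
      intro u hu
      ext w
      constructor
      · rintro ⟨v, ⟨hv, hr⟩, rfl⟩
        exact ⟨hf.mapsTo hv, (hrs u hu v hv).1 hr⟩
      · rintro ⟨hw, hs⟩
        obtain ⟨v, hv, rfl⟩ := hf.surjOn hw
        exact ⟨v, ⟨hv, (hrs u hu v hv).2 hs⟩, rfl⟩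
    have himg2 : (fun c => f '' c) '' classesOf X r k = classesOf Y s k := by
      ext d
      constructor
      · rintro ⟨c, ⟨⟨u, hu, rfl⟩, hk⟩, rfl⟩
        refine ⟨⟨f u, hf.mapsTo hu, himg u hu⟩, ?_⟩
        rw [← hk]
        exact (hf.injOn.mono (fun v hv => hv.1)).encard_image
      · rintro ⟨⟨w, hw, rfl⟩, hk⟩
        obtain ⟨u, hu, rfl⟩ := hf.surjOn hw
        refine ⟨cls X r u, ⟨⟨u, hu, rfl⟩, ?_⟩, himg u hu⟩
        rw [← hk, ← himg u hu]
        exact ((hf.injOn.mono (fun v hv => hv.1)).encard_image).symm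
    rw [← himg2]
    refine (Set.InjOn.encard_image ?_).symm
    rintro c ⟨⟨u, hu, rfl⟩, -⟩ d ⟨⟨v, hv, rfl⟩, -⟩ e
    simp only [himg u hu, himg v hv] at e
    rw [hY.cls_eq_iff (hf.mapsTo hu) (hf.mapsTo hv), ← hrs u hu v hv] at e
    exact hX.cls_eq hu hv e
  · intro h
    -- bijections between the sets of classes of each size
    have h1 : ∀ k, Nonempty (classesOf X r k ≃ classesOf Y s k) := fun k =>
      nonempty_equiv_of_encard_eq (hX.countable_classes.mono (fun c hc => hc.1))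
        (hY.countable_classes.mono (fun c hc => hc.1)) (h k)
    have e1 : ∀ k, classesOf X r k ≃ classesOf Y s k := fun k => (h1 k).some
    let toF : (Z : Set α) → (t : α → α → Prop) → classes Z t ≃ Σ k : ℕ∞, classesOf Z t k :=
      fun Z t =>
      { toFun := fun c => ⟨(c : Set α).encard, ⟨c, c.2, rfl⟩⟩
        invFun := fun p => ⟨p.2.1, p.2.2.1⟩
        left_inv := fun c => rfl
        right_inv := fun p => by
          obtain ⟨k, c, hc, rfl⟩ := p
          rfl }
    let φ : classes X r ≃ classes Y s :=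
      (toF X r).trans ((Equiv.sigmaCongrRight e1).trans (toF Y s).symm)
    have hφ : ∀ c : classes X r, ((φ c : classes Y s) : Set α).encard = (c : Set α).encard := by
      intro c
      exact (e1 _ _).2.2
    have h2 : ∀ c : classes X r, Nonempty ((c : Set α) ≃ ((φ c : classes Y s) : Set α)) :=
      fun c => nonempty_equiv_of_encard_eq (Set.to_countable _) (Set.to_countable _) (hφ c).symm
    have e2 : ∀ c : classes X r, (c : Set α) ≃ ((φ c : classes Y s) : Set α) :=
      fun c => (h2 c).some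
    let Φ : (Σ c : classes X r, (c : Set α)) ≃ Σ d : classes Y s, (d : Set α) :=
      Equiv.sigmaCongr φ e2
    let Ψ : X ≃ Y := hX.sigmaEquiv.symm.trans (Φ.trans hY.sigmaEquiv)
    have hΨ : ∀ u v : X, r u v ↔ s (Ψ u) (Ψ v) := by
      intro u v
      have hu : u = hX.sigmaEquiv (hX.sigmaEquiv.symm u) := by simp
      have hv : v = hX.sigmaEquiv (hX.sigmaEquiv.symm v) := by simp
      have : s (Ψ u) (Ψ v) ↔ (Φ (hX.sigmaEquiv.symm u)).1 = (Φ (hX.sigmaEquiv.symm v)).1 :=
        rel_sigmaEquiv hY _ _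
      rw [this]
      conv_lhs => rw [hu, hv]
      rw [rel_sigmaEquiv hX]
      exact (φ.injective.eq_iff).symm
    refine ⟨fun u => if hu : u ∈ X then (Ψ ⟨u, hu⟩ : α) else u, ⟨?_, ?_, ?_⟩, ?_⟩
    · intro u hu
      simp only [dif_pos hu]
      exact (Ψ ⟨u, hu⟩).2
    · intro u hu v hv e
      simp only [dif_pos hu, dif_pos hv] at e
      have := Ψ.injective (Subtype.ext e)
      exact congrArg Subtype.val this
    · intro w hw
      refine ⟨Ψ.symm ⟨w, hw⟩, (Ψ.symm ⟨w, hw⟩).2, ?_⟩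
      simp
    · intro u hu v hv
      simp only [dif_pos hu, dif_pos hv]
      exact hΨ ⟨u, hu⟩ ⟨v, hv⟩

end Pool.Agent.H81
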