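import Mathlib
import Pool.Agent.H81.Auto
import Pool.Agent.H81.Iso

set_option autoImplicit false

/-!
# Isomorphism of automatic equivalence relations: definitions, and the bounded test
-/

namespace Pool.Agent.H81

open Encodable

/-- Presentations: an automaton for the domain and an automaton for the relation. -/
abbrev PCode := (Finset (ℕ × ℕ × ℕ) × ℕ × Finset ℕ) ×
  (Finset (ℕ × (Option ℕ × Option ℕ) × ℕ) × ℕ × Finset ℕ)

/-- The same with lists. -/
abbrev LCode := (List (ℕ × ℕ × ℕ) × ℕ × List ℕ) ×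
  (List (ℕ × (Option ℕ × Option ℕ) × ℕ) × ℕ × List ℕ)

/-- The domain. -/
def DomP (p : PCode) : Set (List ℕ) :=
  {w | Acc (p.1.1 : Set (ℕ × ℕ × ℕ)) (p.1.2.2 : Set ℕ) p.1.2.1 w}

/-- The relation. -/
def RelP (p : PCode) (u v : List ℕ) : Prop :=
  Acc (p.2.1 : Set (ℕ × (Option ℕ × Option ℕ) × ℕ)) (p.2.2.2 : Set ℕ) p.2.2.1 (conv u v)

/-- `n` is an index of an automatic equivalence relation. -/
def ValidP (n : ℕ) : Prop := ∃ p : PCode, decode n = some p ∧ EqOn (DomP p) (RelP p)

/-- The isomorphism relation on indices, all invalid indices forming one class. -/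
def EP (n m : ℕ) : Prop :=
  (¬ ValidP n ∧ ¬ ValidP m) ∨
    ∃ p q : PCode, decode n = some p ∧ decode m = some q ∧
      EqOn (DomP p) (RelP p) ∧ EqOn (DomP q) (RelP q) ∧
      ∃ f : List ℕ → List ℕ, Set.BijOn f (DomP p) (DomP q) ∧
        ∀ u ∈ DomP p, ∀ v ∈ DomP p, (RelP p u v ↔ RelP q (f u) (f v))

/-- Membership in the domain, list version. -/
def InD (c : LCode) (u : List ℕ) : Prop := Acc {t | t ∈ c.1.1} {q | q ∈ c.1.2.2} c.1.2.1 u

/-- The relation, list version. -/
def InR (c : LCode) (u v : List ℕ) : Prop :=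
  Acc {t | t ∈ c.2.1} {q | q ∈ c.2.2.2} c.2.2.1 (conv u v)

/-- The four lists have no repetitions. -/
def NodupC (c : LCode) : Prop := c.1.1.Nodup ∧ c.1.2.2.Nodup ∧ c.2.1.Nodup ∧ c.2.2.2.Nodup

/-- All words of length at most `L` with letters at most `n`. -/
def words (n : ℕ) : ℕ → List (List ℕ)
  | 0 => [[]]
  | L + 1 => [] :: (List.range (n + 1)).flatMap (fun a => (words n L).map (fun w => a :: w))

/-- Bound for the test of validity. -/
def bV (n : ℕ) : ℕ := 2 ^ (12 * (n + 1))

/-- Bound for tails. -/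
def bT (n : ℕ) : ℕ := 2 ^ (2 * (n + 1))

/-- Bound for the set of elements of classes of size `k` (`k = 0` stands for infinite). -/
def bK (n k : ℕ) : ℕ := 2 ^ (n + 1) * (k + 2) ^ (2 * (2 ^ (n + 1) * 2 ^ (n + 1)))

/-- The bounded test of validity. -/
def ValidL (n : ℕ) (c : LCode) : Prop :=
  NodupC c ∧ ∀ u ∈ words n (bV n), ∀ v ∈ words n (bV n), ∀ w ∈ words n (bV n),
    (InD c u → InR c u u) ∧ (InD c u → InD c v → InR c u v → InR c v u) ∧
    (InD c u → InD c v → InD c w → InR c u v → InR c v w → InR c u w)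

/-- Bounded test for having an infinite class. -/
def Long (n : ℕ) (c : LCode) (u : List ℕ) : Prop :=
  ∃ v ∈ words n (u.length + 2 * bT n), u.length + bT n ≤ v.length ∧ InD c v ∧ InR c u v

open Classical in
/-- Number of elements of a finite class. -/
noncomputable def numR (n : ℕ) (c : LCode) (u : List ℕ) : ℕ :=
  ((words n (u.length + bT n)).filter (fun v => InD c v ∧ InR c u v)).length

/-- Elements of classes of size `k ≥ 1`; for `k = 0` the shortest elements of infinite classes. -/
def ZZ (n : ℕ) (c : LCode) (k : ℕ) (u : List ℕ) : Prop :=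
  InD c u ∧
    ((k = 0 ∧ Long n c u ∧ ∀ v ∈ words n u.length, v.length < u.length → InD c v → ¬ InR c u v) ∨
      (k ≠ 0 ∧ ¬ Long n c u ∧ numR n c u = k))

/-- There are infinitely many classes of size `k`. -/
def InfZ (n : ℕ) (c : LCode) (k : ℕ) : Prop :=
  ∃ u ∈ words n (2 * bK n k), bK n k ≤ u.length ∧ ZZ n c k u

/-- First representative of its class among the short elements of `ZZ`. -/
def RepZ (n : ℕ) (c : LCode) (k : ℕ) (u : List ℕ) : Prop :=
  ZZ n c k u ∧ ∀ v ∈ words n (bK n k), encode v < encode u → ZZ n c k v → ¬ InR c u v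

open Classical in
/-- Number of classes of size `k` when there are finitely many. -/
noncomputable def cntZ (n : ℕ) (c : LCode) (k : ℕ) : ℕ :=
  ((words n (bK n k)).filter (fun u => RepZ n c k u)).length

/-- All target states, the start states and all letters of the domain automaton are at most `n`. -/
structure Bdd (n : ℕ) (c : LCode) : Prop where
  dtr : ∀ t ∈ c.1.1, t.2.1 ≤ n ∧ t.2.2 ≤ n
  dst : c.1.2.1 ≤ n
  rtr : ∀ t ∈ c.2.1, t.2.2 ≤ n
  rst : c.2.2.1 ≤ n

/-- The domain, list version. -/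
def XD (c : LCode) : Set (List ℕ) := {u | InD c u}

/-- The size coded by `k`: `0` codes infinity. -/
def szk (k : ℕ) : ℕ∞ := if k = 0 then ⊤ else (k : ℕ∞)

/-- The list code with index `n`. -/
def lc (n : ℕ) : LCode := (decode (α := LCode) n).getD (([], 0, []), ([], 0, []))

/-- Bounded test of validity of an index. -/
def ValidN (n : ℕ) : Prop := (decode (α := LCode) n).isSome = true ∧ ValidL n (lc n)

/-- The test at level `k`. -/
def Pdec (x y k : ℕ) : Prop :=
  (ValidN x ↔ ValidN y) ∧
    (ValidN x → ValidN y → (InfZ x (lc x) k ↔ InfZ y (lc y) k) ∧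
      (¬ InfZ x (lc x) k → cntZ x (lc x) k = cntZ y (lc y) k))

end Pool.Agent.H81
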