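import Mathlib
import Pool.Agent.H81.RegClosure

set_option autoImplicit false

/-!
# Regular programs for primitive recursive functions

A state is a natural number, usually a coded stack.  An instruction with parameters moves the state
`lhs I v` to the state `rhs I v`.  A program is a regular set of instruction words.
-/

namespace Pool.Agent.H81

open Language Computability

/-- The pairing function used for stacks and for class sizes. -/
def C (x s : ℕ) : ℕ := (x + s) * (x + s) + x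

theorem C_inj {x s x' s' : ℕ} (h : C x s = C x' s') : x = x' ∧ s = s' := by
  unfold C at h
  have h1 : x + s = x' + s' := by
    rcases lt_trichotomy (x + s) (x' + s') with h' | h' | h'
    · exfalso
      have : x + s + 1 ≤ x' + s' := h'
      have := Nat.mul_le_mul this this
      nlinarith
    · exact h'
    · exfalso
      have : x' + s' + 1 ≤ x + s := h'
      have := Nat.mul_le_mul this this
      nlinarith
  rw [h1] at h
  omega

theorem C_inj_iff {x s x' s' : ℕ} : C x s = C x' s' ↔ x = x' ∧ s = s' :=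
  ⟨C_inj, by rintro ⟨rfl, rfl⟩; rfl⟩

/-- Instructions. -/
inductive Ins
  | zero | succ | dup | swap | nip | pop | pairLt | pairGe | unpairLt | unpairGe
  | init | loop | exit | start | halt | garb
  deriving DecidableEq, Fintype

/-- State before an instruction, as a function of its parameters. -/
def lhs : Ins → (Fin 5 → ℕ) → ℕ
  | .zero, v => C (v 0) (v 1)
  | .succ, v => C (v 0) (v 1)
  | .dup, v => C (v 0) (v 1)
  | .swap, v => C (v 0) (C (v 1) (v 2))
  | .nip, v => C (v 0) (C (v 1) (v 2))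
  | .pop, v => C (v 0) (v 1)
  | .pairLt, v => C (v 0) (C (v 0 + 1 + v 1) (v 2))
  | .pairGe, v => C (v 0 + v 1) (C (v 0) (v 2))
  | .unpairLt, v => C ((v 0 + 1 + v 1) * (v 0 + 1 + v 1) + v 0) (v 2)
  | .unpairGe, v => C ((v 0 + v 1) * (v 0 + v 1) + (v 0 + v 1) + v 0) (v 2)
  | .init, v => C (v 0) (C (v 1) (v 2))
  | .loop, v => C (v 0) (C (v 1) (C (v 2) (C (v 3 + 1) (v 4))))
  | .exit, v => C (v 0) (C (v 1) (C (v 2) (C 0 (v 3))))
  | .start, v => v 0
  | .halt, _ => C 1 0
  | .garb, _ => 0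

/-- State after an instruction, as a function of its parameters. -/
def rhs : Ins → (Fin 5 → ℕ) → ℕ
  | .zero, v => C 0 (v 1)
  | .succ, v => C (v 0 + 1) (v 1)
  | .dup, v => C (v 0) (C (v 0) (v 1))
  | .swap, v => C (v 1) (C (v 0) (v 2))
  | .nip, v => C (v 0) (v 2)
  | .pop, v => v 1
  | .pairLt, v => C ((v 0 + 1 + v 1) * (v 0 + 1 + v 1) + v 0) (v 2)
  | .pairGe, v => C ((v 0 + v 1) * (v 0 + v 1) + (v 0 + v 1) + v 0) (v 2)
  | .unpairLt, v => C (v 0) (C (v 0 + 1 + v 1) (v 2))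
  | .unpairGe, v => C (v 0 + v 1) (C (v 0) (v 2))
  | .init, v => C (v 0) (C (v 1) (C 0 (v 2)))
  | .loop, v => C (v 2) (C (v 0) (C (v 1) (C (v 1) (C (v 2 + 1) (C (v 3) (v 4))))))
  | .exit, v => C (v 0) (v 3)
  | .start, v => C (v 0) (C (v 1) 0)
  | .halt, _ => 0
  | .garb, _ => 0

/-- `Run l n m`: the instruction word `l` can move state `n` to state `m`. -/
def Run : List Ins → ℕ → ℕ → Prop
  | [], n, m => n = m
  | I :: l, n, m => ∃ v, n = lhs I v ∧ Run l (rhs I v) m

/-- `Rel L n m`: some instruction word of `L` can move state `n` to state `m`. -/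
def Rel (L : Language Ins) (n m : ℕ) : Prop := ∃ l ∈ L, Run l n m

theorem run_append (l₁ l₂ : List Ins) (n m : ℕ) :
    Run (l₁ ++ l₂) n m ↔ ∃ k, Run l₁ n k ∧ Run l₂ k m := by
  induction l₁ generalizing n with
  | nil => simp [Run]
  | cons I l ih =>
    simp only [List.cons_append, Run, ih]
    constructor
    · rintro ⟨v, h1, k, h2, h3⟩
      exact ⟨k, ⟨v, h1, h2⟩, h3⟩
    · rintro ⟨k, ⟨v, h1, h2⟩, h3⟩
      exact ⟨v, h1, k, h2, h3⟩

theorem rel_mul (L M : Language Ins) (n m : ℕ) :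
    Rel (L * M) n m ↔ ∃ k, Rel L n k ∧ Rel M k m := by
  constructor
  · rintro ⟨_, ⟨a, ha, b, hb, rfl⟩, h⟩
    obtain ⟨k, h1, h2⟩ := (run_append a b n m).1 h
    exact ⟨k, ⟨a, ha, h1⟩, ⟨b, hb, h2⟩⟩
  · rintro ⟨k, ⟨a, ha, h1⟩, ⟨b, hb, h2⟩⟩
    exact ⟨a ++ b, append_mem_mul ha hb, (run_append a b n m).2 ⟨k, h1, h2⟩⟩

theorem rel_add (L M : Language Ins) (n m : ℕ) :
    Rel (L + M) n m ↔ Rel L n m ∨ Rel M n m := by
  constructor
  · rintro ⟨l, h | h, h'⟩
    · exact Or.inl ⟨l, h, h'⟩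
    · exact Or.inr ⟨l, h, h'⟩
  · rintro (⟨l, h, h'⟩ | ⟨l, h, h'⟩)
    · exact ⟨l, Or.inl h, h'⟩
    · exact ⟨l, Or.inr h, h'⟩

theorem rel_kstar (L : Language Ins) (n m : ℕ) :
    Rel (L∗) n m ↔ Relation.ReflTransGen (Rel L) n m := by
  constructor
  · rintro ⟨l, ⟨ls, rfl, hls⟩, h⟩
    induction ls generalizing n with
    | nil => simp [Run] at h; subst h; exact Relation.ReflTransGen.refl
    | cons l ls ih =>
      rw [List.flatten_cons, run_append] at h
      obtain ⟨k, h1, h2⟩ := h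
      exact Relation.ReflTransGen.head ⟨l, hls l (by simp), h1⟩
        (ih k (fun y hy => hls y (by simp [hy])) h2)
  · intro h
    induction h with
    | refl => exact ⟨[], nil_mem_kstar _, rfl⟩
    | tail _ h2 ih =>
      obtain ⟨l, ⟨ls, rfl, hls⟩, h⟩ := ih
      obtain ⟨l', hl', h'⟩ := h2
      refine ⟨ls.flatten ++ l', ⟨ls ++ [l'], by simp, ?_⟩, (run_append _ _ _ _).2 ⟨_, h, h'⟩⟩
      intro y hy
      rcases List.mem_append.1 hy with hy | hy
      · exact hls y hy
      · simp at hy; subst hy; exact hl'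

/-- The program consisting of the single word `l`. -/
def word (l : List Ins) : Language Ins := ({l} : Set (List Ins))

theorem rel_word (l : List Ins) (n m : ℕ) : Rel (word l) n m ↔ Run l n m :=
  ⟨by rintro ⟨_, rfl, h⟩; exact h, fun h => ⟨l, rfl, h⟩⟩

theorem isRegular_word (l : List Ins) : (word l).IsRegular :=
  isRegular_finite {l} (fun _ hx => Finset.mem_singleton.2 hx)

/-- Parameters from a list of values. -/
def par (a b c d e : ℕ) : Fin 5 → ℕ := ![a, b, c, d, e]

theorem run_dup (x s m : ℕ) : Run [.dup] (C x s) m ↔ m = C x (C x s) := by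
  constructor
  · rintro ⟨v, h1, h2⟩
    obtain ⟨rfl, rfl⟩ := C_inj h1
    exact h2.symm
  · rintro rfl
    exact ⟨par x s 0 0 0, rfl, rfl⟩

theorem run_swap (x y s m : ℕ) : Run [.swap] (C x (C y s)) m ↔ m = C y (C x s) := by
  constructor
  · rintro ⟨v, h1, h2⟩
    simp only [lhs, C_inj_iff] at h1
    obtain ⟨rfl, rfl, rfl⟩ := h1
    exact h2.symm
  · rintro rfl
    exact ⟨par x y s 0 0, rfl, rfl⟩

theorem run_zero (x s m : ℕ) : Run [.zero] (C x s) m ↔ m = C 0 s := by
  constructor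
  · rintro ⟨v, h1, h2⟩
    obtain ⟨rfl, rfl⟩ := C_inj h1
    exact h2.symm
  · rintro rfl
    exact ⟨par x s 0 0 0, rfl, rfl⟩

theorem run_succ (x s m : ℕ) : Run [.succ] (C x s) m ↔ m = C (x + 1) s := by
  constructor
  · rintro ⟨v, h1, h2⟩
    obtain ⟨rfl, rfl⟩ := C_inj h1
    exact h2.symm
  · rintro rfl
    exact ⟨par x s 0 0 0, rfl, rfl⟩

theorem run_nip (x y s m : ℕ) : Run [.nip] (C x (C y s)) m ↔ m = C x s := by
  constructor
  · rintro ⟨v, h1, h2⟩
    simp only [lhs, C_inj_iff] at h1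
    obtain ⟨rfl, rfl, rfl⟩ := h1
    exact h2.symm
  · rintro rfl
    exact ⟨par x y s 0 0, rfl, rfl⟩

theorem run_pop (x s m : ℕ) : Run [.pop] (C x s) m ↔ m = s := by
  constructor
  · rintro ⟨v, h1, h2⟩
    obtain ⟨rfl, rfl⟩ := C_inj h1
    exact h2.symm
  · rintro rfl
    exact ⟨par x m 0 0 0, rfl, rfl⟩

theorem run_init (x y z m : ℕ) : Run [.init] (C x (C y z)) m ↔ m = C x (C y (C 0 z)) := by
  constructor
  · rintro ⟨v, h1, h2⟩
    simp only [lhs, C_inj_iff] at h1
    obtain ⟨rfl, rfl, rfl⟩ := h1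
    exact h2.symm
  · rintro rfl
    exact ⟨par x y z 0 0, rfl, rfl⟩

theorem run_loop (x z y k s m : ℕ) : Run [.loop] (C x (C z (C y (C k s)))) m ↔
    ∃ k', k = k' + 1 ∧ m = C y (C x (C z (C z (C (y + 1) (C k' s))))) := by
  constructor
  · rintro ⟨v, h1, h2⟩
    simp only [lhs, C_inj_iff] at h1
    obtain ⟨rfl, rfl, rfl, rfl, rfl⟩ := h1
    exact ⟨_, rfl, h2.symm⟩
  · rintro ⟨k', rfl, rfl⟩
    exact ⟨par x z y k' s, rfl, rfl⟩

theorem run_exit (x z y k s m : ℕ) : Run [.exit] (C x (C z (C y (C k s)))) m ↔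
    k = 0 ∧ m = C x s := by
  constructor
  · rintro ⟨v, h1, h2⟩
    simp only [lhs, C_inj_iff] at h1
    obtain ⟨rfl, rfl, rfl, rfl, rfl⟩ := h1
    exact ⟨rfl, h2.symm⟩
  · rintro ⟨rfl, rfl⟩
    exact ⟨par x z y s 0, rfl, rfl⟩

theorem run_halt (n m : ℕ) : Run [.halt] n m ↔ n = C 1 0 ∧ m = 0 := by
  constructor
  · rintro ⟨v, h1, h2⟩
    exact ⟨h1, h2.symm⟩
  · rintro ⟨rfl, rfl⟩
    exact ⟨par 0 0 0 0 0, rfl, rfl⟩

theorem run_start (n m : ℕ) : Run [.start] n m ↔ ∃ k, m = C n (C k 0) := by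
  constructor
  · rintro ⟨v, rfl, h2⟩
    exact ⟨_, h2.symm⟩
  · rintro ⟨k, rfl⟩
    exact ⟨par n k 0 0 0, rfl, rfl⟩

theorem natPair_lt (a b : ℕ) : Nat.pair a (a + 1 + b) = (a + 1 + b) * (a + 1 + b) + a := by
  rw [Nat.pair, if_pos (by omega)]

theorem natPair_ge (a b : ℕ) : Nat.pair (a + b) a = (a + b) * (a + b) + (a + b) + a := by
  rw [Nat.pair, if_neg (by omega)]

/-- Program replacing the two top entries `x`, `y` by `Nat.pair x y`. -/
def Pair : Language Ins := word [.pairLt] + word [.pairGe]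

theorem rel_Pair (x y s m : ℕ) : Rel Pair (C x (C y s)) m ↔ m = C (Nat.pair x y) s := by
  rw [Pair, rel_add, rel_word, rel_word]
  constructor
  · rintro (⟨v, h1, h2⟩ | ⟨v, h1, h2⟩)
    · simp only [lhs, C_inj_iff] at h1
      obtain ⟨rfl, rfl, rfl⟩ := h1
      rw [natPair_lt]
      exact h2.symm
    · simp only [lhs, C_inj_iff] at h1
      obtain ⟨rfl, rfl, rfl⟩ := h1
      rw [natPair_ge]
      exact h2.symm
  · rintro rfl
    rcases lt_or_ge x y with h | h
    · obtain ⟨b, rfl⟩ := Nat.exists_eq_add_of_lt h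
      left
      refine ⟨par x b s 0 0, ?_, ?_⟩
      · show _ = C x (C (x + 1 + b) s)
        congr 2; ring
      · show C ((x + 1 + b) * (x + 1 + b) + x) s = _
        rw [show x + b + 1 = x + 1 + b by ring, natPair_lt]
    · obtain ⟨b, rfl⟩ := Nat.exists_eq_add_of_le h
      right
      refine ⟨par y b s 0 0, rfl, ?_⟩
      rw [natPair_ge]
      rfl

/-- Program replacing the top entry `Nat.pair x y` by the two entries `x`, `y`. -/
def Unpair : Language Ins := word [.unpairLt] + word [.unpairGe]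

theorem rel_Unpair (x y s m : ℕ) : Rel Unpair (C (Nat.pair x y) s) m ↔ m = C x (C y s) := by
  rw [Unpair, rel_add, rel_word, rel_word]
  constructor
  · rintro (⟨v, h1, h2⟩ | ⟨v, h1, h2⟩)
    · simp only [lhs, C_inj_iff, ← natPair_lt, Nat.pair_eq_pair] at h1
      obtain ⟨⟨rfl, rfl⟩, rfl⟩ := h1
      exact h2.symm
    · simp only [lhs, C_inj_iff, ← natPair_ge, Nat.pair_eq_pair] at h1
      obtain ⟨⟨rfl, rfl⟩, rfl⟩ := h1
      exact h2.symm
  · rintro rfl
    rcases lt_or_ge x y with h | h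
    · obtain ⟨b, rfl⟩ := Nat.exists_eq_add_of_lt h
      left
      refine ⟨par x b s 0 0, ?_, ?_⟩
      · show _ = C ((x + 1 + b) * (x + 1 + b) + x) s
        rw [show x + b + 1 = x + 1 + b by ring, natPair_lt]
      · show C x (C (x + 1 + b) s) = _
        congr 2; ring
    · obtain ⟨b, rfl⟩ := Nat.exists_eq_add_of_le h
      right
      refine ⟨par y b s 0 0, ?_, rfl⟩
      rw [natPair_ge]
      rfl

theorem isRegular_Pair : Pair.IsRegular := (isRegular_word _).add (isRegular_word _)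

theorem isRegular_Unpair : Unpair.IsRegular := (isRegular_word _).add (isRegular_word _)

/-- `Computes L f`: the program `L` replaces the top entry `x` of the stack by `f x`. -/
def Computes (L : Language Ins) (f : ℕ → ℕ) : Prop :=
  ∀ x s m, Rel L (C x s) m ↔ m = C (f x) s

theorem Computes.comp {L M : Language Ins} {f g : ℕ → ℕ} (hL : Computes L f) (hM : Computes M g) :
    Computes (M * L) (fun x => f (g x)) := by
  intro x s m
  rw [rel_mul]
  constructor
  · rintro ⟨k, h1, h2⟩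
    rw [hM] at h1; subst h1
    rwa [hL] at h2
  · rintro rfl
    exact ⟨_, (hM _ _ _).2 rfl, (hL _ _ _).2 rfl⟩

/-- Program for the recursion body. -/
def Body (M : Language Ins) : Language Ins :=
  word [.loop] * (Pair * (word [.swap] * (Pair * M)))

theorem rel_Body {M : Language Ins} {g : ℕ → ℕ} (hM : Computes M g) (x z y k s m : ℕ) :
    Rel (Body M) (C x (C z (C y (C k s)))) m ↔
      ∃ k', k = k' + 1 ∧ m = C (g (Nat.pair z (Nat.pair y x))) (C z (C (y + 1) (C k' s))) := by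
  rw [Body, rel_mul]
  constructor
  · rintro ⟨m1, h1, h2⟩
    rw [rel_word, run_loop] at h1
    obtain ⟨k', rfl, rfl⟩ := h1
    rw [rel_mul] at h2
    obtain ⟨m2, h2, h3⟩ := h2
    rw [rel_Pair] at h2; subst h2
    rw [rel_mul] at h3
    obtain ⟨m3, h3, h4⟩ := h3
    rw [rel_word, run_swap] at h3; subst h3
    rw [rel_mul] at h4
    obtain ⟨m4, h4, h5⟩ := h4
    rw [rel_Pair] at h4; subst h4
    rw [hM] at h5
    exact ⟨k', rfl, h5⟩
  · rintro ⟨k', rfl, rfl⟩
    refine ⟨_, (rel_word _ _ _).2 ((run_loop _ _ _ _ _ _).2 ⟨k', rfl, rfl⟩), ?_⟩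
    rw [rel_mul]
    refine ⟨_, (rel_Pair _ _ _ _).2 rfl, ?_⟩
    rw [rel_mul]
    refine ⟨_, (rel_word _ _ _).2 ((run_swap _ _ _ _).2 rfl), ?_⟩
    rw [rel_mul]
    exact ⟨_, (rel_Pair _ _ _ _).2 rfl, (hM _ _ _).2 rfl⟩

/-- The recursion itself. -/
def recf (f g : ℕ → ℕ) (z : ℕ) : ℕ → ℕ
  | 0 => f z
  | y + 1 => g (Nat.pair z (Nat.pair y (recf f g z y)))

theorem rel_Body_star {M : Language Ins} {f g : ℕ → ℕ} (hM : Computes M g) (z n s m : ℕ)
    (h : Relation.ReflTransGen (Rel (Body M)) (C (f z) (C z (C 0 (C n s)))) m) :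
    ∃ y k, y + k = n ∧ m = C (recf f g z y) (C z (C y (C k s))) := by
  induction h with
  | refl => exact ⟨0, n, by omega, rfl⟩
  | tail _ h2 ih =>
    obtain ⟨y, k, hyk, rfl⟩ := ih
    rw [rel_Body hM] at h2
    obtain ⟨k', rfl, rfl⟩ := h2
    exact ⟨y + 1, k', by omega, rfl⟩

theorem rel_Body_star' {M : Language Ins} {f g : ℕ → ℕ} (hM : Computes M g) (z n s y k : ℕ)
    (hyk : y + k = n) :
    Relation.ReflTransGen (Rel (Body M)) (C (f z) (C z (C 0 (C n s))))
      (C (recf f g z y) (C z (C y (C k s)))) := by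
  induction y generalizing k with
  | zero =>
    rw [Nat.zero_add] at hyk; subst hyk
    exact Relation.ReflTransGen.refl
  | succ y ih =>
    refine (ih (k + 1) (by omega)).tail ?_
    rw [rel_Body hM]
    exact ⟨k, rfl, rfl⟩

theorem computes_rec {L M : Language Ins} {f g : ℕ → ℕ} (hL : Computes L f) (hM : Computes M g) :
    Computes (Unpair * (word [.dup] * (L * (word [.init] * ((Body M)∗ * word [.exit])))))
      (Nat.unpaired (recf f g)) := by
  intro x s m
  obtain ⟨z, n, rfl⟩ : ∃ z n, x = Nat.pair z n := ⟨x.unpair.1, x.unpair.2, by simp⟩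
  simp only [Nat.unpaired, Nat.unpair_pair]
  rw [rel_mul]
  constructor
  · rintro ⟨m1, h1, h2⟩
    rw [rel_Unpair] at h1; subst h1
    rw [rel_mul] at h2
    obtain ⟨m2, h2, h3⟩ := h2
    rw [rel_word, run_dup] at h2; subst h2
    rw [rel_mul] at h3
    obtain ⟨m3, h3, h4⟩ := h3
    rw [hL] at h3; subst h3
    rw [rel_mul] at h4
    obtain ⟨m4, h4, h5⟩ := h4
    rw [rel_word, run_init] at h4; subst h4
    rw [rel_mul] at h5
    obtain ⟨m5, h5, h6⟩ := h5
    rw [rel_kstar] at h5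
    obtain ⟨y, k, hyk, rfl⟩ := rel_Body_star hM _ _ _ _ h5
    rw [rel_word, run_exit] at h6
    obtain ⟨rfl, rfl⟩ := h6
    rw [Nat.add_zero] at hyk; subst hyk
    rfl
  · rintro rfl
    refine ⟨_, (rel_Unpair _ _ _ _).2 rfl, ?_⟩
    rw [rel_mul]
    refine ⟨_, (rel_word _ _ _).2 ((run_dup _ _ _).2 rfl), ?_⟩
    rw [rel_mul]
    refine ⟨_, (hL _ _ _).2 rfl, ?_⟩
    rw [rel_mul]
    refine ⟨_, (rel_word _ _ _).2 ((run_init _ _ _ _).2 rfl), ?_⟩
    rw [rel_mul]
    refine ⟨_, (rel_kstar _ _ _).2 (rel_Body_star' hM z n s n 0 rfl), ?_⟩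
    exact (rel_word _ _ _).2 ((run_exit _ _ _ _ _ _).2 ⟨rfl, rfl⟩)

theorem computes_pair {L M : Language Ins} {f g : ℕ → ℕ} (hL : Computes L f) (hM : Computes M g) :
    Computes (word [.dup] * (L * (word [.swap] * (M * (word [.swap] * Pair)))))
      (fun n => Nat.pair (f n) (g n)) := by
  intro x s m
  rw [rel_mul]
  constructor
  · rintro ⟨m2, h2, h3⟩
    rw [rel_word, run_dup] at h2; subst h2
    rw [rel_mul] at h3
    obtain ⟨m3, h3, h4⟩ := h3
    rw [hL] at h3; subst h3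
    rw [rel_mul] at h4
    obtain ⟨m4, h4, h5⟩ := h4
    rw [rel_word, run_swap] at h4; subst h4
    rw [rel_mul] at h5
    obtain ⟨m5, h5, h6⟩ := h5
    rw [hM] at h5; subst h5
    rw [rel_mul] at h6
    obtain ⟨m6, h6, h7⟩ := h6
    rw [rel_word, run_swap] at h6; subst h6
    rwa [rel_Pair] at h7
  · rintro rfl
    refine ⟨_, (rel_word _ _ _).2 ((run_dup _ _ _).2 rfl), ?_⟩
    rw [rel_mul]
    refine ⟨_, (hL _ _ _).2 rfl, ?_⟩
    rw [rel_mul]
    refine ⟨_, (rel_word _ _ _).2 ((run_swap _ _ _ _).2 rfl), ?_⟩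
    rw [rel_mul]
    refine ⟨_, (hM _ _ _).2 rfl, ?_⟩
    rw [rel_mul]
    exact ⟨_, (rel_word _ _ _).2 ((run_swap _ _ _ _).2 rfl), (rel_Pair _ _ _ _).2 rfl⟩

theorem computes_left : Computes (Unpair * word [.nip]) (fun n => n.unpair.1) := by
  intro x s m
  obtain ⟨z, n, rfl⟩ : ∃ z n, x = Nat.pair z n := ⟨x.unpair.1, x.unpair.2, by simp⟩
  simp only [Nat.unpair_pair]
  rw [rel_mul]
  constructor
  · rintro ⟨m1, h1, h2⟩
    rw [rel_Unpair] at h1; subst h1
    rwa [rel_word, run_nip] at h2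
  · rintro rfl
    exact ⟨_, (rel_Unpair _ _ _ _).2 rfl, (rel_word _ _ _).2 ((run_nip _ _ _ _).2 rfl)⟩

theorem computes_right : Computes (Unpair * word [.pop]) (fun n => n.unpair.2) := by
  intro x s m
  obtain ⟨z, n, rfl⟩ : ∃ z n, x = Nat.pair z n := ⟨x.unpair.1, x.unpair.2, by simp⟩
  simp only [Nat.unpair_pair]
  rw [rel_mul]
  constructor
  · rintro ⟨m1, h1, h2⟩
    rw [rel_Unpair] at h1; subst h1
    rwa [rel_word, run_pop] at h2
  · rintro rfl
    exact ⟨_, (rel_Unpair _ _ _ _).2 rfl, (rel_word _ _ _).2 ((run_pop _ _ _).2 rfl)⟩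

theorem exists_program {f : ℕ → ℕ} (hf : Nat.Primrec f) :
    ∃ L : Language Ins, L.IsRegular ∧ Computes L f := by
  induction hf with
  | zero =>
    exact ⟨word [.zero], isRegular_word _, fun x s m => by rw [rel_word, run_zero]⟩
  | succ =>
    exact ⟨word [.succ], isRegular_word _, fun x s m => by rw [rel_word, run_succ]⟩
  | left =>
    exact ⟨_, isRegular_mul isRegular_Unpair (isRegular_word _), computes_left⟩
  | right =>
    exact ⟨_, isRegular_mul isRegular_Unpair (isRegular_word _), computes_right⟩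
  | pair _ _ ihf ihg =>
    obtain ⟨L, hL, hL'⟩ := ihf
    obtain ⟨M, hM, hM'⟩ := ihg
    exact ⟨_, isRegular_mul (isRegular_word _) (isRegular_mul hL (isRegular_mul (isRegular_word _)
      (isRegular_mul hM (isRegular_mul (isRegular_word _) isRegular_Pair)))),
      computes_pair hL' hM'⟩
  | comp _ _ ihf ihg =>
    obtain ⟨L, hL, hL'⟩ := ihf
    obtain ⟨M, hM, hM'⟩ := ihg
    exact ⟨_, isRegular_mul hM hL, hL'.comp hM'⟩
  | @prec f g _ _ ihf ihg =>
    obtain ⟨L, hL, hL'⟩ := ihf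
    obtain ⟨M, hM, hM'⟩ := ihg
    have h := computes_rec hL' hM'
    have e : Nat.unpaired (fun z n => Nat.rec (f z) (fun y IH => g (Nat.pair z (Nat.pair y IH))) n)
        = Nat.unpaired (recf f g) := by
      congr 1
      funext z n
      induction n with
      | zero => rfl
      | succ n ih => simp only [recf, ← ih]
    rw [e]
    exact ⟨_, isRegular_mul isRegular_Unpair (isRegular_mul (isRegular_word _)
      (isRegular_mul hL (isRegular_mul (isRegular_word _) (isRegular_mul (isRegular_kstar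
        (isRegular_mul (isRegular_word _) (isRegular_mul isRegular_Pair (isRegular_mul
          (isRegular_word _) (isRegular_mul isRegular_Pair hM))))) (isRegular_word _))))), h⟩

/-- A regular program accepting exactly the numbers `n` for which `g (Nat.pair n k) = 1` for
some `k`. -/
theorem exists_acceptor {g : ℕ → ℕ} (hg : Nat.Primrec g) :
    ∃ L : Language Ins, L.IsRegular ∧ (∀ l ∈ L, ∃ l', l = .start :: l') ∧ 
      ∀ n, Rel L n 0 ↔ ∃ k, g (Nat.pair n k) = 1 := by
  obtain ⟨L, hL, hL'⟩ := exists_program hg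
  refine ⟨word [.start] * (Pair * (L * word [.halt])), isRegular_mul (isRegular_word _)
    (isRegular_mul isRegular_Pair (isRegular_mul hL (isRegular_word _))), ?_, ?_⟩
  · rintro _ ⟨_, rfl, b, -, rfl⟩
    exact ⟨b, rfl⟩
  · intro n
    rw [rel_mul]
    constructor
    · rintro ⟨m1, h1, h2⟩
      rw [rel_word, run_start] at h1
      obtain ⟨k, rfl⟩ := h1
      rw [rel_mul] at h2
      obtain ⟨m2, h2, h3⟩ := h2
      rw [rel_Pair] at h2; subst h2
      rw [rel_mul] at h3
      obtain ⟨m3, h3, h4⟩ := h3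
      rw [hL'] at h3; subst h3
      rw [rel_word, run_halt] at h4
      exact ⟨k, (C_inj h4.1).1⟩
    · rintro ⟨k, hk⟩
      refine ⟨_, (rel_word _ _ _).2 ((run_start _ _).2 ⟨k, rfl⟩), ?_⟩
      rw [rel_mul]
      refine ⟨_, (rel_Pair _ _ _ _).2 rfl, ?_⟩
      rw [rel_mul]
      refine ⟨_, (hL' _ _ _).2 rfl, ?_⟩
      rw [rel_word, run_halt, hk]
      exact ⟨rfl, rfl⟩

end Pool.Agent.H81
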