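import Mathlib
import Pool.Agent.H81.Recog
import Pool.Agent.H81.Prog

set_option autoImplicit false

/-!
# The series attached to a regular program

Words consist of a bit word followed by instructions, each followed by unary parameters.
-/

namespace Pool.Agent.H81

/-- Letters. -/
inductive Let
  | ins : Ins → Let
  | un : Fin 5 → Let
  | bit : Bool → Let
  deriving DecidableEq, Fintype

/-- Number of letters `un j` before the first instruction. -/
def cnt : List Let → Fin 5 → ℕ
  | [], _ => 0
  | .ins _ :: _, _ => 0
  | .un i :: w, j => (if i = j then 1 else 0) + cnt w j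
  | .bit _ :: w, j => cnt w j

/-- Required state before the first instruction. -/
def hd : List Let → ℕ
  | [] => 0
  | .ins I :: w => lhs I (cnt w)
  | .un _ :: w => hd w
  | .bit _ :: w => hd w

/-- Sum of the squares of the two sides of all checks. -/
def PP : List Let → ℕ
  | [] => 0
  | .ins I :: w => (rhs I (cnt w)) ^ 2 + (hd w) ^ 2 + PP w
  | .un _ :: w => PP w
  | .bit _ :: w => PP w

/-- Sum of the doubled products of the two sides of all checks. -/
def QQ : List Let → ℕ
  | [] => 0
  | .ins I :: w => 2 * rhs I (cnt w) * hd w + QQ w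
  | .un _ :: w => QQ w
  | .bit _ :: w => QQ w

/-- Numerical value of the bits before the first instruction. -/
def NN : List Let → ℕ
  | [] => 0
  | .ins _ :: _ => 0
  | .un _ :: w => NN w
  | .bit b :: w => (if b then 2 else 1) + 2 * NN w

/-- The garbage series: value of the block following the letter `garb`. -/
def GG : List Let → ℕ
  | [] => 0
  | .ins .garb :: w => C (cnt w 0) (C (cnt w 1 + 1 + cnt w 2) (cnt w 1)) + 2
  | .ins _ :: _ => 0
  | .un _ :: w => GG w
  | .bit _ :: w => GG w

/-- The instruction of a letter. -/
def Let.toIns : Let → Option Ins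
  | .ins I => some I
  | _ => none

/-- The instruction word of a word. -/
def insq (w : List Let) : List Ins := w.filterMap Let.toIns

@[simp] theorem insq_nil : insq [] = [] := rfl
@[simp] theorem insq_ins (I : Ins) (w : List Let) : insq (.ins I :: w) = I :: insq w := rfl
@[simp] theorem insq_un (i : Fin 5) (w : List Let) : insq (.un i :: w) = insq w := rfl
@[simp] theorem insq_bit (b : Bool) (w : List Let) : insq (.bit b :: w) = insq w := rfl

theorem insq_append (u w : List Let) : insq (u ++ w) = insq u ++ insq w :=
  List.filterMap_append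

theorem recog_cnt (j : Fin 5) : Recog (fun w => cnt w j) := by
  refine Recog.of_rec
    (fun a _ => match a with
      | .ins _ => 0
      | .un i => if i = j then 1 else 0
      | .bit _ => 0)
    (fun a => match a with
      | .ins _ => 0
      | .un _ => 1
      | .bit _ => 1) ?_ ?_
  · intro a
    exact Recog.const _
  · rintro (I | i | b) w <;> simp [cnt]

theorem Recog.C {F G : List Let → ℕ} (hF : Recog F) (hG : Recog G) :
    Recog (fun w => H81.C (F w) (G w)) :=
  ((hF.add hG).mul (hF.add hG)).add hF

theorem recog_lhs (I : Ins) : Recog (fun w => lhs I (cnt w)) := by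
  cases I <;> simp only [lhs] <;>
    repeat' first
      | exact Recog.const _
      | exact recog_cnt _
      | apply Recog.C
      | apply Recog.add
      | apply Recog.mul

theorem recog_rhs (I : Ins) : Recog (fun w => rhs I (cnt w)) := by
  cases I <;> simp only [rhs] <;>
    repeat' first
      | exact Recog.const _
      | exact recog_cnt _
      | apply Recog.C
      | apply Recog.add
      | apply Recog.mul

theorem recog_hd : Recog hd := by
  refine Recog.of_rec
    (fun a w => match a with
      | .ins I => lhs I (cnt w)
      | .un _ => 0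
      | .bit _ => 0)
    (fun a => match a with
      | .ins _ => 0
      | .un _ => 1
      | .bit _ => 1) ?_ ?_
  · rintro (I | i | b)
    · exact recog_lhs I
    · exact Recog.const _
    · exact Recog.const _
  · rintro (I | i | b) w <;> simp [hd]

theorem recog_PP : Recog PP := by
  refine Recog.of_rec
    (fun a w => match a with
      | .ins I => (rhs I (cnt w)) ^ 2 + (hd w) ^ 2
      | .un _ => 0
      | .bit _ => 0)
    (fun _ => 1) ?_ ?_
  · rintro (I | i | b)
    · exact ((recog_rhs I).pow 2).add (recog_hd.pow 2)
    · exact Recog.const _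
    · exact Recog.const _
  · rintro (I | i | b) w <;> simp [PP]

theorem recog_QQ : Recog QQ := by
  refine Recog.of_rec
    (fun a w => match a with
      | .ins I => 2 * rhs I (cnt w) * hd w
      | .un _ => 0
      | .bit _ => 0)
    (fun _ => 1) ?_ ?_
  · rintro (I | i | b)
    · exact ((Recog.const 2).mul (recog_rhs I)).mul recog_hd
    · exact Recog.const _
    · exact Recog.const _
  · rintro (I | i | b) w <;> simp [QQ]

theorem recog_NN : Recog NN := by
  refine Recog.of_rec
    (fun a _ => match a with
      | .ins _ => 0
      | .un _ => 0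
      | .bit b => if b then 2 else 1)
    (fun a => match a with
      | .ins _ => 0
      | .un _ => 1
      | .bit _ => 2) ?_ ?_
  · intro a; exact Recog.const _
  · rintro (I | i | b) w <;> simp [NN]

theorem recog_GG : Recog GG := by
  refine Recog.of_rec
    (fun a w => match a with
      | .ins .garb => C (cnt w 0) (C (cnt w 1 + 1 + cnt w 2) (cnt w 1)) + 2
      | .ins _ => 0
      | .un _ => 0
      | .bit _ => 0)
    (fun a => match a with
      | .ins _ => 0
      | .un _ => 1
      | .bit _ => 1) ?_ ?_
  · rintro (I | i | b)
    · cases I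
      case garb =>
        exact ((recog_cnt 0).C ((((recog_cnt 1).add (Recog.const 1)).add (recog_cnt 2)).C
          (recog_cnt 1))).add (Recog.const 2)
      all_goals exact Recog.const _
    · exact Recog.const _
    · exact Recog.const _
  · rintro (I | i | b) w
    · cases I <;> simp [GG]
    · simp [GG]
    · simp [GG]

/-- Left side of the total check. -/
def Pt (w : List Let) : ℕ := NN w ^ 2 + hd w ^ 2 + PP w

/-- Right side of the total check. -/
def Qt (w : List Let) : ℕ := 2 * NN w * hd w + QQ w

open Classical in
/-- The size series of the program `L`. -/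
noncomputable def FF (L : Language Ins) (w : List Let) : ℕ :=
  (if insq w ∈ L then 1 else 0) * (C (NN w) (C (Pt w) (Qt w)) + 2) +
    (if insq w ∈ word [.garb] then 1 else 0) * GG w

theorem recog_FF {L : Language Ins} (hL : L.IsRegular) : Recog (FF L) := by
  classical
  have hP : Recog Pt := ((recog_NN.pow 2).add (recog_hd.pow 2)).add recog_PP
  have hQ : Recog Qt := (((Recog.const 2).mul recog_NN).mul recog_hd).add recog_QQ
  exact ((Recog.char_filterMap hL Let.toIns).mul ((recog_NN.C (hP.C hQ)).add (Recog.const 2))).add
    ((Recog.char_filterMap (isRegular_word [.garb]) Let.toIns).mul recog_GG)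

/-- All checks inside the word hold. -/
def OK : List Let → Prop
  | [] => True
  | .ins I :: w => rhs I (cnt w) = hd w ∧ OK w
  | .un _ :: w => OK w
  | .bit _ :: w => OK w

theorem two_mul_le_sq (a b : ℕ) : 2 * a * b ≤ a ^ 2 + b ^ 2 := by
  rcases le_total a b with h | h
  · obtain ⟨c, rfl⟩ := Nat.exists_eq_add_of_le h; nlinarith
  · obtain ⟨c, rfl⟩ := Nat.exists_eq_add_of_le h; nlinarith

theorem eq_of_two_mul_eq_sq {a b : ℕ} (h : 2 * a * b = a ^ 2 + b ^ 2) : a = b := by
  rcases le_total a b with h' | h'
  · obtain ⟨c, rfl⟩ := Nat.exists_eq_add_of_le h'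
    have : c ^ 2 = 0 := by nlinarith
    have : c = 0 := by simpa using this
    omega
  · obtain ⟨c, rfl⟩ := Nat.exists_eq_add_of_le h'
    have : c ^ 2 = 0 := by nlinarith
    have : c = 0 := by simpa using this
    omega

theorem QQ_le_PP (w : List Let) : QQ w ≤ PP w := by
  induction w with
  | nil => simp [QQ, PP]
  | cons a w ih =>
    rcases a with I | i | b
    · simp only [QQ, PP]
      exact Nat.add_le_add (two_mul_le_sq _ _) ih
    · exact ih
    · exact ih

theorem OK_of_eq (w : List Let) (h : PP w = QQ w) : OK w := by
  induction w with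
  | nil => trivial
  | cons a w ih =>
    rcases a with I | i | b
    · simp only [QQ, PP] at h
      have h1 := two_mul_le_sq (rhs I (cnt w)) (hd w)
      have h2 := QQ_le_PP w
      exact ⟨eq_of_two_mul_eq_sq (by omega), ih (by omega)⟩
    · exact ih h
    · exact ih h

theorem eq_of_OK (w : List Let) (h : OK w) : PP w = QQ w := by
  induction w with
  | nil => rfl
  | cons a w ih =>
    rcases a with I | i | b
    · obtain ⟨h1, h2⟩ := h
      simp only [QQ, PP, h1, ih h2]
      ring
    · exact ih h
    · exact ih h

theorem Qt_le_Pt (w : List Let) : Qt w ≤ Pt w :=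
  Nat.add_le_add (two_mul_le_sq _ _) (QQ_le_PP w)

theorem run_of_OK (w : List Let) (h : OK w) : Run (insq w) (hd w) 0 := by
  induction w with
  | nil => rfl
  | cons a w ih =>
    rcases a with I | i | b
    · obtain ⟨h1, h2⟩ := h
      exact ⟨cnt w, rfl, h1 ▸ ih h2⟩
    · exact ih h
    · exact ih h

/-- If the total check holds then the program accepts the value of the bit word. -/
theorem rel_of_eq {L : Language Ins} {w : List Let} (hw : insq w ∈ L) (h : Pt w = Qt w) :
    Rel L (NN w) 0 := by
  have h1 := two_mul_le_sq (NN w) (hd w)
  have h2 := QQ_le_PP w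
  unfold Pt Qt at h
  have h3 : NN w = hd w := eq_of_two_mul_eq_sq (by omega)
  have h4 : OK w := OK_of_eq w (by omega)
  exact ⟨_, hw, h3 ▸ run_of_OK w h4⟩

/-- The unary block with counts `v`. -/
def blk (v : Fin 5 → ℕ) : List Let :=
  List.replicate (v 0) (.un 0) ++ (List.replicate (v 1) (.un 1) ++ (List.replicate (v 2) (.un 2) ++
    (List.replicate (v 3) (.un 3) ++ List.replicate (v 4) (.un 4))))

theorem cnt_replicate (n : ℕ) (i : Fin 5) (w : List Let) (j : Fin 5) :
    cnt (List.replicate n (.un i) ++ w) j = (if i = j then n else 0) + cnt w j := by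
  induction n with
  | zero => simp
  | succ n ih =>
    rw [List.replicate_succ, List.cons_append, cnt, ih]
    split_ifs <;> omega

theorem cnt_blk (v : Fin 5 → ℕ) (w : List Let) (hw : ∀ j, cnt w j = 0) :
    cnt (blk v ++ w) = v := by
  funext j
  simp only [blk, List.append_assoc, cnt_replicate, hw]
  fin_cases j <;> simp

theorem hd_replicate (n : ℕ) (i : Fin 5) (w : List Let) :
    hd (List.replicate n (.un i) ++ w) = hd w := by
  induction n with
  | zero => simp
  | succ n ih => rw [List.replicate_succ, List.cons_append, hd, ih]

theorem hd_blk (v : Fin 5 → ℕ) (w : List Let) : hd (blk v ++ w) = hd w := by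
  simp only [blk, List.append_assoc, hd_replicate]

theorem OK_replicate (n : ℕ) (i : Fin 5) (w : List Let) :
    OK (List.replicate n (.un i) ++ w) ↔ OK w := by
  induction n with
  | zero => simp
  | succ n ih => rw [List.replicate_succ, List.cons_append, OK, ih]

theorem OK_blk (v : Fin 5 → ℕ) (w : List Let) : OK (blk v ++ w) ↔ OK w := by
  simp only [blk, List.append_assoc, OK_replicate]

theorem insq_replicate (n : ℕ) (i : Fin 5) (w : List Let) :
    insq (List.replicate n (.un i) ++ w) = insq w := by
  induction n with
  | zero => simp
  | succ n ih => rw [List.replicate_succ, List.cons_append, insq_un, ih]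

theorem insq_blk (v : Fin 5 → ℕ) (w : List Let) : insq (blk v ++ w) = insq w := by
  simp only [blk, List.append_assoc, insq_replicate]

theorem exists_of_run (l : List Ins) (n : ℕ) (h : Run l n 0) :
    ∃ w, insq w = l ∧ hd w = n ∧ OK w ∧ (∀ j, cnt w j = 0) ∧ NN w = 0 := by
  induction l generalizing n with
  | nil =>
    refine ⟨[], rfl, ?_, trivial, fun _ => rfl, rfl⟩
    exact Eq.symm h
  | cons I l ih =>
    obtain ⟨v, rfl, h⟩ := h
    obtain ⟨w, h1, h2, h3, h4, -⟩ := ih _ h
    refine ⟨.ins I :: (blk v ++ w), ?_, ?_, ?_, fun _ => rfl, rfl⟩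
    · rw [insq_ins, insq_blk, h1]
    · rw [hd, cnt_blk v w h4]
    · exact ⟨by rw [cnt_blk v w h4, hd_blk, h2], (OK_blk v w).2 h3⟩

/-- Numerical value of a bit word. -/
def bval : List Bool → ℕ
  | [] => 0
  | b :: K => (if b then 2 else 1) + 2 * bval K

theorem bval_inj : Function.Injective bval := by
  intro K
  induction K with
  | nil =>
    intro K' h
    cases K' with
    | nil => rfl
    | cons b K' => exfalso; cases b <;> simp [bval] at h <;> omega
  | cons b K ih =>
    intro K' h
    cases K' with
    | nil => exfalso; cases b <;> simp [bval] at h <;> omega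
    | cons b' K' =>
      have : b = b' ∧ bval K = bval K' := by
        cases b <;> cases b' <;> simp [bval] at h ⊢ <;> omega
      rw [this.1, ih this.2]

/-- The bits before the first instruction. -/
def bits : List Let → List Bool
  | [] => []
  | .ins _ :: _ => []
  | .un _ :: w => bits w
  | .bit b :: w => b :: bits w

theorem NN_eq (w : List Let) : NN w = bval (bits w) := by
  induction w with
  | nil => rfl
  | cons a w ih =>
    rcases a with I | i | b
    · rfl
    · exact ih
    · simp [NN, bits, bval, ih]

theorem NN_bits (K : List Bool) (w : List Let) (hw : NN w = 0) :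
    NN (K.map Let.bit ++ w) = bval K := by
  induction K with
  | nil => exact hw
  | cons b K ih => simp [NN, bval, ih]

theorem hd_bits (K : List Bool) (w : List Let) : hd (K.map Let.bit ++ w) = hd w := by
  induction K with
  | nil => rfl
  | cons b K ih => simp [hd, ih]

theorem OK_bits (K : List Bool) (w : List Let) : OK (K.map Let.bit ++ w) ↔ OK w := by
  induction K with
  | nil => rfl
  | cons b K ih => simp [OK, ih]

theorem insq_bits (K : List Bool) (w : List Let) : insq (K.map Let.bit ++ w) = insq w := by
  induction K with
  | nil => rfl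
  | cons b K ih => simp [ih]

/-- If the program accepts the value of a bit word, some word with these bits passes. -/
theorem exists_of_rel {L : Language Ins} {K : List Bool} (h : Rel L (bval K) 0) :
    ∃ w, insq w ∈ L ∧ bits w = K ∧ Pt w = Qt w := by
  obtain ⟨l, hl, h⟩ := h
  obtain ⟨w, h1, h2, h3, -, h5⟩ := exists_of_run l _ h
  have h6 : NN (K.map Let.bit ++ w) = bval K := NN_bits K w h5
  refine ⟨K.map Let.bit ++ w, ?_, ?_, ?_⟩
  · rw [insq_bits, h1]; exact hl
  · apply bval_inj
    rw [← NN_eq, h6]
  · unfold Pt Qt
    rw [h6, hd_bits, h2, eq_of_OK _ ((OK_bits K w).2 h3)]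
    ring

end Pool.Agent.H81
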