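import Mathlib
import Pool.Agent.H81.Series
import Pool.Agent.H81.Auto

set_option autoImplicit false

/-!
# The test automata
-/

namespace Pool.Agent.H81

/-- Kind of a letter. -/
def kind : Let → ℕ
  | .un _ => 0
  | .bit false => 1
  | .bit true => 2
  | .ins .garb => 3
  | .ins _ => 4

theorem kind_lt (a : Let) : kind a < 5 := by
  rcases a with I | i | b
  · cases I <;> simp [kind]
  · simp [kind]
  · cases b <;> simp [kind]

/-- The test of a word, started at position `i`. -/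
def TT (x : ℕ) (A : List ℕ) : ℕ → List Let → Prop
  | _, [] => False
  | i, a :: w =>
    (kind a = 0 ∧ TT x A i w) ∨ (kind a = 1 ∧ i < x ∧ TT x A (i + 1) w) ∨
    (kind a = 2 ∧ (i < x → TT x A (i + 1) w)) ∨ kind a = 3 ∨ (kind a = 4 ∧ i ∈ A)

/-- Sources and positions. -/
def SP (x : ℕ) : List (ℕ × ℕ) := (2, 0) :: (List.range (x + 1)).map (fun i => (i + 3, i))

theorem mem_SP (x q i : ℕ) : (q, i) ∈ SP x ↔ (q = 2 ∧ i = 0) ∨ (i ≤ x ∧ q = i + 3) := by
  simp only [SP, List.mem_cons, Prod.mk.injEq, List.mem_map, List.mem_range, Nat.lt_succ_iff]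
  constructor
  · rintro (h | ⟨j, hj, rfl, rfl⟩)
    · exact Or.inl h
    · exact Or.inr ⟨hj, rfl⟩
  · rintro (h | ⟨hj, rfl⟩)
    · exact Or.inl h
    · exact Or.inr ⟨i, hj, rfl, rfl⟩

/-- Source and target pairs for letters of kind `k`. -/
def sl (x : ℕ) (A : List ℕ) (k : ℕ) : List (ℕ × ℕ) :=
  (0, 0) :: (SP x).flatMap (fun p =>
    if k = 0 then [(p.1, p.2 + 3)]
    else if k = 1 then (if p.2 < x then [(p.1, p.2 + 4)] else [])
    else if k = 2 then (if p.2 < x then [(p.1, p.2 + 4)] else [(p.1, 0)])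
    else if k = 3 then [(p.1, 0)]
    else (if p.2 ∈ A then [(p.1, 0)] else []))

theorem sl_zero (x : ℕ) (A : List ℕ) (k q' : ℕ) : (0, q') ∈ sl x A k ↔ q' = 0 := by
  simp only [sl, List.mem_cons, Prod.mk.injEq, true_and, List.mem_flatMap, Prod.exists, mem_SP]
  constructor
  · rintro (h | ⟨q, i, h, h'⟩)
    · exact h
    · exfalso
      have : q ≠ 0 := by omega
      split_ifs at h' <;> simp at h' <;> omega
  · exact Or.inl

theorem sl_one (x : ℕ) (A : List ℕ) (k q' : ℕ) : (1, q') ∉ sl x A k := by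
  simp only [sl, List.mem_cons, Prod.mk.injEq, List.mem_flatMap, Prod.exists, mem_SP]
  rintro (h | ⟨q, i, h, h'⟩)
  · omega
  · have : q ≠ 1 := by omega
    split_ifs at h' <;> simp at h' <;> omega

theorem sl_pos (x : ℕ) (A : List ℕ) (k q q' i : ℕ) (hq : q = i + 3 ∨ (i = 0 ∧ q = 2))
    (hi : i ≤ x) : (q, q') ∈ sl x A k ↔
      if k = 0 then q' = i + 3
      else if k = 1 then i < x ∧ q' = i + 4
      else if k = 2 then (i < x ∧ q' = i + 4) ∨ (¬ i < x ∧ q' = 0)
      else if k = 3 then q' = 0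
      else i ∈ A ∧ q' = 0 := by
  simp only [sl, List.mem_cons, Prod.mk.injEq, List.mem_flatMap, Prod.exists, mem_SP]
  have key : ∀ (G : ℕ → ℕ → List (ℕ × ℕ)), (∀ a b r r', (r, r') ∈ G a b → r = a) →
      ((q = 0 ∧ q' = 0 ∨ ∃ a b, (a = 2 ∧ b = 0 ∨ b ≤ x ∧ a = b + 3) ∧ (q, q') ∈ G a b) ↔
        (q, q') ∈ G q i) := by
    intro G hG
    constructor
    · rintro (h | ⟨a, b, h, h'⟩)
      · omega
      · obtain rfl := hG _ _ _ _ h'
        obtain rfl : b = i := by omega
        exact h'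
    · intro h
      exact Or.inr ⟨q, i, by omega, h⟩
  rw [key]
  · split_ifs <;> simp_all
  · intro a b r r' h
    split_ifs at h <;> simp_all

section

variable (Λ : List ℕ) (ga : Let → ℕ)

open Classical in
/-- Pairs of letters of kind `k` with the same base. -/
noncomputable def LK (k : ℕ) : List (Option ℕ × Option ℕ) :=
  Λ.flatMap (fun l => Λ.flatMap (fun l' =>
    if base l = base l' ∧ ∃ a, kind a = k ∧ base l = ga a then [(some l, some l')] else []))

theorem mem_LK (k : ℕ) (p : Option ℕ × Option ℕ) : p ∈ LK Λ ga k ↔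
    ∃ l ∈ Λ, ∃ l' ∈ Λ, p = (some l, some l') ∧ base l = base l' ∧
      ∃ a, kind a = k ∧ base l = ga a := by
  classical
  simp only [LK, List.mem_flatMap]
  constructor
  · rintro ⟨l, hl, l', hl', h⟩
    split_ifs at h with hc
    · exact ⟨l, hl, l', hl', by simpa using h, hc⟩
    · simp at h
  · rintro ⟨l, hl, l', hl', h, hc⟩
    exact ⟨l, hl, l', hl', by rw [if_pos hc]; simpa using h⟩

/-- Transitions of the equality part. -/
def EQT : List (ℕ × (Option ℕ × Option ℕ) × ℕ) :=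
  Λ.flatMap (fun l => [(1, (some l, some l), 1), (2, (some l, some l), 1)])

/-- The transitions of the relation automaton. -/
def trx (LKs : ℕ → List (Option ℕ × Option ℕ)) (E : List (ℕ × (Option ℕ × Option ℕ) × ℕ))
    (x : ℕ) (A : List ℕ) : List (ℕ × (Option ℕ × Option ℕ) × ℕ) :=
  E ++ (List.range 5).flatMap (fun k =>
    (sl x A k).flatMap (fun q => (LKs k).map (fun p => (q.1, p, q.2))))

theorem mem_trx (x : ℕ) (A : List ℕ) (q q' l l' : ℕ) (hl : l ∈ Λ) (hl' : l' ∈ Λ) (a : Let)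
    (hga : Function.Injective ga) (ha : base l = ga a) :
    (q, (some l, some l'), q') ∈ trx (LK Λ ga) (EQT Λ) x A ↔
      (l = l' ∧ (q = 1 ∨ q = 2) ∧ q' = 1) ∨ (base l' = ga a ∧ (q, q') ∈ sl x A (kind a)) := by
  simp only [trx, EQT, List.mem_append, List.mem_flatMap, List.mem_cons, List.not_mem_nil,
    or_false, List.mem_range, List.mem_map, Prod.mk.injEq, Option.some.injEq, mem_LK]
  constructor
  · rintro (⟨m, hm, h⟩ | ⟨k, hk, ⟨q1, q2⟩, hq, ⟨p1, p2⟩, ⟨m, hm, m', hm', hp, hb, b, hb1, hb2⟩, h⟩)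
    · left
      rcases h with ⟨rfl, ⟨rfl, rfl⟩, rfl⟩ | ⟨rfl, ⟨rfl, rfl⟩, rfl⟩
      · exact ⟨rfl, Or.inl rfl, rfl⟩
      · exact ⟨rfl, Or.inr rfl, rfl⟩
    · right
      simp only [Prod.mk.injEq] at hp
      obtain ⟨rfl, rfl⟩ := hp
      obtain ⟨rfl, h, rfl⟩ := h
      simp only [Prod.mk.injEq, Option.some.injEq] at h
      obtain ⟨rfl, rfl⟩ := h
      obtain rfl : b = a := hga (hb2.symm.trans ha)
      exact ⟨hb.symm.trans ha, hb1 ▸ hq⟩
  · rintro (⟨rfl, h, rfl⟩ | ⟨h1, h2⟩)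
    · left
      refine ⟨l, hl, ?_⟩
      rcases h with rfl | rfl
      · exact Or.inl ⟨rfl, ⟨rfl, rfl⟩, rfl⟩
      · exact Or.inr ⟨rfl, ⟨rfl, rfl⟩, rfl⟩
    · right
      exact ⟨kind a, kind_lt a, (q, q'), h2, (some l, some l'),
        ⟨l, hl, l', hl', rfl, ha.trans h1.symm, a, rfl, ha⟩, rfl, rfl, rfl⟩

theorem notMem_trx_none (x : ℕ) (A : List ℕ) (q q' : ℕ) (o : Option ℕ) :
    (q, (o, none), q') ∉ trx (LK Λ ga) (EQT Λ) x A ∧
      (q, (none, o), q') ∉ trx (LK Λ ga) (EQT Λ) x A := by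
  simp only [trx, EQT, List.mem_append, List.mem_flatMap, List.mem_cons, List.not_mem_nil,
    or_false, List.mem_range, List.mem_map, Prod.mk.injEq, mem_LK]
  constructor
  · rintro (⟨m, hm, h⟩ | ⟨k, hk, ⟨q1, q2⟩, hq, ⟨p1, p2⟩, ⟨m, hm, m', hm', hp, hb⟩, h⟩)
    · simp at h
    · simp only [Prod.mk.injEq] at hp
      rw [hp.2] at h
      simp at h
  · rintro (⟨m, hm, h⟩ | ⟨k, hk, ⟨q1, q2⟩, hq, ⟨p1, p2⟩, ⟨m, hm, m', hm', hp, hb⟩, h⟩)
    · simp at h
    · simp only [Prod.mk.injEq] at hp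
      rw [hp.1] at h
      simp at h

variable {Λ ga}

/-- Acceptance from a state for words with letters in `Λ`. -/
theorem acc_trx (hga : Function.Injective ga) (x : ℕ) (A : List ℕ) (w : List Let) :
    ∀ (u v : List ℕ), (∀ l ∈ u, l ∈ Λ) → (∀ l ∈ v, l ∈ Λ) → u.map base = w.map ga →
      (Acc {t | t ∈ trx (LK Λ ga) (EQT Λ) x A} {q | q ∈ [0, 1]} 0 (conv u v) ↔
        v.map base = w.map ga) ∧
      (Acc {t | t ∈ trx (LK Λ ga) (EQT Λ) x A} {q | q ∈ [0, 1]} 1 (conv u v) ↔ u = v) ∧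
      (∀ q i, (q = i + 3 ∨ (i = 0 ∧ q = 2)) → i ≤ x →
        (Acc {t | t ∈ trx (LK Λ ga) (EQT Λ) x A} {q | q ∈ [0, 1]} q (conv u v) ↔
          (q = 2 ∧ u ≠ [] ∧ u = v) ∨ (v.map base = w.map ga ∧ TT x A i w))) := by
  induction w with
  | nil =>
    intro u v hu hv huw
    obtain rfl : u = [] := by simpa using huw
    cases v with
    | nil =>
      simp only [conv_nil_nil, Acc, TT]
      refine ⟨by simp, by simp, ?_⟩
      rintro q i (rfl | ⟨rfl, rfl⟩) - <;> simp
    | cons b v =>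
      simp only [conv_nil_cons, Acc, TT]
      have h := fun q q' => (notMem_trx_none Λ ga x A q q' (some b)).2
      refine ⟨⟨?_, by simp⟩, ⟨?_, by simp⟩, ?_⟩
      · rintro ⟨q', hq', -⟩; exact absurd hq' (h _ _)
      · rintro ⟨q', hq', -⟩; exact absurd hq' (h _ _)
      · intro q i _ _
        constructor
        · rintro ⟨q', hq', -⟩; exact absurd hq' (h _ _)
        · simp
  | cons a w ih =>
    intro u v hu hv huw
    cases u with
    | nil => simp at huw
    | cons l u =>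
      simp only [List.map_cons, List.cons.injEq] at huw
      obtain ⟨hl, huw⟩ := huw
      cases v with
      | nil =>
        simp only [conv_cons_nil, Acc]
        have h := fun q q' => (notMem_trx_none Λ ga x A q q' (some l)).1
        refine ⟨⟨?_, by simp⟩, ⟨?_, by simp⟩, ?_⟩
        · rintro ⟨q', hq', -⟩; exact absurd hq' (h _ _)
        · rintro ⟨q', hq', -⟩; exact absurd hq' (h _ _)
        · intro q i _ _
          constructor
          · rintro ⟨q', hq', -⟩; exact absurd hq' (h _ _)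
          · simp
      | cons l' v =>
        have hlΛ : l ∈ Λ := hu l (by simp)
        have hlΛ' : l' ∈ Λ := hv l' (by simp)
        obtain ⟨ih1, ih2, ih3⟩ := ih u v (fun m hm => hu m (by simp [hm]))
          (fun m hm => hv m (by simp [hm])) huw
        have hm := fun q q' => mem_trx Λ ga x A q q' l l' hlΛ hlΛ' a hga hl
        simp only [conv_cons_cons, Acc, Set.mem_ofPred_eq, hm, List.map_cons, List.cons.injEq]
        refine ⟨?_, ?_, ?_⟩
        · constructor
          · rintro ⟨q', (⟨-, h, -⟩ | ⟨h1, h2⟩), h3⟩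
            · omega
            · rw [sl_zero] at h2; subst h2
              exact ⟨h1, ih1.1 h3⟩
          · rintro ⟨h1, h2⟩
            exact ⟨0, Or.inr ⟨h1, (sl_zero _ _ _ _).2 rfl⟩, ih1.2 h2⟩
        · constructor
          · rintro ⟨q', (⟨rfl, -, rfl⟩ | ⟨h1, h2⟩), h3⟩
            · exact ⟨rfl, ih2.1 h3⟩
            · exact absurd h2 (sl_one _ _ _ _)
          · rintro ⟨rfl, rfl⟩
            exact ⟨1, Or.inl ⟨rfl, by simp, rfl⟩, ih2.2 rfl⟩
        · intro q i hq hi
          have hs := fun q' => sl_pos x A (kind a) q q' i hq hi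
          have hne : ∀ j, ¬ (j + 3 = 2) := by intro j; omega
          have hpos : ∀ j, j ≤ x →
              (Acc {t | t ∈ trx (LK Λ ga) (EQT Λ) x A} {q | q ∈ [0, 1]} (j + 3) (conv u v) ↔
                (v.map base = w.map ga ∧ TT x A j w)) := by
            intro j hj
            rw [ih3 (j + 3) j (Or.inl rfl) hj]
            simp [hne j]
          constructor
          · rintro ⟨q', (⟨rfl, h, rfl⟩ | ⟨h1, h2⟩), h3⟩
            · left
              refine ⟨by omega, by simp, rfl, ih2.1 h3⟩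
            · right
              rw [hs] at h2
              have hk := kind_lt a
              simp only [TT]
              split_ifs at h2 with k0 k1 k2 k3
              · subst h2
                have := (hpos i hi).1 h3
                exact ⟨⟨h1, this.1⟩, Or.inl ⟨k0, this.2⟩⟩
              · obtain ⟨h4, rfl⟩ := h2
                have := (hpos (i + 1) h4).1 h3
                exact ⟨⟨h1, this.1⟩, Or.inr (Or.inl ⟨k1, h4, this.2⟩)⟩
              · rcases h2 with ⟨h4, rfl⟩ | ⟨h4, rfl⟩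
                · have := (hpos (i + 1) h4).1 h3
                  exact ⟨⟨h1, this.1⟩, Or.inr (Or.inr (Or.inl ⟨k2, fun _ => this.2⟩))⟩
                · exact ⟨⟨h1, ih1.1 h3⟩, Or.inr (Or.inr (Or.inl ⟨k2, fun h5 => absurd h5 h4⟩))⟩
              · subst h2
                exact ⟨⟨h1, ih1.1 h3⟩, Or.inr (Or.inr (Or.inr (Or.inl k3)))⟩
              · obtain ⟨h4, rfl⟩ := h2
                exact ⟨⟨h1, ih1.1 h3⟩, Or.inr (Or.inr (Or.inr (Or.inr ⟨by omega, h4⟩)))⟩
          · rintro (⟨rfl, -, rfl, rfl⟩ | ⟨⟨h1, h2⟩, h3⟩)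
            · exact ⟨1, Or.inl ⟨rfl, Or.inr rfl, rfl⟩, ih2.2 rfl⟩
            · simp only [TT] at h3
              rcases h3 with ⟨hk, h3⟩ | ⟨hk, h4, h3⟩ | ⟨hk, h3⟩ | hk | ⟨hk, h3⟩
              · refine ⟨i + 3, Or.inr ⟨h1, ?_⟩, (hpos i hi).2 ⟨h2, h3⟩⟩
                rw [hs]; simp [hk]
              · refine ⟨i + 4, Or.inr ⟨h1, ?_⟩, (hpos (i + 1) h4).2 ⟨h2, h3⟩⟩
                rw [hs]; simp [hk, h4]
              · by_cases h4 : i < x
                · refine ⟨i + 4, Or.inr ⟨h1, ?_⟩, (hpos (i + 1) h4).2 ⟨h2, h3 h4⟩⟩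
                  rw [hs]; simp [hk, h4]
                · refine ⟨0, Or.inr ⟨h1, ?_⟩, ih1.2 h2⟩
                  rw [hs]; simp [hk, h4]
              · refine ⟨0, Or.inr ⟨h1, ?_⟩, ih1.2 h2⟩
                rw [hs]; simp [hk]
              · refine ⟨0, Or.inr ⟨h1, ?_⟩, ih1.2 h2⟩
                rw [hs]; simp [hk, h3]

end

end Pool.Agent.H81
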