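import Mathlib
import Pool.Agent.H81.PiDefs
import Pool.Agent.H81.Test
import Pool.Agent.H81.Inv

set_option autoImplicit false

/-!
# The reduction: sizes of classes
-/

namespace Pool.Agent.H81

open Encodable

theorem FF_un (L : Language Ins) (i : Fin 5) (w : List Let) : FF L (.un i :: w) = FF L w := rfl

theorem kind_un (i : Fin 5) : kind (.un i) = 0 := rfl

theorem TT_un (x : ℕ) (A : List ℕ) (j : ℕ) (i : Fin 5) (w : List Let) :
    TT x A j (.un i :: w) ↔ TT x A j w := by
  simp [TT, kind_un]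

/-- Padding. -/
def pad (j : ℕ) (w : List Let) : List Let := List.replicate j (.un 0) ++ w

theorem FF_pad (L : Language Ins) (j : ℕ) (w : List Let) : FF L (pad j w) = FF L w := by
  induction j with
  | zero => rfl
  | succ j ih => exact ih

theorem TT_pad (x : ℕ) (A : List ℕ) (i j : ℕ) (w : List Let) :
    TT x A i (pad j w) ↔ TT x A i w := by
  induction j with
  | zero => rfl
  | succ j ih =>
    have : pad (j + 1) w = .un 0 :: pad j w := rfl
    rw [this, TT_un, ih]

theorem length_pad (j : ℕ) (w : List Let) : (pad j w).length = j + w.length := by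
  simp [pad]

/-- The test on words whose first instruction is not `garb`. -/
theorem TT_iff (x : ℕ) (A : List ℕ) (w : List Let) (i : ℕ) (hi : i ≤ x)
    (hw : ∃ I l, insq w = I :: l ∧ I ≠ .garb) :
    TT x A i w ↔ if (bits w).length + i ≤ x then (bits w).length + i ∈ A
      else (bits w)[x - i]? = some true := by
  induction w generalizing i with
  | nil => obtain ⟨I, l, h, -⟩ := hw; simp at h
  | cons a w ih =>
    rcases a with I | j | b
    · obtain ⟨J, l, h, hJ⟩ := hw
      simp only [insq_ins, List.cons.injEq] at h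
      obtain ⟨rfl, -⟩ := h
      have hk : kind (.ins I) = 4 := by cases I <;> first | rfl | exact absurd rfl hJ
      simp [TT, hk, bits, hi]
    · rw [TT_un]
      exact ih i hi hw
    · have hw' : ∃ I l, insq w = I :: l ∧ I ≠ .garb := hw
      have hb : bits (.bit b :: w) = b :: bits w := rfl
      rw [hb, List.length_cons]
      rcases Nat.lt_or_ge i x with h | h
      · have h1 := ih (i + 1) h hw'
        have h2 : TT x A i (.bit b :: w) ↔ TT x A (i + 1) w := by
          cases b
          · simp [TT, kind, h]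
          · simp [TT, kind, h]
        rw [h2, h1]
        have h3 : (bits w).length + 1 + i = (bits w).length + (i + 1) := by ring
        rw [h3]
        have h4 : x - i = (x - (i + 1)) + 1 := by omega
        rw [h4, List.getElem?_cons_succ]
      · obtain rfl : i = x := by omega
        rw [if_neg (by omega)]
        cases b
        · simp [TT, kind]
        · simp [TT, kind]

/-- The sizes of classes. -/
def sizes (L : Language Ins) (x : ℕ) (A : List ℕ) : Set ℕ∞ :=
  {k | ∃ w, w ≠ [] ∧ 1 ≤ FF L w ∧ ((TT x A 0 w ∧ k = FF L w) ∨ (¬ TT x A 0 w ∧ k = 1))}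

theorem FF_of_mem {L : Language Ins} {w : List Let} (hw : insq w ∈ L) (hg : insq w ≠ [.garb]) :
    FF L w = C (NN w) (C (Pt w) (Qt w)) + 2 := by
  unfold FF
  rw [if_pos hw, if_neg (show ¬ insq w ∈ word [.garb] from hg)]
  ring

theorem FF_garb {L : Language Ins} {w : List Let} (hw : insq w ∉ L) (hg : insq w = [.garb]) :
    FF L w = GG w := by
  unfold FF
  rw [if_neg hw, if_pos (show insq w ∈ word [.garb] from hg)]
  ring

theorem FF_none {L : Language Ins} {w : List Let} (hw : insq w ∉ L) (hg : insq w ≠ [.garb]) :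
    FF L w = 0 := by
  unfold FF
  rw [if_neg hw, if_neg (show ¬ insq w ∈ word [.garb] from hg)]
  ring

theorem GG_spec (w : List Let) (hw : insq w = [.garb]) :
    ∃ n p q, q < p ∧ GG w = C n (C p q) + 2 := by
  induction w with
  | nil => simp at hw
  | cons a w ih =>
    rcases a with I | j | b
    · simp only [insq_ins, List.cons.injEq] at hw
      obtain ⟨rfl, -⟩ := hw
      exact ⟨cnt w 0, cnt w 1 + 1 + cnt w 2, cnt w 1, by omega, rfl⟩
    · exact ih hw
    · exact ih hw

theorem garbage_mem {L : Language Ins} (hL : ∀ l ∈ L, ∃ l', l = .start :: l') (x : ℕ)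
    (A : List ℕ) (n p q : ℕ) (h : q < p) : ((C n (C p q) + 2 : ℕ) : ℕ∞) ∈ sizes L x A := by
  obtain ⟨e, rfl⟩ := Nat.exists_eq_add_of_lt h
  let v : Fin 5 → ℕ := ![n, q, e, 0, 0]
  have hi : insq (.ins .garb :: (blk v ++ [])) = [.garb] := by
    rw [insq_ins, insq_blk]; rfl
  have hc : cnt (blk v ++ []) = v := cnt_blk v [] (fun _ => rfl)
  have hG : GG (.ins .garb :: (blk v ++ [])) = C n (C (q + e + 1) q) + 2 := by
    show C (cnt (blk v ++ []) 0) (C (cnt (blk v ++ []) 1 + 1 + cnt (blk v ++ []) 2)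
      (cnt (blk v ++ []) 1)) + 2 = _
    rw [hc]
    show C n (C (q + 1 + e) q) + 2 = _
    rw [show q + 1 + e = q + e + 1 by ring]
  have hF : FF L (.ins .garb :: (blk v ++ [])) = C n (C (q + e + 1) q) + 2 := by
    rw [FF_garb _ hi, hG]
    intro h'
    obtain ⟨l', h''⟩ := hL _ h'
    rw [hi] at h''
    simp at h''
  refine ⟨.ins .garb :: (blk v ++ []), by simp, by rw [hF]; omega, Or.inl ⟨?_, by rw [hF]⟩⟩
  simp [TT, kind]

theorem one_mem {L : Language Ins} (hL : ∀ l ∈ L, ∃ l', l = .start :: l') (hne : ∃ l, l ∈ L)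
    (x : ℕ) (A : List ℕ) (hA : 0 ∉ A) : (1 : ℕ∞) ∈ sizes L x A := by
  obtain ⟨l, hl⟩ := hne
  obtain ⟨l', rfl⟩ := hL l hl
  have hi : insq ((Ins.start :: l').map Let.ins) = .start :: l' := by
    have : ∀ l : List Ins, insq (l.map Let.ins) = l := by
      intro l
      induction l with
      | nil => rfl
      | cons I l ih => rw [List.map_cons, insq_ins, ih]
    exact this _
  refine ⟨(Ins.start :: l').map Let.ins, by simp, ?_, Or.inr ⟨?_, rfl⟩⟩
  · rw [FF_of_mem (by rw [hi]; exact hl) (by rw [hi]; simp)]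
    omega
  · rw [TT_iff x A _ 0 (Nat.zero_le _) ⟨_, _, hi, by simp⟩]
    have : bits ((Ins.start :: l').map Let.ins) = [] := rfl
    rw [this]
    simpa using hA

section

variable {R : ℕ → ℕ → Prop} {κ : ℕ → ℕ → Bool} {L : Language Ins} {A : ℕ → List ℕ}

/-- The bit word of the invariant with index `i`. -/
def KK (κ : ℕ → ℕ → Bool) (i : ℕ) : List Bool := (List.range (i + 1)).map (κ i)

theorem TT_KK (hA : ∀ x i, i ∈ A x ↔ 1 ≤ i ∧ i ≤ x ∧ κ (i - 1) x = true)
    (hL : ∀ l ∈ L, ∃ l', l = .start :: l') {w : List Let} (hw : insq w ∈ L) {i : ℕ}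
    (hb : bits w = KK κ i) (x : ℕ) : TT x (A x) 0 w ↔ κ i x = true := by
  obtain ⟨l', hl'⟩ := hL _ hw
  rw [TT_iff x (A x) w 0 (Nat.zero_le _) ⟨_, _, hl', by simp⟩, hb]
  have h1 : (KK κ i).length = i + 1 := by simp [KK]
  rw [h1]
  split_ifs with h
  · rw [hA]
    simp only [Nat.add_zero, Nat.add_sub_cancel]
    exact ⟨fun h => h.2.2, fun h' => ⟨by omega, h, h'⟩⟩
  · simp only [Nat.sub_zero, KK]
    rw [List.getElem?_map, List.getElem?_range (by omega)]
    simp

theorem sizes_iff (hκ : ∀ x y, R x y ↔ ∀ i, κ i x = κ i y)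
    (hA : ∀ x i, i ∈ A x ↔ 1 ≤ i ∧ i ≤ x ∧ κ (i - 1) x = true)
    (hL : ∀ l ∈ L, ∃ l', l = .start :: l')
    (hV : ∀ n, Rel L n 0 ↔ ∃ i, bval (KK κ i) = n) (x y : ℕ) :
    R x y ↔ sizes L x (A x) = sizes L y (A y) := by
  have hgarb : ∀ {w}, insq w ∈ L → insq w ≠ [.garb] := by
    intro w hw h
    obtain ⟨l', h'⟩ := hL _ hw
    rw [h] at h'; simp at h'
  have hne : ∃ l, l ∈ L := by
    obtain ⟨l, hl, -⟩ := (hV (bval (KK κ 0))).2 ⟨0, rfl⟩
    exact ⟨l, hl⟩
  have h0 : ∀ x, 0 ∉ A x := by
    intro x h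
    rw [hA] at h
    omega
  have key1 : ∀ x y, R x y → sizes L x (A x) ⊆ sizes L y (A y) := by
    intro x y hxy k hk
    obtain ⟨w, hw0, hw1, ⟨hT, rfl⟩ | ⟨-, rfl⟩⟩ := hk
    · by_cases hw : insq w ∈ L
      · rcases Nat.lt_or_ge (Qt w) (Pt w) with h | h
        · rw [FF_of_mem hw (hgarb hw)]
          exact garbage_mem hL _ _ _ _ _ h
        · have h' : Pt w = Qt w := le_antisymm h (Qt_le_Pt w)
          obtain ⟨i, hi⟩ := (hV _).1 (rel_of_eq hw h')
          rw [NN_eq] at hi
          have hb : bits w = KK κ i := (bval_inj hi).symm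
          refine ⟨w, hw0, hw1, Or.inl ⟨?_, rfl⟩⟩
          rw [TT_KK hA hL hw hb] at hT ⊢
          rw [← (hκ x y).1 hxy i]
          exact hT
      · by_cases hg : insq w = [.garb]
        · rw [FF_garb hw hg]
          obtain ⟨n, p, q, hpq, h⟩ := GG_spec w hg
          rw [h]
          exact garbage_mem hL _ _ _ _ _ hpq
        · rw [FF_none hw hg] at hw1
          omega
    · exact one_mem hL hne y _ (h0 y)
  have key2 : ∀ x y, sizes L x (A x) ⊆ sizes L y (A y) → ∀ i, κ i x = true → κ i y = true := by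
    intro x y h i hi
    obtain ⟨w, hw, hb, hPQ⟩ := exists_of_rel ((hV _).2 ⟨i, rfl⟩ : Rel L (bval (KK κ i)) 0)
    have hF := FF_of_mem hw (hgarb hw)
    have h1 : ((FF L w : ℕ) : ℕ∞) ∈ sizes L x (A x) := by
      refine ⟨w, ?_, by rw [hF]; omega, Or.inl ⟨(TT_KK hA hL hw hb x).2 hi, rfl⟩⟩
      rintro rfl
      obtain ⟨l', h'⟩ := hL _ hw
      simp at h'
    obtain ⟨w', -, hw1, ⟨hT, he⟩ | ⟨-, he⟩⟩ := h h1
    · have he' : FF L w = FF L w' := by exact_mod_cast he
      by_cases hw' : insq w' ∈ L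
      · rw [hF, FF_of_mem hw' (hgarb hw')] at he'
        have h2 := C_inj (Nat.add_right_cancel he')
        rw [NN_eq, NN_eq] at h2
        have hb' : bits w' = KK κ i := (bval_inj h2.1).symm.trans hb
        exact (TT_KK hA hL hw' hb' y).1 hT
      · by_cases hg : insq w' = [.garb]
        · obtain ⟨n, p, q, hpq, h3⟩ := GG_spec w' hg
          rw [hF, FF_garb hw' hg, h3] at he'
          have h2 := C_inj (C_inj (Nat.add_right_cancel he')).2
          omega
        · rw [FF_none hw' hg] at hw1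
          omega
    · have he' : FF L w = 1 := by exact_mod_cast he
      rw [hF] at he'
      omega
  constructor
  · intro h
    have h' : R y x := by
      rw [hκ] at h ⊢
      exact fun i => (h i).symm
    exact Set.Subset.antisymm (key1 x y h) (key1 y x h')
  · intro h
    rw [hκ]
    intro i
    have h1 := key2 x y h.subset i
    have h2 := key2 y x h.superset i
    cases hx : κ i x <;> cases hy : κ i y <;> simp_all

end

end Pool.Agent.H81
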