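import Mathlib
import Pool.Agent.H81.Hard1

set_option autoImplicit false

/-!
# The reduction: the structures
-/

namespace Pool.Agent.H81

open Encodable

section

variable {L : Language Ins} {δ : Finset (ℕ × ℕ × ℕ)} {s t : ℕ} {ga : Let → ℕ} {Λ : List ℕ}

/-- The domain of all structures. -/
def XX (δ : Finset (ℕ × ℕ × ℕ)) (s t : ℕ) : Set (List ℕ) :=
  {u | Acc (δ : Set (ℕ × ℕ × ℕ)) {t} s u}

/-- The relation. -/
def rx (Λ : List ℕ) (ga : Let → ℕ) (x : ℕ) (A : List ℕ) (u v : List ℕ) : Prop :=
  Acc {t | t ∈ trx (LK Λ ga) (EQT Λ) x A} {q | q ∈ [0, 1]} 2 (conv u v)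

/-- Hypotheses on the domain automaton. -/
structure DomH (L : Language Ins) (δ : Finset (ℕ × ℕ × ℕ)) (s t : ℕ) (ga : Let → ℕ)
    (Λ : List ℕ) : Prop where
  inj : Function.Injective ga
  fin : ∀ w : List Let, w ≠ [] → (lying δ {t} s (w.map ga)).Finite
  card : ∀ w : List Let, w ≠ [] → (lying δ {t} s (w.map ga)).ncard = FF L w
  ne : ∀ u ∈ XX δ s t, u ≠ []
  mem : ∀ u ∈ XX δ s t, ∀ l ∈ u, l ∈ Λ
  bse : ∀ u ∈ XX δ s t, ∃ w : List Let, u.map base = w.map ga

theorem rx_iff (h : DomH L δ s t ga Λ) (x : ℕ) (A : List ℕ) {u v : List ℕ} (hu : u ∈ XX δ s t)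
    (hv : v ∈ XX δ s t) {w : List Let} (hw : u.map base = w.map ga) :
    rx Λ ga x A u v ↔ u = v ∨ (v.map base = w.map ga ∧ TT x A 0 w) := by
  have h1 := ((acc_trx h.inj x A w u v (h.mem u hu) (h.mem v hv) hw).2.2) 2 0 (Or.inr ⟨rfl, rfl⟩)
    (Nat.zero_le _)
  unfold rx
  rw [h1]
  have := h.ne u hu
  tauto

theorem eqOn_rx (h : DomH L δ s t ga Λ) (x : ℕ) (A : List ℕ) :
    EqOn (XX δ s t) (rx Λ ga x A) := by
  constructor
  · intro u hu
    obtain ⟨w, hw⟩ := h.bse u hu
    rw [rx_iff h x A hu hu hw]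
    exact Or.inl rfl
  · intro u hu v hv huv
    obtain ⟨w, hw⟩ := h.bse u hu
    rw [rx_iff h x A hu hv hw] at huv
    rcases huv with rfl | ⟨h1, h2⟩
    · rw [rx_iff h x A hu hu hw]; exact Or.inl rfl
    · rw [rx_iff h x A hv hu h1]
      exact Or.inr ⟨hw, h2⟩
  · intro u hu v hv z hz huv hvz
    obtain ⟨w, hw⟩ := h.bse u hu
    rw [rx_iff h x A hu hv hw] at huv
    rcases huv with rfl | ⟨h1, h2⟩
    · exact hvz
    · rw [rx_iff h x A hv hz h1] at hvz
      rw [rx_iff h x A hu hz hw]
      rcases hvz with rfl | ⟨h3, h4⟩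
      · exact Or.inr ⟨h1, h2⟩
      · exact Or.inr ⟨h3, h2⟩

theorem cls_true (h : DomH L δ s t ga Λ) (x : ℕ) (A : List ℕ) {u : List ℕ}
    (hu : u ∈ XX δ s t) {w : List Let} (hw : u.map base = w.map ga) (hT : TT x A 0 w) :
    cls (XX δ s t) (rx Λ ga x A) u = lying δ {t} s (w.map ga) := by
  ext v
  constructor
  · rintro ⟨hv, hr⟩
    rw [rx_iff h x A hu hv hw] at hr
    rcases hr with rfl | ⟨h1, -⟩
    · exact ⟨hu, hw⟩
    · exact ⟨hv, h1⟩
  · rintro ⟨hv, hb⟩
    exact ⟨hv, (rx_iff h x A hu hv hw).2 (Or.inr ⟨hb, hT⟩)⟩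

theorem cls_false (h : DomH L δ s t ga Λ) (x : ℕ) (A : List ℕ) {u : List ℕ}
    (hu : u ∈ XX δ s t) {w : List Let} (hw : u.map base = w.map ga) (hT : ¬ TT x A 0 w) :
    cls (XX δ s t) (rx Λ ga x A) u = {u} := by
  ext v
  constructor
  · rintro ⟨hv, hr⟩
    rw [rx_iff h x A hu hv hw] at hr
    rcases hr with rfl | ⟨-, h1⟩
    · rfl
    · exact absurd h1 hT
  · rintro rfl
    exact ⟨hu, (rx_iff h x A hu hu hw).2 (Or.inl rfl)⟩

/-- The size of the class of an element over `w`. -/
theorem encard_cls_rx (h : DomH L δ s t ga Λ) (x : ℕ) (A : List ℕ) {u : List ℕ}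
    (hu : u ∈ XX δ s t) {w : List Let} (hw : u.map base = w.map ga) (k : ℕ∞) :
    (cls (XX δ s t) (rx Λ ga x A) u).encard = k ↔
      ((TT x A 0 w ∧ k = FF L w) ∨ (¬ TT x A 0 w ∧ k = 1)) := by
  have hne : w ≠ [] := by
    rintro rfl
    have : u = [] := by simpa using hw
    exact h.ne u hu this
  by_cases hT : TT x A 0 w
  · rw [cls_true h x A hu hw hT]
    have h1 : (lying δ {t} s (w.map ga)).encard = FF L w := by
      rw [← h.card w hne]
      exact ((h.fin w hne).cast_ncard_eq).symm
    rw [h1]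
    simp only [hT, true_and, not_true, false_and, or_false]
    exact eq_comm
  · rw [cls_false h x A hu hw hT, Set.encard_singleton]
    simp only [hT, false_and, not_false_iff, true_and, false_or]
    exact eq_comm

theorem exists_over (h : DomH L δ s t ga Λ) {w : List Let} (hw : w ≠ []) (hF : 1 ≤ FF L w) :
    ∃ u ∈ XX δ s t, u.map base = w.map ga := by
  rw [← h.card w hw] at hF
  obtain ⟨u, hu⟩ := (Set.ncard_pos (h.fin w hw)).1 (by omega)
  exact ⟨u, hu.1, hu.2⟩

theorem FF_pos_of_mem (h : DomH L δ s t ga Λ) {u : List ℕ} (hu : u ∈ XX δ s t) {w : List Let}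
    (hw : u.map base = w.map ga) : w ≠ [] ∧ 1 ≤ FF L w := by
  have hne : w ≠ [] := by
    rintro rfl
    have : u = [] := by simpa using hw
    exact h.ne u hu this
  refine ⟨hne, ?_⟩
  rw [← h.card w hne]
  exact (Set.ncard_pos (h.fin w hne)).2 ⟨u, hu, hw⟩

theorem encard_classesOf (h : DomH L δ s t ga Λ) (x : ℕ) (A : List ℕ) (k : ℕ∞) :
    (k ∈ sizes L x A → (classesOf (XX δ s t) (rx Λ ga x A) k).encard = ⊤) ∧
    (k ∉ sizes L x A → (classesOf (XX δ s t) (rx Λ ga x A) k).encard = 0) := by
  constructor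
  · rintro ⟨w, hw, hF, hk⟩
    have hne : ∀ j, pad j w ≠ [] := by
      intro j e
      have := length_pad j w
      rw [e] at this
      have h2 : 0 < w.length := List.length_pos_iff.2 hw
      simp at this
      omega
    have hF' : ∀ j, 1 ≤ FF L (pad j w) := fun j => by rw [FF_pad]; exact hF
    choose u hu hub using fun j => exists_over h (hne j) (hF' j)
    rw [Set.encard_eq_top_iff]
    refine Set.infinite_of_injective_forall_mem (f := fun j => cls (XX δ s t) (rx Λ ga x A) (u j))
      ?_ ?_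
    · intro i j e
      have hr := ((eqOn_rx h x A).cls_eq_iff (hu i) (hu j)).1 e
      rw [rx_iff h x A (hu i) (hu j) (hub i)] at hr
      have hl : ∀ j, (u j).length = j + w.length := by
        intro j
        have := congrArg List.length (hub j)
        rw [List.length_map, List.length_map, length_pad] at this
        exact this
      have : (u i).length = (u j).length := by
        rcases hr with hr | ⟨hr, -⟩
        · rw [hr]
        · have h1 := congrArg List.length hr
          have h2 := congrArg List.length (hub i)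
          rw [List.length_map] at h1 h2
          rw [h1, h2]
      rw [hl, hl] at this
      omega
    · intro j
      refine ⟨⟨u j, hu j, rfl⟩, ?_⟩
      rw [encard_cls_rx h x A (hu j) (hub j), TT_pad, FF_pad]
      exact hk
  · intro hk
    rw [Set.encard_eq_zero, Set.eq_empty_iff_forall_notMem]
    rintro c ⟨⟨u, hu, rfl⟩, hc⟩
    obtain ⟨w, hw⟩ := h.bse u hu
    rw [encard_cls_rx h x A hu hw] at hc
    obtain ⟨h1, h2⟩ := FF_pos_of_mem h hu hw
    exact hk ⟨w, h1, h2, hc⟩

theorem iso_rx_iff (h : DomH L δ s t ga Λ) (x y : ℕ) (A B : List ℕ) :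
    (∃ f : List ℕ → List ℕ, Set.BijOn f (XX δ s t) (XX δ s t) ∧
      ∀ u ∈ XX δ s t, ∀ v ∈ XX δ s t, (rx Λ ga x A u v ↔ rx Λ ga y B (f u) (f v))) ↔
      sizes L x A = sizes L y B := by
  rw [iso_iff (eqOn_rx h x A) (eqOn_rx h y B)]
  constructor
  · intro he
    ext k
    by_cases h1 : k ∈ sizes L x A <;> by_cases h2 : k ∈ sizes L y B
    · exact ⟨fun _ => h2, fun _ => h1⟩
    · have := he k
      rw [(encard_classesOf h x A k).1 h1, (encard_classesOf h y B k).2 h2] at this
      exact absurd this (by simp)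
    · have := he k
      rw [(encard_classesOf h x A k).2 h1, (encard_classesOf h y B k).1 h2] at this
      exact absurd this (by simp)
    · exact ⟨fun h => absurd h h1, fun h => absurd h h2⟩
  · intro he k
    by_cases h1 : k ∈ sizes L x A
    · rw [(encard_classesOf h x A k).1 h1, (encard_classesOf h y B k).1 (he ▸ h1)]
    · rw [(encard_classesOf h x A k).2 h1, (encard_classesOf h y B k).2 (he ▸ h1)]

end

/-- The domain automaton exists. -/
theorem exists_DomH {L : Language Ins} (hL : L.IsRegular) :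
    ∃ δ s t ga Λ, DomH L δ s t ga Λ := by
  classical
  let ga : Let → ℕ := fun a => Fintype.equivFin Let a
  have hga : Function.Injective ga := fun a b h =>
    (Fintype.equivFin Let).injective (Fin.ext h)
  obtain ⟨δ, s, t, h1, h2⟩ := exists_dom ga hga (recog_FF hL)
  refine ⟨δ, s, t, ga, (δ.image (fun q => q.2.1)).toList, hga, fun w hw => (h1 w hw).1,
    fun w hw => (h1 w hw).2, fun u hu => (h2 u hu).1, ?_, fun u hu => (h2 u hu).2.2⟩
  intro u hu l hl
  rw [Finset.mem_toList, Finset.mem_image]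
  exact (h2 u hu).2.1 l hl

/-- The accepting positions. -/
def accA (κ : ℕ → ℕ → Bool) (x n : ℕ) : List ℕ :=
  Nat.rec [] (fun i l => if κ i x then (i + 1) :: l else l) n

theorem mem_accA (κ : ℕ → ℕ → Bool) (x n i : ℕ) :
    i ∈ accA κ x n ↔ 1 ≤ i ∧ i ≤ n ∧ κ (i - 1) x = true := by
  induction n with
  | zero =>
    have : accA κ x 0 = [] := rfl
    rw [this]
    simp only [List.not_mem_nil, false_iff]
    omega
  | succ n ih =>
    have h : accA κ x (n + 1) = if κ n x then (n + 1) :: accA κ x n else accA κ x n := rfl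
    rw [h]
    split_ifs with hk
    · rw [List.mem_cons, ih]
      constructor
      · rintro (rfl | ⟨h1, h2, h3⟩)
        · exact ⟨by omega, le_rfl, hk⟩
        · exact ⟨h1, by omega, h3⟩
      · rintro ⟨h1, h2, h3⟩
        rcases Nat.lt_or_ge n i with h' | h'
        · left; omega
        · exact Or.inr ⟨h1, h', h3⟩
    · rw [ih]
      constructor
      · rintro ⟨h1, h2, h3⟩
        exact ⟨h1, by omega, h3⟩
      · rintro ⟨h1, h2, h3⟩
        rcases Nat.lt_or_ge n i with h' | h'
        · obtain rfl : i = n + 1 := by omega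
          rw [Nat.add_sub_cancel] at h3
          exact absurd h3 hk
        · exact ⟨h1, h', h3⟩

theorem accA_computable {κ : ℕ → ℕ → Bool} (hκ : Computable₂ κ) :
    Computable (fun x => accA κ x x) := by
  have h1 : Computable (fun q : ℕ × (ℕ × List ℕ) => κ q.2.1 q.1) :=
    hκ.comp (f := κ) (g := fun q : ℕ × (ℕ × List ℕ) => q.2.1) (h := fun q : ℕ × (ℕ × List ℕ) => q.1)
      (Computable.fst.comp Computable.snd) Computable.fst
  have h2 : Computable (fun q : ℕ × (ℕ × List ℕ) => (q.2.1 + 1) :: q.2.2) :=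
    Computable.list_cons.comp (Computable.succ.comp (Computable.fst.comp Computable.snd))
      (Computable.snd.comp Computable.snd)
  have h3 : Computable (fun q : ℕ × (ℕ × List ℕ) =>
      bif κ q.2.1 q.1 then (q.2.1 + 1) :: q.2.2 else q.2.2) :=
    Computable.cond h1 h2 (Computable.snd.comp Computable.snd)
  have h4 : Computable (fun x : ℕ => (Nat.rec [] (fun i l => 
      bif κ i x then (i + 1) :: l else l) x : List ℕ)) :=
    Computable.nat_rec (f := fun x : ℕ => x) (g := fun _ : ℕ => ([] : List ℕ))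
      (h := fun (x : ℕ) (q : ℕ × List ℕ) => bif κ q.1 x then (q.1 + 1) :: q.2 else q.2)
      Computable.id (Computable.const _) h3
  refine h4.of_eq fun x => ?_
  unfold accA
  simp only [Bool.cond_eq_ite]

/-- The range of a computable function is accepted by a primitive recursive test. -/
theorem exists_primrec_test {h : ℕ → ℕ} (hh : Computable h) :
    ∃ g : ℕ → ℕ, Nat.Primrec g ∧ ∀ n, (∃ k, g (Nat.pair n k) = 1) ↔ ∃ i, h i = n := by
  obtain ⟨c, hc⟩ := Nat.Partrec.Code.exists_code.1 (Partrec.nat_iff.1 (show Partrec (fun n => (h n : Part ℕ)) from hh))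
  have h1 : Primrec (fun q : ℕ =>
      if Nat.Partrec.Code.evaln q.unpair.2.unpair.1 c q.unpair.2.unpair.2 = some q.unpair.1 then 1
      else 0) := by
    have ha : Primrec (fun q : ℕ => q.unpair.1) := Primrec.fst.comp Primrec.unpair
    have hb : Primrec (fun q : ℕ => q.unpair.2.unpair.1) :=
      Primrec.fst.comp (Primrec.unpair.comp (Primrec.snd.comp Primrec.unpair))
    have hc' : Primrec (fun q : ℕ => q.unpair.2.unpair.2) :=
      Primrec.snd.comp (Primrec.unpair.comp (Primrec.snd.comp Primrec.unpair))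
    have he : Primrec (fun q : ℕ =>
        Nat.Partrec.Code.evaln q.unpair.2.unpair.1 c q.unpair.2.unpair.2) :=
      Nat.Partrec.Code.primrec_evaln.comp
        (f := fun a : (ℕ × Nat.Partrec.Code) × ℕ => Nat.Partrec.Code.evaln a.1.1 a.1.2 a.2)
        (g := fun q : ℕ => ((q.unpair.2.unpair.1, c), q.unpair.2.unpair.2))
        (Primrec.pair (Primrec.pair hb (Primrec.const c)) hc')
    refine Primrec.ite ?_ (Primrec.const 1) (Primrec.const 0)
    exact Primrec.eq.comp he (Primrec.option_some.comp ha)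
  refine ⟨_, Primrec.nat_iff.1 h1, ?_⟩
  intro n
  simp only [Nat.unpair_pair]
  constructor
  · rintro ⟨k, hk⟩
    split_ifs at hk with h2
    · have h3 := Nat.Partrec.Code.evaln_sound (show n ∈ Nat.Partrec.Code.evaln k.unpair.1 c k.unpair.2 from h2)
      rw [hc] at h3
      exact ⟨k.unpair.2, (by simpa using h3 : n = h k.unpair.2).symm⟩
  · rintro ⟨i, rfl⟩
    have h3 : h i ∈ c.eval i := by rw [hc]; simp
    obtain ⟨k, hk⟩ := Nat.Partrec.Code.evaln_complete.1 h3
    refine ⟨Nat.pair k i, ?_⟩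
    simp only [Nat.unpair_pair]
    have hk' : Nat.Partrec.Code.evaln k c i = some (h i) := hk
    rw [if_pos hk']

theorem bval_eq (K : List Bool) : bval K = K.foldr (fun b n => (if b then 2 else 1) + 2 * n) 0 := by
  induction K with
  | nil => rfl
  | cons b K ih => rw [bval, List.foldr_cons, ih]

theorem KK_computable {κ : ℕ → ℕ → Bool} (hκ : Computable₂ κ) :
    Computable (fun i => bval (KK κ i)) := by
  -- compute the value by recursion from the last bit
  let G : ℕ → ℕ → ℕ := fun i n =>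
    Nat.rec 0 (fun j m => (if κ i (i - j) then 2 else 1) + 2 * m) n
  have hG : ∀ i n, n ≤ i + 1 → G i n = bval (((List.range (i + 1)).map (κ i)).drop (i + 1 - n)) := by
    intro i n
    induction n with
    | zero =>
      intro _
      rw [Nat.sub_zero, List.drop_of_length_le (by simp)]
      rfl
    | succ n ih =>
      intro hn
      have h1 := ih (by omega)
      have h2 : G i (n + 1) = (if κ i (i - n) then 2 else 1) + 2 * G i n := rfl
      rw [h2, h1]
      have h3 : i + 1 - (n + 1) < ((List.range (i + 1)).map (κ i)).length := by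
        rw [List.length_map, List.length_range]; omega
      rw [List.drop_eq_getElem_cons h3, bval]
      have h4 : ((List.range (i + 1)).map (κ i))[i + 1 - (n + 1)] = κ i (i - n) := by
        simp only [List.getElem_map, List.getElem_range]
        congr 1
        omega
      have h5 : i + 1 - (n + 1) + 1 = i + 1 - n := by omega
      rw [h4, h5]
  have h1 : Computable (fun q : ℕ × (ℕ × ℕ) => κ q.1 (q.1 - q.2.1)) :=
    hκ.comp (f := κ) (g := fun q : ℕ × (ℕ × ℕ) => q.1) (h := fun q : ℕ × (ℕ × ℕ) => q.1 - q.2.1)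
      Computable.fst (Primrec.nat_sub.to_comp.comp Computable.fst
        (Computable.fst.comp Computable.snd))
  have h2 : Computable (fun q : ℕ × (ℕ × ℕ) => (bif κ q.1 (q.1 - q.2.1) then 2 else 1) + 2 * q.2.2) :=
    Primrec.nat_add.to_comp.comp (Computable.cond h1 (Computable.const 2) (Computable.const 1))
      (Primrec.nat_mul.to_comp.comp (Computable.const 2) (Computable.snd.comp Computable.snd))
  have h4 : Computable (fun i : ℕ => (Nat.rec 0 (fun j m => 
      (bif κ i (i - j) then 2 else 1) + 2 * m) (i + 1) : ℕ)) :=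
    Computable.nat_rec (f := fun i : ℕ => i + 1) (g := fun _ : ℕ => (0 : ℕ))
      (h := fun (i : ℕ) (q : ℕ × ℕ) => (bif κ i (i - q.1) then 2 else 1) + 2 * q.2)
      Computable.succ (Computable.const _) h2
  refine h4.of_eq fun i => ?_
  have h5 := hG i (i + 1) le_rfl
  rw [Nat.sub_self, List.drop_zero] at h5
  rw [KK, ← h5]
  show _ = (Nat.rec 0 (fun j m => (if κ i (i - j) then 2 else 1) + 2 * m) (i + 1) : ℕ)
  simp only [Bool.cond_eq_ite]

end Pool.Agent.H81
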