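import Mathlib
import Pool.Agent.H81.PiDefs

set_option autoImplicit false

/-!
# Class sizes by bounded search
-/

namespace Pool.Agent.H81

section reach

variable {β : Type}

/-- `s` is reachable from `q` by reading the word. -/
def Reach (δ : Set (ℕ × β × ℕ)) : ℕ → List β → ℕ → Prop
  | q, [], s => q = s
  | q, a :: w, s => ∃ q', (q, a, q') ∈ δ ∧ Reach δ q' w s

theorem acc_append (δ : Set (ℕ × β × ℕ)) (F : Set ℕ) (w₁ w₂ : List β) (q : ℕ) :
    Acc δ F q (w₁ ++ w₂) ↔ ∃ s, Reach δ q w₁ s ∧ Acc δ F s w₂ := by
  induction w₁ generalizing q with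
  | nil => simp [Reach]
  | cons a w ih =>
    simp only [List.cons_append, Acc, Reach, ih]
    constructor
    · rintro ⟨q', h1, s, h2, h3⟩
      exact ⟨s, ⟨q', h1, h2⟩, h3⟩
    · rintro ⟨s, ⟨q', h1, h2⟩, h3⟩
      exact ⟨q', h1, s, h2, h3⟩

theorem reach_append (δ : Set (ℕ × β × ℕ)) (w₁ w₂ : List β) (q t : ℕ) :
    Reach δ q (w₁ ++ w₂) t ↔ ∃ s, Reach δ q w₁ s ∧ Reach δ s w₂ t := by
  induction w₁ generalizing q with
  | nil => simp [Reach]
  | cons a w ih =>
    simp only [List.cons_append, Reach, ih]
    constructor
    · rintro ⟨q', h1, s, h2, h3⟩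
      exact ⟨s, ⟨q', h1, h2⟩, h3⟩
    · rintro ⟨s, ⟨q', h1, h2⟩, h3⟩
      exact ⟨q', h1, s, h2, h3⟩

theorem reach_le {δ : Set (ℕ × β × ℕ)} {n : ℕ} (hδ : ∀ t ∈ δ, t.2.2 ≤ n) (w : List β) (q s : ℕ)
    (hq : q ≤ n) (h : Reach δ q w s) : s ≤ n := by
  induction w generalizing q with
  | nil => exact h ▸ hq
  | cons a w ih =>
    obtain ⟨q', h1, h2⟩ := h
    exact ih q' (hδ _ h1) h2

theorem acc_letter {δ : Set (ℕ × β × ℕ)} {F : Set ℕ} {w : List β} {q : ℕ} (h : Acc δ F q w) :
    ∀ a ∈ w, ∃ t ∈ δ, t.2.1 = a := by
  induction w generalizing q with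
  | nil => intro a ha; exact absurd ha (by simp)
  | cons b w ih =>
    obtain ⟨q', h1, h2⟩ := h
    intro a ha
    rcases List.mem_cons.1 ha with rfl | ha
    · exact ⟨_, h1, rfl⟩
    · exact ih h2 a ha

end reach

/-! ### Words -/

theorem mem_words (n L : ℕ) (w : List ℕ) : w ∈ words n L ↔ w.length ≤ L ∧ ∀ a ∈ w, a ≤ n := by
  induction L generalizing w with
  | zero =>
    simp only [words, List.mem_singleton, Nat.le_zero, List.length_eq_zero_iff]
    constructor
    · rintro rfl; simp
    · exact fun h => h.1
  | succ L ih =>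
    cases w with
    | nil => simp [words]
    | cons a w =>
      simp only [words, List.mem_cons, List.mem_flatMap, List.mem_range, List.mem_map, ih,
        List.cons.injEq, List.length_cons]
      constructor
      · rintro (h | ⟨b, hb, w', ⟨h1, h2⟩, rfl, rfl⟩)
        · exact absurd h (by simp)
        · refine ⟨by omega, ?_⟩
          intro x hx
          rcases hx with rfl | hx
          · omega
          · exact h2 x hx
      · rintro ⟨h1, h2⟩
        refine Or.inr ⟨a, ?_, w, ⟨by omega, fun x hx => h2 x (Or.inr hx)⟩, rfl, rfl⟩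
        have := h2 a (Or.inl rfl)
        omega

theorem nodup_words (n L : ℕ) : (words n L).Nodup := by
  induction L with
  | zero => simp [words]
  | succ L ih =>
    simp only [words]
    rw [List.nodup_cons]
    constructor
    · simp
    · rw [List.nodup_flatMap]
      refine ⟨fun a _ => ih.map (fun x y h => by simpa using h), ?_⟩
      have hr : (List.range (n + 1)).Nodup := List.nodup_range
      refine hr.imp ?_
      intro a b hab
      rw [Function.onFun, List.disjoint_left]
      intro w hw hw'
      obtain ⟨x, -, rfl⟩ := List.mem_map.1 hw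
      obtain ⟨y, -, h⟩ := List.mem_map.1 hw'
      simp only [List.cons.injEq] at h
      exact hab h.1.symm

theorem letters_le {n : ℕ} {c : LCode} (h : Bdd n c) {v : List ℕ} (hv : InD c v) :
    ∀ a ∈ v, a ≤ n := by
  intro a ha
  obtain ⟨t, ht, rfl⟩ := acc_letter hv a ha
  exact (h.dtr t ht).1

/-! ### Convolution -/

theorem conv_append_right (u x y : List ℕ) (h : u.length ≤ x.length) :
    conv u (x ++ y) = conv u x ++ y.map (fun b => (none, some b)) := by
  induction u generalizing x with
  | nil =>
    induction x with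
    | nil =>
      rw [List.nil_append, conv_nil_nil, List.nil_append]
      induction y with
      | nil => rfl
      | cons b y ih => rw [conv_nil_cons, ih, List.map_cons]
    | cons b x ih =>
      rw [List.cons_append, conv_nil_cons, conv_nil_cons, ih (by simp), List.cons_append]
  | cons a u ih =>
    cases x with
    | nil => simp at h
    | cons b x =>
      rw [List.cons_append, conv_cons_cons, conv_cons_cons, ih x (by simpa using h),
        List.cons_append]

/-! ### Types of positions -/

/-- The pair of sets of reachable states after reading `x` against `u`. -/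
noncomputable def ty (n : ℕ) (c : LCode) (u x : List ℕ) : Finset ℕ × Finset ℕ :=
  (@Finset.filter ℕ (fun s => Reach {t | t ∈ c.1.1} c.1.2.1 x s) (Classical.decPred _)
      (Finset.range (n + 1)),
    @Finset.filter ℕ (fun s => Reach {t | t ∈ c.2.1} c.2.2.1 (conv u x) s) (Classical.decPred _)
      (Finset.range (n + 1)))

theorem ty_mem (n : ℕ) (c : LCode) (u x : List ℕ) :
    ty n c u x ∈ (Finset.range (n + 1)).powerset ×ˢ (Finset.range (n + 1)).powerset := by
  rw [Finset.mem_product, Finset.mem_powerset, Finset.mem_powerset]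
  exact ⟨@Finset.filter_subset _ _ (_) _, @Finset.filter_subset _ _ (_) _⟩

theorem card_types (n : ℕ) :
    ((Finset.range (n + 1)).powerset ×ˢ (Finset.range (n + 1)).powerset).card = bT n := by
  rw [Finset.card_product, Finset.card_powerset, Finset.card_range, bT, ← pow_add]
  congr 1
  ring

theorem mem_cls_iff {n : ℕ} {c : LCode} (h : Bdd n c) (u x z : List ℕ)
    (hx : u.length ≤ x.length) :
    x ++ z ∈ cls (XD c) (InR c) u ↔
      (∃ s ∈ (ty n c u x).1, Acc {t | t ∈ c.1.1} {q | q ∈ c.1.2.2} s z) ∧
      (∃ s ∈ (ty n c u x).2, Acc {t | t ∈ c.2.1} {q | q ∈ c.2.2.2} s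
        (z.map (fun b => (none, some b)))) := by
  have h1 : x ++ z ∈ cls (XD c) (InR c) u ↔ InD c (x ++ z) ∧ InR c u (x ++ z) := Iff.rfl
  rw [h1]
  unfold InD InR
  rw [conv_append_right u x z hx, acc_append, acc_append]
  simp only [ty, Finset.mem_filter, Finset.mem_range]
  constructor
  · rintro ⟨⟨s, hs, h2⟩, ⟨s', hs', h2'⟩⟩
    refine ⟨⟨s, ⟨?_, hs⟩, h2⟩, ⟨s', ⟨?_, hs'⟩, h2'⟩⟩
    · have := reach_le (fun t ht => (h.dtr t ht).2) x _ _ h.dst hs
      omega
    · have := reach_le (fun t ht => h.rtr t ht) _ _ _ h.rst hs'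
      omega
  · rintro ⟨⟨s, ⟨_, hs⟩, h2⟩, ⟨s', ⟨_, hs'⟩, h2'⟩⟩
    exact ⟨⟨s, hs, h2⟩, ⟨s', hs', h2'⟩⟩

/-- Two positions of the same type. -/
theorem exists_same_type (n : ℕ) (c : LCode) (u v : List ℕ) (hv : u.length + bT n ≤ v.length) :
    ∃ x s y : List ℕ, v = x ++ s ++ y ∧ s ≠ [] ∧ s.length ≤ bT n ∧ u.length ≤ x.length ∧
      ty n c u x = ty n c u (x ++ s) := by
  classical
  obtain ⟨i, hi, j, hj, hij, hty⟩ := Finset.exists_ne_map_eq_of_card_lt_of_maps_to
    (s := Finset.range (bT n + 1))
    (t := (Finset.range (n + 1)).powerset ×ˢ (Finset.range (n + 1)).powerset)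
    (f := fun i => ty n c u (v.take (u.length + i)))
    (by rw [card_types, Finset.card_range]; omega)
    (fun i _ => ty_mem n c u _)
  have key : ∀ i j, i < j → j ∈ Finset.range (bT n + 1) →
      ty n c u (v.take (u.length + i)) = ty n c u (v.take (u.length + j)) →
      ∃ x s y : List ℕ, v = x ++ s ++ y ∧ s ≠ [] ∧ s.length ≤ bT n ∧ u.length ≤ x.length ∧
      ty n c u x = ty n c u (x ++ s) := by
    intro i j hij hj hty
    rw [Finset.mem_range] at hj
    have hsplit : v.take (u.length + j) =
        v.take (u.length + i) ++ (v.drop (u.length + i)).take (j - i) := by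
      rw [← List.take_add]
      congr 1
      omega
    refine ⟨v.take (u.length + i), (v.drop (u.length + i)).take (j - i), v.drop (u.length + j),
      ?_, ?_, ?_, ?_, ?_⟩
    · rw [← hsplit, List.take_append_drop]
    · intro h0
      have h1 := congrArg List.length h0
      rw [List.length_take, List.length_drop, List.length_nil] at h1
      omega
    · rw [List.length_take, List.length_drop]
      omega
    · rw [List.length_take]
      omega
    · rw [← hsplit]
      exact hty
  rcases lt_or_gt_of_ne hij with hlt | hlt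
  · exact key i j hlt hj hty
  · exact key j i hlt hi hty.symm

/-- A member of the class that is longer than `u` by `bT n` gives an infinite class. -/
theorem encard_top_of_long {n : ℕ} {c : LCode} (h : Bdd n c) {u v : List ℕ}
    (hv : v ∈ cls (XD c) (InR c) u) (hl : u.length + bT n ≤ v.length) :
    (cls (XD c) (InR c) u).encard = ⊤ := by
  obtain ⟨x, s, y, rfl, hs, -, hux, hty⟩ := exists_same_type n c u v hl
  have hpump : ∀ z, x ++ z ∈ cls (XD c) (InR c) u ↔ x ++ (s ++ z) ∈ cls (XD c) (InR c) u := by
    intro z
    rw [← List.append_assoc, mem_cls_iff h u x z hux,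
      mem_cls_iff h u (x ++ s) z (by rw [List.length_append]; omega), hty]
  let f : ℕ → List ℕ := fun k => x ++ Nat.rec y (fun _ w => s ++ w) k
  have hf : ∀ k, f (k + 1) = x ++ (s ++ Nat.rec y (fun _ w => s ++ w) k) := fun k => rfl
  have hmem : ∀ k, f k ∈ cls (XD c) (InR c) u := by
    intro k
    induction k with
    | zero =>
      show x ++ y ∈ cls (XD c) (InR c) u
      rw [hpump y, ← List.append_assoc]
      exact hv
    | succ k ih =>
      rw [hf, ← hpump]
      exact ih
  have hlen : ∀ k, (f k).length = x.length + y.length + k * s.length := by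
    intro k
    induction k with
    | zero =>
      show (x ++ y).length = _
      rw [List.length_append]
      ring
    | succ k ih =>
      have h1 : (f k).length = x.length + (Nat.rec y (fun _ w => s ++ w) k : List ℕ).length :=
        List.length_append
      rw [hf, List.length_append, List.length_append]
      have h2 : (k + 1) * s.length = k * s.length + s.length := by ring
      rw [h2]
      omega
  have hs' : 0 < s.length := List.length_pos_iff.2 hs
  have hinj : Function.Injective f := by
    intro a b hab
    have h1 := congrArg List.length hab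
    rw [hlen, hlen] at h1
    have h2 : a * s.length = b * s.length := by omega
    exact Nat.eq_of_mul_eq_mul_right hs' h2
  rw [Set.encard_eq_top_iff]
  exact Set.infinite_of_injective_forall_mem hinj hmem

/-- A member of the class that is longer than `u` by `bT n` gives one of bounded length. -/
theorem long_of_long {n : ℕ} {c : LCode} (h : Bdd n c) {u v : List ℕ}
    (hv : v ∈ cls (XD c) (InR c) u) (hl : u.length + bT n ≤ v.length) : Long n c u := by
  classical
  -- a member of minimal length
  have hex : ∃ m, ∃ v ∈ cls (XD c) (InR c) u, u.length + bT n ≤ v.length ∧ v.length = m :=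
    ⟨_, v, hv, hl, rfl⟩
  obtain ⟨w, hw, hwl, hwm⟩ := Nat.find_spec hex
  have hmin : ∀ w' ∈ cls (XD c) (InR c) u, u.length + bT n ≤ w'.length →
      w.length ≤ w'.length := by
    intro w' hw' hl'
    rw [hwm]
    exact Nat.find_min' hex ⟨w', hw', hl', rfl⟩
  refine ⟨w, ?_, hwl, hw.1, hw.2⟩
  rw [mem_words]
  refine ⟨?_, letters_le h hw.1⟩
  by_contra hcon
  rw [not_le] at hcon
  obtain ⟨x, s, y, rfl, hs, hsl, hux, hty⟩ := exists_same_type n c u w hwl
  have hs' : 0 < s.length := List.length_pos_iff.2 hs
  have hcut : x ++ y ∈ cls (XD c) (InR c) u := by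
    rw [mem_cls_iff h u x y hux, hty,
      ← mem_cls_iff h u (x ++ s) y (by rw [List.length_append]; omega)]
    exact hw
  simp only [List.length_append] at hcon
  have := hmin _ hcut (by rw [List.length_append]; omega)
  simp only [List.length_append] at this
  omega

theorem long_iff (n : ℕ) (c : LCode) (h : Bdd n c) (u : List ℕ) :
    Long n c u ↔ (cls (XD c) (InR c) u).encard = ⊤ := by
  constructor
  · rintro ⟨v, _, hl, h1, h2⟩
    exact encard_top_of_long h ⟨h1, h2⟩ hl
  · intro htop
    rw [Set.encard_eq_top_iff] at htop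
    -- some member is long
    have hfin : (cls (XD c) (InR c) u ∩ {v | v ∈ words n (u.length + bT n)}).Finite :=
      (List.finite_toSet (words n (u.length + bT n))).subset Set.inter_subset_right
    have hex : ∃ v ∈ cls (XD c) (InR c) u, v ∉ words n (u.length + bT n) := by
      by_contra hcon
      push Not at hcon
      apply htop
      refine hfin.subset fun v hv => ⟨hv, hcon v hv⟩
    obtain ⟨v, hv, hvw⟩ := hex
    rw [mem_words] at hvw
    refine long_of_long h hv ?_
    by_contra hcon
    exact hvw ⟨by omega, letters_le h hv.1⟩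

theorem encard_filter (l : List (List ℕ)) (hnd : l.Nodup) (P : List ℕ → Prop) (S : Set (List ℕ))
    (hS : ∀ v, v ∈ S ↔ v ∈ l ∧ P v) (inst : DecidablePred P) :
    S.encard = ((l.filter (fun v => decide (P v))).length : ℕ) := by
  have heq : S = ((l.filter (fun v => decide (P v))).toFinset : Set (List ℕ)) := by
    ext v
    rw [Finset.mem_coe, List.mem_toFinset, List.mem_filter, decide_eq_true_eq, hS]
  rw [heq, Set.encard_coe_eq_coe_finsetCard, List.toFinset_card_of_nodup (hnd.filter _)]

theorem encard_cls (n : ℕ) (c : LCode) (h : Bdd n c) (u : List ℕ) (hl : ¬ Long n c u) :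
    (cls (XD c) (InR c) u).encard = numR n c u := by
  have hshort : ∀ v ∈ cls (XD c) (InR c) u, v.length < u.length + bT n := by
    intro v hv
    by_contra hcon
    exact hl (long_of_long h hv (not_lt.1 hcon))
  unfold numR
  refine encard_filter _ (nodup_words n (u.length + bT n)) (fun v => InD c v ∧ InR c u v) _ ?_ _
  intro v
  rw [mem_words]
  constructor
  · intro hv
    exact ⟨⟨(hshort v hv).le, letters_le h hv.1⟩, hv⟩
  · exact fun hv => hv.2

end Pool.Agent.H81
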