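import Mathlib
import Pool.Agent.H81.PiDefs
import Pool.Agent.H81.PiSize

set_option autoImplicit false

/-!
# Counting the classes of each size of an automatic equivalence relation
-/

namespace Pool.Agent.H81

open Encodable

namespace Cnt

/-! ### Words -/

theorem mem_words (n L : ℕ) (w : List ℕ) :
    w ∈ words n L ↔ w.length ≤ L ∧ ∀ a ∈ w, a ≤ n := by
  induction L generalizing w with
  | zero =>
    rw [words, List.mem_singleton]
    constructor
    · rintro rfl; simp
    · rintro ⟨h, -⟩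
      exact List.length_eq_zero_iff.1 (Nat.le_zero.1 h)
  | succ L ih =>
    cases w with
    | nil => simp [words]
    | cons a w =>
      rw [words, List.mem_cons, List.mem_flatMap]
      constructor
      · rintro (h | ⟨b, hb, h⟩)
        · exact absurd h (by simp)
        · rw [List.mem_map] at h
          obtain ⟨w', hw', h⟩ := h
          rw [List.cons.injEq] at h
          obtain ⟨rfl, rfl⟩ := h
          rw [ih] at hw'
          rw [List.mem_range] at hb
          refine ⟨by simp only [List.length_cons]; omega, ?_⟩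
          intro a' ha'
          rcases List.mem_cons.1 ha' with rfl | ha'
          · omega
          · exact hw'.2 a' ha'
      · rintro ⟨h1, h2⟩
        right
        refine ⟨a, ?_, ?_⟩
        · rw [List.mem_range]
          have := h2 a (by simp)
          omega
        · rw [List.mem_map]
          refine ⟨w, ?_, rfl⟩
          rw [ih]
          refine ⟨by simp only [List.length_cons] at h1; omega, ?_⟩
          intro a' ha'
          exact h2 a' (List.mem_cons_of_mem _ ha')

theorem nodup_words (n L : ℕ) : (words n L).Nodup := by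
  induction L with
  | zero => simp [words]
  | succ L ih =>
    rw [words, List.nodup_cons]
    constructor
    · simp
    · rw [List.nodup_flatMap]
      refine ⟨?_, ?_⟩
      · intro a _
        exact ih.map (fun w w' h => by simpa using h)
      · have : (List.range (n + 1)).Pairwise (fun a b => a ≠ b) := List.nodup_range
        refine this.imp ?_
        intro a b hab
        rw [Function.onFun, List.disjoint_left]
        intro w h1 h2
        rw [List.mem_map] at h1 h2
        obtain ⟨w1, -, rfl⟩ := h1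
        obtain ⟨w2, -, h2⟩ := h2
        rw [List.cons.injEq] at h2
        exact hab h2.1.symm

/-! ### Reachable states -/

section reach

variable {β : Type}

/-- There is a path labelled by the word between the states. -/
def Reach (δ : Set (ℕ × β × ℕ)) : ℕ → List β → ℕ → Prop
  | q, [], p => q = p
  | q, a :: w, p => ∃ q', (q, a, q') ∈ δ ∧ Reach δ q' w p

theorem acc_append (δ : Set (ℕ × β × ℕ)) (F : Set ℕ) (w w' : List β) (q : ℕ) :
    Acc δ F q (w ++ w') ↔ ∃ p, Reach δ q w p ∧ Acc δ F p w' := by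
  induction w generalizing q with
  | nil => simp [Reach]
  | cons a w ih =>
    simp only [List.cons_append, Acc, Reach, ih]
    constructor
    · rintro ⟨q', h, p, h1, h2⟩
      exact ⟨p, ⟨q', h, h1⟩, h2⟩
    · rintro ⟨p, ⟨q', h, h1⟩, h2⟩
      exact ⟨q', h, p, h1, h2⟩

theorem reach_le {δ : Set (ℕ × β × ℕ)} {n : ℕ} (hδ : ∀ t ∈ δ, t.2.2 ≤ n) (w : List β) (q p : ℕ)
    (hq : q ≤ n) (h : Reach δ q w p) : p ≤ n := by
  induction w generalizing q with
  | nil =>
    have : q = p := h
    omega
  | cons a w ih =>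
    obtain ⟨q', h1, h2⟩ := h
    exact ih q' (hδ _ h1) h2

open Classical in
/-- The set of reachable states. -/
noncomputable def st (n : ℕ) (δ : Set (ℕ × β × ℕ)) (q : ℕ) (w : List β) : Finset (Fin (n + 1)) :=
  Finset.univ.filter (fun p => Reach δ q w (p : ℕ))

theorem acc_append_st {δ : Set (ℕ × β × ℕ)} {n : ℕ} (hδ : ∀ t ∈ δ, t.2.2 ≤ n) (F : Set ℕ)
    (w w' : List β) (q : ℕ) (hq : q ≤ n) :
    Acc δ F q (w ++ w') ↔ ∃ p ∈ st n δ q w, Acc δ F (p : ℕ) w' := by
  rw [acc_append]
  constructor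
  · rintro ⟨p, h1, h2⟩
    have hp := reach_le hδ w q p hq h1
    refine ⟨⟨p, by omega⟩, ?_, h2⟩
    simpa [st] using h1
  · rintro ⟨p, h1, h2⟩
    refine ⟨p, ?_, h2⟩
    simpa [st] using h1

end reach

theorem acc_letters {δ : Set (ℕ × ℕ × ℕ)} {n : ℕ} (hδ : ∀ t ∈ δ, t.2.1 ≤ n) (F : Set ℕ)
    (w : List ℕ) (q : ℕ) (h : Acc δ F q w) : ∀ a ∈ w, a ≤ n := by
  induction w generalizing q with
  | nil => simp
  | cons b w ih =>
    obtain ⟨q', h1, h2⟩ := h
    intro a ha
    rcases List.mem_cons.1 ha with rfl | ha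
    · exact hδ _ h1
    · exact ih q' h2 a ha

theorem conv_append (x y v : List ℕ) :
    conv (x ++ y) v = conv x (v.take x.length) ++ conv y (v.drop x.length) := by
  induction x generalizing v with
  | nil => simp [conv_nil_nil]
  | cons a x ih =>
    cases v with
    | nil =>
      rw [List.cons_append, conv_cons_nil, ih]
      simp only [List.take_nil, List.drop_nil]
      rw [conv_cons_nil]
      rfl
    | cons b v =>
      rw [List.cons_append, conv_cons_cons, ih]
      simp only [List.length_cons, List.take_succ_cons, List.drop_succ_cons]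
      rw [conv_cons_cons]
      rfl

/-! ### Numbers up to a threshold -/

/-- Equal, or both finite and at least `K`. -/
def Sim (K : ℕ) (a b : ℕ∞) : Prop :=
  a = b ∨ ((K : ℕ∞) ≤ a ∧ (K : ℕ∞) ≤ b ∧ a ≠ ⊤ ∧ b ≠ ⊤)

theorem Sim.refl (K : ℕ) (a : ℕ∞) : Sim K a a := Or.inl rfl

theorem Sim.symm {K : ℕ} {a b : ℕ∞} (h : Sim K a b) : Sim K b a := by
  rcases h with h | ⟨h1, h2, h3, h4⟩
  · exact Or.inl h.symm
  · exact Or.inr ⟨h2, h1, h4, h3⟩

theorem Sim.add {K : ℕ} {a b a' b' : ℕ∞} (h : Sim K a b) (h' : Sim K a' b') :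
    Sim K (a + a') (b + b') := by
  rcases h with rfl | ⟨h1, h2, h3, h4⟩ <;> rcases h' with rfl | ⟨h1', h2', h3', h4'⟩
  · exact Sim.refl _ _
  · rcases eq_or_ne a ⊤ with rfl | ha
    · left; simp
    · right
      exact ⟨h1'.trans le_add_self, h2'.trans le_add_self, by simp [ha, h3'], by simp [ha, h4']⟩
  · rcases eq_or_ne a' ⊤ with rfl | ha
    · left; simp
    · right
      exact ⟨h1.trans le_self_add, h2.trans le_self_add, by simp [ha, h3], by simp [ha, h4]⟩
  · right
    exact ⟨h1.trans le_self_add, h2.trans le_self_add, by simp [h3, h3'], by simp [h4, h4']⟩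

theorem Sim.mul {K : ℕ} (hK : 1 ≤ K) {a b : ℕ∞} (h : Sim K a b) (g : ℕ∞) :
    Sim K (a * g) (b * g) := by
  have hK' : (1 : ℕ∞) ≤ K := by exact_mod_cast hK
  rcases h with rfl | ⟨h1, h2, h3, h4⟩
  · exact Sim.refl _ _
  · rcases eq_or_ne g 0 with rfl | hg0
    · left; simp
    · have ha : a ≠ 0 := fun h => by rw [h] at h1; exact absurd (hK'.trans h1) (by simp)
      have hb : b ≠ 0 := fun h => by rw [h] at h2; exact absurd (hK'.trans h2) (by simp)
      rcases eq_or_ne g ⊤ with rfl | hgt
      · left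
        rw [ENat.mul_top ha, ENat.mul_top hb]
      · right
        have hg1 : 1 ≤ g := Order.one_le_iff_ne_zero.2 hg0
        refine ⟨?_, ?_, ?_, ?_⟩
        · calc (K : ℕ∞) ≤ a := h1
            _ = a * 1 := (mul_one a).symm
            _ ≤ a * g := mul_le_mul_right hg1 a
        · calc (K : ℕ∞) ≤ b := h2
            _ = b * 1 := (mul_one b).symm
            _ ≤ b * g := mul_le_mul_right hg1 b
        · exact WithTop.mul_ne_top h3 hgt
        · exact WithTop.mul_ne_top h4 hgt

theorem Sim.sum {K : ℕ} {ι : Type} (s : Finset ι) (f g : ι → ℕ∞) (h : ∀ i ∈ s, Sim K (f i) (g i)) :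
    Sim K (∑ i ∈ s, f i) (∑ i ∈ s, g i) := by
  classical
  induction s using Finset.induction_on with
  | empty => exact Sim.refl _ _
  | insert a s ha ih =>
    rw [Finset.sum_insert ha, Finset.sum_insert ha]
    exact (h a (Finset.mem_insert_self a s)).add
      (ih fun i hi => h i (Finset.mem_insert_of_mem hi))

theorem Sim.eq_top_iff {K : ℕ} {a b : ℕ∞} (h : Sim K a b) : a = ⊤ ↔ b = ⊤ := by
  rcases h with rfl | ⟨h1, h2, h3, h4⟩
  · rfl
  · simp [h3, h4]

theorem Sim.eq_iff {K : ℕ} {a b : ℕ∞} (h : Sim K a b) {k : ℕ} (hk : k < K) :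
    a = k ↔ b = k := by
  rcases h with rfl | ⟨h1, h2, h3, h4⟩
  · rfl
  · have hk' : (k : ℕ∞) < K := by exact_mod_cast hk
    constructor
    · rintro rfl
      exact absurd h1 (not_le.2 hk')
    · rintro rfl
      exact absurd h2 (not_le.2 hk')

theorem sim_of_min_eq {K a b : ℕ} (h : min K a = min K b) : Sim K (a : ℕ∞) (b : ℕ∞) := by
  rcases Nat.lt_or_ge a K with ha | ha
  · left
    have : a = b := by omega
    rw [this]
  · right
    refine ⟨by exact_mod_cast ha, ?_, by simp, by simp⟩
    have : K ≤ b := by omega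
    exact_mod_cast this

/-! ### The type of a word -/

/-- Cells: reachable states of the two automata, and whether the lengths agree. -/
abbrev Tau (n : ℕ) := Finset (Fin (n + 1)) × Finset (Fin (n + 1)) × Bool

/-- The cell of a prefix `p` relative to `x`. -/
noncomputable def tau (n : ℕ) (c : LCode) (x p : List ℕ) : Tau n :=
  (st n {t | t ∈ c.1.1} c.1.2.1 p, st n {t | t ∈ c.2.1} c.2.2.1 (conv x p),
    decide (p.length = x.length))

/-- The possible tails. -/
def fib {n : ℕ} (c : LCode) (y : List ℕ) (Q : Bool → List ℕ → Prop) (τ : Tau n) :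
    Set (List ℕ) :=
  {s | (τ.2.2 = true ∨ s = []) ∧ (∃ q ∈ τ.1, Acc {t | t ∈ c.1.1} {q | q ∈ c.1.2.2} (q : ℕ) s) ∧
    (∃ r ∈ τ.2.1, Acc {t | t ∈ c.2.1} {q | q ∈ c.2.2.2} (r : ℕ) (conv y s)) ∧ Q τ.2.2 s}

/-- A part of the class of `x ++ y`. -/
def CQ (c : LCode) (x y : List ℕ) (Q : Bool → List ℕ → Prop) : Set (List ℕ) :=
  {v | v ∈ XD c ∧ InR c (x ++ y) v ∧ Q (decide (x.length ≤ v.length)) (v.drop x.length)}

theorem mem_XD_append {n : ℕ} {c : LCode} (h : Bdd n c) (p s : List ℕ) :
    p ++ s ∈ XD c ↔ ∃ q ∈ st n {t | t ∈ c.1.1} c.1.2.1 p,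
      Acc {t | t ∈ c.1.1} {q | q ∈ c.1.2.2} (q : ℕ) s :=
  acc_append_st (fun t ht => (h.dtr t ht).2) _ _ _ _ h.dst

theorem XD_letters {n : ℕ} {c : LCode} (h : Bdd n c) {v : List ℕ} (hv : v ∈ XD c) :
    ∀ a ∈ v, a ≤ n :=
  acc_letters (fun t ht => (h.dtr t ht).1) _ _ _ hv

theorem take_of_cell {x p s : List ℕ} (hp : p.length ≤ x.length)
    (hs : p.length = x.length ∨ s = []) :
    (p ++ s).take x.length = p ∧ (p ++ s).drop x.length = s ∧
      (x.length ≤ (p ++ s).length ↔ p.length = x.length) := by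
  rcases hs with hs | rfl
  · refine ⟨by rw [← hs, List.take_left'  rfl], by rw [← hs, List.drop_left' rfl], ?_⟩
    simp [hs]
  · refine ⟨?_, ?_, ?_⟩
    · rw [List.append_nil]
      exact List.take_of_length_le hp
    · rw [List.append_nil]
      exact List.drop_eq_nil_of_le hp
    · rw [List.append_nil]
      omega

theorem CQ_eq {n : ℕ} {c : LCode} (h : Bdd n c) (x y : List ℕ) (Q : Bool → List ℕ → Prop) :
    CQ c x y Q = ⋃ p ∈ ((words n x.length).toFinset : Set (List ℕ)),
      (fun s => p ++ s) '' fib c y Q (tau n c x p) := by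
  ext v
  simp only [Set.mem_iUnion, Finset.mem_coe, List.mem_toFinset, Set.mem_image, exists_prop]
  constructor
  · rintro ⟨hv, hr, hQ⟩
    have hlen : (v.take x.length).length ≤ x.length := by
      rw [List.length_take]; exact min_le_left _ _
    have hcase : (v.take x.length).length = x.length ∨ v.drop x.length = [] := by
      rcases le_total x.length v.length with hl | hl
      · left; rw [List.length_take]; exact min_eq_left hl
      · right; exact List.drop_eq_nil_of_le hl
    refine ⟨v.take x.length, ?_, v.drop x.length, ⟨?_, ?_, ?_, ?_⟩, List.take_append_drop _ _⟩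
    · rw [mem_words]
      exact ⟨hlen, fun a ha => XD_letters h hv a (List.mem_of_mem_take ha)⟩
    · simp only [tau, decide_eq_true_eq]
      exact hcase
    · have hv' : v.take x.length ++ v.drop x.length ∈ XD c := by
        rw [List.take_append_drop]; exact hv
      exact (mem_XD_append h _ _).1 hv'
    · unfold InR at hr
      rw [conv_append] at hr
      exact (acc_append_st (n := n) h.rtr _ _ _ _ h.rst).1 hr
    · have : decide (x.length ≤ v.length) = (tau n c x (v.take x.length)).2.2 := by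
        simp only [tau]
        congr 1
        rw [List.length_take]
        simp
      rw [← this]
      exact hQ
  · rintro ⟨p, hp, s, ⟨h1, h2, h3, h4⟩, rfl⟩
    rw [mem_words] at hp
    simp only [tau, decide_eq_true_eq] at h1
    obtain ⟨e1, e2, e3⟩ := take_of_cell hp.1 h1
    refine ⟨(mem_XD_append h _ _).2 h2, ?_, ?_⟩
    · unfold InR
      rw [conv_append, e1, e2]
      exact (acc_append_st (n := n) h.rtr _ _ _ _ h.rst).2 h3
    · rw [e2]
      have : decide (x.length ≤ (p ++ s).length) = (tau n c x p).2.2 := by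
        simp only [tau]
        congr 1
        exact propext e3
      rw [this]
      exact h4

/-- Number of prefixes in a cell. -/
noncomputable def NN (n : ℕ) (c : LCode) (x : List ℕ) (τ : Tau n) : ℕ :=
  ((words n x.length).toFinset.filter (fun p => tau n c x p = τ)).card

theorem encard_CQ {n : ℕ} {c : LCode} (h : Bdd n c) (x y : List ℕ) (Q : Bool → List ℕ → Prop) :
    (CQ c x y Q).encard = ∑ τ : Tau n, (NN n c x τ : ℕ∞) * (fib c y Q τ).encard := by
  rw [CQ_eq h, Set.Finite.encard_biUnion (Finset.finite_toSet _)]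
  · rw [finsum_mem_coe_finset]
    have : ∀ p ∈ (words n x.length).toFinset,
        ((fun s => p ++ s) '' fib c y Q (tau n c x p)).encard =
          (fib c y Q (tau n c x p)).encard := fun p _ =>
      Function.Injective.encard_image (List.append_right_injective p) _
    rw [Finset.sum_congr rfl this,
      ← Finset.sum_fiberwise' (words n x.length).toFinset (tau n c x)
        (fun τ => (fib c y Q τ).encard)]
    refine Finset.sum_congr rfl fun τ _ => ?_
    rw [Finset.sum_const, nsmul_eq_mul]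
    rfl
  · intro p hp p' hp' hne
    rw [Function.onFun, Set.disjoint_left]
    rintro _ ⟨s, hs, rfl⟩ ⟨s', hs', e⟩
    rw [Finset.mem_coe, List.mem_toFinset, mem_words] at hp hp'
    have h1 : p.length = x.length ∨ s = [] := by simpa [tau] using hs.1
    have h2 : p'.length = x.length ∨ s' = [] := by simpa [tau] using hs'.1
    have e1 := (take_of_cell hp.1 h1).1
    have e2 := (take_of_cell hp'.1 h2).1
    simp only at e
    rw [e, e1] at e2
    exact hne e2

/-- The type of a word. -/
noncomputable def TT (n k : ℕ) (c : LCode) (x : List ℕ) :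
    Finset (Fin (n + 1)) × (Tau n → Fin (k + 2)) :=
  (st n {t | t ∈ c.1.1} c.1.2.1 x, fun τ => ⟨min (k + 1) (NN n c x τ), by omega⟩)

theorem card_TT (n k : ℕ) :
    Fintype.card (Finset (Fin (n + 1)) × (Tau n → Fin (k + 2))) = bK n k := by
  simp only [Fintype.card_prod, Fintype.card_finset, Fintype.card_fin, Fintype.card_fun,
    Fintype.card_bool, bK]
  congr 2
  ring

theorem sim_CQ {n k : ℕ} {c : LCode} (h : Bdd n c) {x x' : List ℕ}
    (hT : TT n k c x = TT n k c x') (y : List ℕ) (Q : Bool → List ℕ → Prop) :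
    Sim (k + 1) (CQ c x y Q).encard (CQ c x' y Q).encard := by
  rw [encard_CQ h, encard_CQ h]
  refine Sim.sum _ _ _ fun τ _ => Sim.mul (by omega) (sim_of_min_eq ?_) _
  have h2 := congrFun (congrArg Prod.snd hT) τ
  simpa [TT] using h2

theorem XD_congr {n k : ℕ} {c : LCode} (h : Bdd n c) {x x' : List ℕ}
    (hT : TT n k c x = TT n k c x') (y : List ℕ) : x ++ y ∈ XD c ↔ x' ++ y ∈ XD c := by
  rw [mem_XD_append h, mem_XD_append h]
  have h2 : st n {t | t ∈ c.1.1} c.1.2.1 x = st n {t | t ∈ c.1.1} c.1.2.1 x' :=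
    congrArg Prod.fst hT
  rw [h2]

theorem CQ_true (c : LCode) (x y : List ℕ) :
    CQ c x y (fun _ _ => True) = cls (XD c) (InR c) (x ++ y) := by
  ext v
  simp [CQ, cls]

theorem CQ_short (c : LCode) (x y : List ℕ) :
    (CQ c x y (fun b s => b = true → s.length < y.length)).encard = 0 ↔
      ∀ v ∈ XD c, v.length < (x ++ y).length → ¬ InR c (x ++ y) v := by
  rw [Set.encard_eq_zero, Set.eq_empty_iff_forall_notMem]
  refine forall_congr' fun v => ?_
  have key : (decide (x.length ≤ v.length) = true → (v.drop x.length).length < y.length) ↔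
      v.length < (x ++ y).length := by
    rw [decide_eq_true_eq, List.length_drop, List.length_append]
    constructor
    · intro h
      rcases le_or_gt x.length v.length with hl | hl
      · have := h hl; omega
      · omega
    · intro h hl; omega
  constructor
  · intro h1 h2 h3 h4
    exact h1 ⟨h2, h4, key.2 h3⟩
  · rintro h1 ⟨h2, h3, h4⟩
    exact h1 h2 (key.1 h4) h3

/-- The characterization of `ZZ` by class sizes. -/
theorem ZZ_iff {n : ℕ} {c : LCode} (h : Bdd n c) (k : ℕ) (u : List ℕ) :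
    ZZ n c k u ↔ u ∈ XD c ∧
      ((k = 0 ∧ (cls (XD c) (InR c) u).encard = ⊤ ∧
        ∀ v ∈ XD c, v.length < u.length → ¬ InR c u v) ∨
      (k ≠ 0 ∧ (cls (XD c) (InR c) u).encard = k)) := by
  unfold ZZ
  refine and_congr Iff.rfl (or_congr (and_congr Iff.rfl ?_) (and_congr Iff.rfl ?_))
  · rw [long_iff n c h u]
    refine and_congr Iff.rfl ⟨fun h1 v hv hl => ?_, fun h1 v hv hl hD => h1 v hD hl⟩
    exact h1 v ((mem_words _ _ _).2 ⟨hl.le, XD_letters h hv⟩) hl hv
  · constructor
    · rintro ⟨h1, h2⟩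
      rw [encard_cls n c h u h1, h2]
    · intro h1
      have hl : ¬ Long n c u := by
        rw [long_iff n c h u, h1]
        exact ENat.natCast_ne_top k
      refine ⟨hl, ?_⟩
      rw [encard_cls n c h u hl] at h1
      exact_mod_cast h1

theorem ZZ_congr {n k : ℕ} {c : LCode} (h : Bdd n c) {x x' : List ℕ}
    (hT : TT n k c x = TT n k c x') (y : List ℕ) (hz : ZZ n c k (x ++ y)) :
    ZZ n c k (x' ++ y) := by
  rw [ZZ_iff h] at hz ⊢
  have h1 := sim_CQ h hT y (fun _ _ => True)
  rw [CQ_true, CQ_true] at h1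
  refine ⟨(XD_congr h hT y).1 hz.1, ?_⟩
  rcases hz.2 with ⟨h2, h3, h4⟩ | ⟨h2, h3⟩
  · left
    refine ⟨h2, h1.eq_top_iff.1 h3, ?_⟩
    rw [← CQ_short] at h4 ⊢
    have h5 := sim_CQ h hT y (fun b s => b = true → s.length < y.length)
    exact (h5.eq_iff (k := 0) (by omega)).1 h4
  · right
    exact ⟨h2, (h1.eq_iff (by omega)).1 h3⟩

/-! ### Pumping -/

theorem exists_pair (n k : ℕ) (c : LCode) (z : List ℕ) :
    ∃ i j, i < j ∧ j ≤ bK n k ∧ TT n k c (z.take i) = TT n k c (z.take j) := by
  have hcard : Fintype.card (Finset (Fin (n + 1)) × (Tau n → Fin (k + 2))) <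
      Fintype.card (Fin (bK n k + 1)) := by
    rw [card_TT, Fintype.card_fin]
    omega
  obtain ⟨i, j, hij, he⟩ := Fintype.exists_ne_map_eq_of_card_lt
    (fun i : Fin (bK n k + 1) => TT n k c (z.take i)) hcard
  rcases lt_or_gt_of_ne hij with h | h
  · exact ⟨i, j, h, by omega, he⟩
  · exact ⟨j, i, h, by omega, he.symm⟩

theorem cut {n k : ℕ} {c : LCode} (h : Bdd n c) {z : List ℕ} (hz : ZZ n c k z)
    (hl : bK n k ≤ z.length) :
    ∃ z', ZZ n c k z' ∧ z'.length < z.length ∧ z.length ≤ z'.length + bK n k := by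
  obtain ⟨i, j, hij, hj, hT⟩ := exists_pair n k c z
  refine ⟨z.take i ++ z.drop j, ZZ_congr h hT.symm _ ?_, ?_, ?_⟩
  · rw [List.take_append_drop]; exact hz
  · rw [List.length_append, List.length_take, List.length_drop]
    omega
  · rw [List.length_append, List.length_take, List.length_drop]
    omega

theorem pump {n k : ℕ} {c : LCode} (h : Bdd n c) {z : List ℕ} (hz : ZZ n c k z)
    (hl : bK n k ≤ z.length) : ∃ z', ZZ n c k z' ∧ z.length < z'.length := by
  obtain ⟨i, j, hij, hj, hT⟩ := exists_pair n k c z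
  refine ⟨z.take j ++ z.drop i, ZZ_congr h hT _ ?_, ?_⟩
  · rw [List.take_append_drop]; exact hz
  · rw [List.length_append, List.length_take, List.length_drop]
    omega

theorem ZZ_infinite {n k : ℕ} {c : LCode} (h : Bdd n c) (hi : InfZ n c k) :
    {z | ZZ n c k z}.Infinite := by
  obtain ⟨u, -, hu, hz⟩ := hi
  intro hfin
  have hne : {z | ZZ n c k z ∧ bK n k ≤ z.length}.Nonempty := ⟨u, hz, hu⟩
  have hfin' : {z | ZZ n c k z ∧ bK n k ≤ z.length}.Finite := hfin.subset fun z hz => hz.1
  obtain ⟨z, hz, hmax⟩ := hfin'.exists_maximalFor (fun z : List ℕ => z.length) _ hne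
  obtain ⟨z', hz', hlt⟩ := pump h hz.1 hz.2
  have := hmax (j := z') ⟨hz', by have := hz.2; omega⟩ hlt.le
  simp only at this
  omega

theorem ZZ_length_lt {n k : ℕ} {c : LCode} (h : Bdd n c) (hi : ¬ InfZ n c k) {z : List ℕ}
    (hz : ZZ n c k z) : z.length < bK n k := by
  by_contra hcon
  push Not at hcon
  have hP : ∃ m, ∃ z, ZZ n c k z ∧ bK n k ≤ z.length ∧ z.length = m := ⟨_, z, hz, hcon, rfl⟩
  classical
  obtain ⟨z₀, hz₀, hl₀, hm₀⟩ := Nat.find_spec hP
  obtain ⟨z₁, hz₁, hl₁, hl₂⟩ := cut h hz₀ hl₀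
  by_cases hb : bK n k ≤ z₁.length
  · exact Nat.find_min hP (m := z₁.length) (by omega) ⟨z₁, hz₁, hb, rfl⟩
  · apply hi
    refine ⟨z₀, ?_, hl₀, hz₀⟩
    rw [mem_words]
    refine ⟨by omega, XD_letters h ((ZZ_iff h k z₀).1 hz₀).1⟩

/-! ### Classes and `ZZ` -/

theorem cls_mem_classesOf {n k : ℕ} {c : LCode} (h : Bdd n c) {u : List ℕ} (hz : ZZ n c k u) :
    cls (XD c) (InR c) u ∈ classesOf (XD c) (InR c) (szk k) := by
  rw [ZZ_iff h] at hz
  refine ⟨⟨u, hz.1, rfl⟩, ?_⟩
  rcases hz.2 with ⟨h2, h3, -⟩ | ⟨h2, h3⟩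
  · rw [h3, szk, if_pos h2]
  · rw [h3, szk, if_neg h2]

theorem exists_ZZ {n k : ℕ} {c : LCode} (h : Bdd n c) (he : EqOn (XD c) (InR c))
    {C : Set (List ℕ)} (hC : C ∈ classesOf (XD c) (InR c) (szk k)) :
    ∃ u ∈ C, ZZ n c k u := by
  obtain ⟨⟨u, hu, rfl⟩, hk⟩ := hC
  by_cases hk0 : k = 0
  · -- take a shortest element
    have hP : ∃ m, ∃ z ∈ cls (XD c) (InR c) u, z.length = m := ⟨_, u, he.mem_cls hu, rfl⟩
    classical
    obtain ⟨z, hz, hm⟩ := Nat.find_spec hP
    refine ⟨z, hz, ?_⟩
    have hcl := (classes_subset_mem he ⟨u, hu, rfl⟩ hz).1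
    rw [ZZ_iff h]
    refine ⟨hz.1, Or.inl ⟨hk0, ?_, ?_⟩⟩
    · rw [← hcl, hk, szk, if_pos hk0]
    · intro v hv hl hr
      have hv' : v ∈ cls (XD c) (InR c) u := by
        rw [hcl]; exact ⟨hv, hr⟩
      exact Nat.find_min hP (m := v.length) (by omega) ⟨v, hv', rfl⟩
  · refine ⟨u, he.mem_cls hu, ?_⟩
    rw [ZZ_iff h]
    refine ⟨hu, Or.inr ⟨hk0, ?_⟩⟩
    rw [hk, szk, if_neg hk0]

theorem finite_ZZ_class {n k : ℕ} {c : LCode} (h : Bdd n c)
    {C : Set (List ℕ)} (hC : C ∈ classesOf (XD c) (InR c) (szk k))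
    (he : EqOn (XD c) (InR c)) : {u | ZZ n c k u ∧ u ∈ C}.Finite := by
  by_cases hk0 : k = 0
  · by_cases hne : ∃ u, ZZ n c k u ∧ u ∈ C
    · obtain ⟨u, hu, huC⟩ := hne
      have hcl := (classes_subset_mem he hC.1 huC).1
      refine (Finset.finite_toSet (words n u.length).toFinset).subset ?_
      rintro v ⟨hv, hvC⟩
      rw [Finset.mem_coe, List.mem_toFinset, mem_words]
      have hv1 := (ZZ_iff h k v).1 hv
      have hcl' := (classes_subset_mem he hC.1 hvC).1
      refine ⟨?_, XD_letters h hv1.1⟩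
      rcases hv1.2 with ⟨-, -, h4⟩ | ⟨h2, -⟩
      · by_contra hcon
        push Not at hcon
        refine h4 u ((ZZ_iff h k u).1 hu).1 hcon ?_
        have : u ∈ cls (XD c) (InR c) v := hcl' ▸ huC
        exact this.2
      · exact absurd hk0 h2
    · push Not at hne
      have : {u | ZZ n c k u ∧ u ∈ C} = ∅ := by
        ext u
        simp only [Set.mem_ofPred_eq, Set.mem_empty_iff_false, iff_false, not_and]
        exact hne u
      rw [this]
      exact Set.finite_empty
  · have : C.encard ≠ ⊤ := by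
      rw [hC.2, szk, if_neg hk0]
      exact ENat.natCast_ne_top k
    exact (Set.encard_ne_top_iff.1 this).subset fun u hu => hu.2

end Cnt

open Cnt

theorem infZ_spec (n : ℕ) (c : LCode) (h : Bdd n c) (he : EqOn (XD c) (InR c)) (k : ℕ)
    (hi : InfZ n c k) : (classesOf (XD c) (InR c) (szk k)).encard = ⊤ := by
  rw [Set.encard_eq_top_iff]
  intro hfin
  apply ZZ_infinite h hi
  have : {z | ZZ n c k z} ⊆ ⋃ C ∈ classesOf (XD c) (InR c) (szk k), {u | ZZ n c k u ∧ u ∈ C} := by
    intro z hz
    simp only [Set.mem_iUnion]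
    exact ⟨cls (XD c) (InR c) z, cls_mem_classesOf h hz, hz,
      he.mem_cls ((ZZ_iff h k z).1 hz).1⟩
  refine Set.Finite.subset ?_ this
  exact hfin.biUnion fun C hC => finite_ZZ_class h hC he

theorem cntZ_spec (n : ℕ) (c : LCode) (h : Bdd n c) (he : EqOn (XD c) (InR c)) (k : ℕ)
    (hi : ¬ InfZ n c k) : (classesOf (XD c) (InR c) (szk k)).encard = cntZ n c k := by
  classical
  have hmem : ∀ z, ZZ n c k z → z ∈ words n (bK n k) := fun z hz =>
    (mem_words _ _ _).2 ⟨(ZZ_length_lt h hi hz).le, XD_letters h ((ZZ_iff h k z).1 hz).1⟩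
  have hcnt : ({u | RepZ n c k u} : Set (List ℕ)).encard = cntZ n c k := by
    have e1 : ({u | RepZ n c k u} : Set (List ℕ)) =
        (((words n (bK n k)).filter (fun u => RepZ n c k u)).toFinset : Set (List ℕ)) := by
      ext u
      simp only [Set.mem_ofPred_eq, Finset.mem_coe, List.mem_toFinset, List.mem_filter,
        decide_eq_true_eq]
      exact ⟨fun hu => ⟨hmem u hu.1, hu⟩, fun hu => hu.2⟩
    rw [e1, Set.encard_coe_eq_coe_finsetCard,
      List.toFinset_card_of_nodup ((nodup_words n _).filter _)]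
    rfl
  rw [← hcnt]
  have himg : classesOf (XD c) (InR c) (szk k) =
      (fun u => cls (XD c) (InR c) u) '' {u | RepZ n c k u} := by
    ext C
    constructor
    · intro hC
      obtain ⟨u, huC, hu⟩ := exists_ZZ h he hC
      have hP : ∃ m, ∃ z ∈ C, ZZ n c k z ∧ encode z = m := ⟨_, u, huC, hu, rfl⟩
      obtain ⟨z, hzC, hz, hm⟩ := Nat.find_spec hP
      refine ⟨z, ⟨hz, ?_⟩, (classes_subset_mem he hC.1 hzC).1.symm⟩
      intro v hv hl hvZ hr
      have hvC : v ∈ C := by
        rw [(classes_subset_mem he hC.1 hzC).1]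
        exact ⟨((ZZ_iff h k v).1 hvZ).1, hr⟩
      exact Nat.find_min hP (m := encode v) (by omega) ⟨v, hvC, hvZ, rfl⟩
    · rintro ⟨u, hu, rfl⟩
      exact cls_mem_classesOf h hu.1
  rw [himg]
  refine Set.InjOn.encard_image ?_
  intro u hu v hv e
  simp only at e
  have huX := ((ZZ_iff h k u).1 hu.1).1
  have hvX := ((ZZ_iff h k v).1 hv.1).1
  have hr : InR c u v := (he.cls_eq_iff huX hvX).1 e
  have hr' : InR c v u := he.symm u huX v hvX hr
  rcases lt_trichotomy (encode u) (encode v) with hlt | heq | hlt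
  · exact absurd hr' (hv.2 u (hmem u hu.1) hlt hu.1)
  · exact Encodable.encode_injective heq
  · exact absurd hr (hu.2 v (hmem v hv.1) hlt hv.1)

end Pool.Agent.H81
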