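import Mathlib
import Pool.Agent.H81.PiDefs
import Pool.Agent.H81.PiCount

set_option autoImplicit false

/-!
# Decoding of presentations, and the bounded test of validity
-/

namespace Pool.Agent.H81

open Encodable

namespace Val

/-! ### Decoding -/

theorem decode_multiset {α : Type} [Encodable α] (n : ℕ) :
    decode (α := Multiset α) n =
      Option.map (fun l : List α => Multiset.ofList l) (decode (α := List α) n) := rfl

theorem decode_subtype {α : Type} (P : α → Prop) [Encodable α] [DecidablePred P] (n : ℕ) :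
    decode (α := {a : α // P a}) n =
      (decode (α := α) n).bind fun a => if h : P a then some ⟨a, h⟩ else none := rfl

theorem decode_finset_aux {α : Type} [Encodable α] (n : ℕ) :
    decode (α := Finset α) n =
      Option.map (fun s : {s : Multiset α // s.Nodup} => (⟨s.1, s.2⟩ : Finset α))
        (letI := decidableEqOfEncodable α; decode (α := {s : Multiset α // s.Nodup}) n) := by
  let _ := decidableEqOfEncodable α
  exact Encodable.decode_ofEquiv _ n

theorem decode_finset {α : Type} [Encodable α] [DecidableEq α] (n : ℕ) (s : Finset α) :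
    decode n = some s ↔ ∃ l : List α, decode n = some l ∧ l.Nodup ∧ l.toFinset = s := by
  rw [decode_finset_aux, decode_subtype, decode_multiset]
  cases hl : decode (α := List α) n with
  | none => simp
  | some l =>
    simp only [Option.map_some, Option.bind_some, Multiset.coe_nodup]
    by_cases hnd : l.Nodup
    · simp only [hnd, dite_true, Option.map_some, Option.some.injEq]
      constructor
      · intro h
        refine ⟨l, rfl, hnd, ?_⟩
        rw [← h]
        ext a
        simp
      · rintro ⟨l', rfl, -, rfl⟩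
        ext a
        simp
    · simp only [hnd, dite_false, Option.map_none, Option.some.injEq]
      constructor
      · intro h; exact absurd h (by simp)
      · rintro ⟨l', rfl, h, -⟩
        exact absurd h hnd

theorem decode_prod {α β : Type} [Encodable α] [Encodable β] (n : ℕ) (p : α × β) :
    decode n = some p ↔ decode n.unpair.1 = some p.1 ∧ decode n.unpair.2 = some p.2 := by
  rw [Encodable.decode_prod_val]
  cases h1 : decode (α := α) n.unpair.1 with
  | none => simp
  | some a =>
    cases h2 : decode (α := β) n.unpair.2 with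
    | none => simp
    | some b =>
      obtain ⟨p1, p2⟩ := p
      simp

theorem decode_list_mem {α : Type} [Encodable α] (n : ℕ) (l : List α) (h : decode n = some l)
    (a : α) (ha : a ∈ l) : ∃ m ≤ n, decode m = some a := by
  induction l generalizing n with
  | nil => simp at ha
  | cons b l ih =>
    cases n with
    | zero => simp at h
    | succ v =>
      rw [← Nat.succ_eq_add_one, Encodable.decode_list_succ] at h
      cases h1 : decode (α := α) v.unpair.1 with
      | none =>
        rw [h1] at h
        exact absurd h (by simp [Seq.seq])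
      | some b' =>
        cases h2 : decode (α := List α) v.unpair.2 with
        | none =>
          rw [h1, h2] at h
          exact absurd h (by simp [Seq.seq])
        | some l' =>
          rw [h1, h2] at h
          simp at h
          obtain ⟨rfl, rfl⟩ := h
          rcases List.mem_cons.1 ha with rfl | ha
          · exact ⟨v.unpair.1, (Nat.unpair_left_le v).trans (Nat.le_succ v), h1⟩
          · obtain ⟨m, hm, hd⟩ := ih v.unpair.2 h2 ha
            exact ⟨m, hm.trans ((Nat.unpair_right_le v).trans (Nat.le_succ v)), hd⟩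

theorem decode_nat_eq {n m : ℕ} (h : decode (α := ℕ) n = some m) : m = n := by
  simpa using h.symm

end Val

open Val

/-- finset version of a list code -/
def toP (c : LCode) : PCode :=
  ((c.1.1.toFinset, c.1.2.1, c.1.2.2.toFinset), (c.2.1.toFinset, c.2.2.1, c.2.2.2.toFinset))

theorem decode_PCode (n : ℕ) (p : PCode) : decode n = some p ↔
    ∃ c : LCode, decode n = some c ∧ NodupC c ∧ toP c = p := by
  obtain ⟨⟨p1, p2, p3⟩, ⟨p4, p5, p6⟩⟩ := p
  simp only [decode_prod, decode_finset]
  constructor
  · rintro ⟨⟨⟨l1, h1, n1, rfl⟩, h2, ⟨l3, h3, n3, rfl⟩⟩, ⟨⟨l4, h4, n4, rfl⟩, h5, ⟨l6, h6, n6, rfl⟩⟩⟩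
    exact ⟨((l1, p2, l3), (l4, p5, l6)), ⟨⟨h1, h2, h3⟩, h4, h5, h6⟩, ⟨n1, n3, n4, n6⟩, rfl⟩
  · rintro ⟨⟨⟨l1, q2, l3⟩, ⟨l4, q5, l6⟩⟩, ⟨⟨h1, h2, h3⟩, h4, h5, h6⟩, ⟨n1, n3, n4, n6⟩, e⟩
    simp only [toP, Prod.mk.injEq] at e
    obtain ⟨⟨rfl, rfl, rfl⟩, rfl, rfl, rfl⟩ := e
    exact ⟨⟨⟨l1, h1, n1, rfl⟩, h2, ⟨l3, h3, n3, rfl⟩⟩, ⟨⟨l4, h4, n4, rfl⟩, h5, ⟨l6, h6, n6, rfl⟩⟩⟩

theorem bdd_of_decode (n : ℕ) (c : LCode) (h : decode n = some c) : Bdd n c := by
  obtain ⟨⟨l1, q2, l3⟩, ⟨l4, q5, l6⟩⟩ := c
  simp only [decode_prod] at h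
  obtain ⟨⟨h1, h2, h3⟩, h4, h5, h6⟩ := h
  have u1 : ∀ m : ℕ, m.unpair.1 ≤ m := Nat.unpair_left_le
  have u2 : ∀ m : ℕ, m.unpair.2 ≤ m := Nat.unpair_right_le
  refine ⟨?_, ?_, ?_, ?_⟩
  · intro t ht
    obtain ⟨m, hm, hd⟩ := decode_list_mem _ _ h1 t ht
    simp only [decode_prod] at hd
    obtain ⟨-, hd2, hd3⟩ := hd
    rw [decode_nat_eq hd2, decode_nat_eq hd3]
    have hmn : m ≤ n := hm.trans ((u1 _).trans (u1 _))
    exact ⟨((u1 _).trans (u2 _)).trans hmn, ((u2 _).trans (u2 _)).trans hmn⟩
  · show q2 ≤ n
    rw [decode_nat_eq h2]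
    exact (u1 _).trans ((u2 _).trans (u1 _))
  · intro t ht
    obtain ⟨m, hm, hd⟩ := decode_list_mem _ _ h4 t ht
    simp only [decode_prod] at hd
    obtain ⟨-, -, hd3⟩ := hd
    rw [decode_nat_eq hd3]
    have hmn : m ≤ n := hm.trans ((u1 _).trans (u2 _))
    exact ((u2 _).trans (u2 _)).trans hmn
  · show q5 ≤ n
    rw [decode_nat_eq h5]
    exact (u1 _).trans ((u2 _).trans (u2 _))

namespace Val

/-! ### Cutting -/

theorem conv_split (i : ℕ) (x y : List ℕ) :
    conv x y = conv (x.take i) (y.take i) ++ conv (x.drop i) (y.drop i) := by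
  induction i generalizing x y with
  | zero => simp [conv_nil_nil]
  | succ i ih =>
    cases x with
    | nil =>
      cases y with
      | nil => simp [conv_nil_nil]
      | cons b y =>
        rw [conv_nil_cons, ih]
        simp only [List.take_nil, List.drop_nil, List.take_succ_cons, List.drop_succ_cons]
        rw [conv_nil_cons]
        rfl
    | cons a x =>
      cases y with
      | nil =>
        rw [conv_cons_nil, ih]
        simp only [List.take_nil, List.drop_nil, List.take_succ_cons, List.drop_succ_cons]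
        rw [conv_cons_nil]
        rfl
      | cons b y =>
        rw [conv_cons_cons, ih]
        simp only [List.take_succ_cons, List.drop_succ_cons]
        rw [conv_cons_cons]
        rfl

/-- Remove the positions from `i` to `j`. -/
def cutw (i j : ℕ) (x : List ℕ) : List ℕ := x.take i ++ x.drop j

theorem cutw_take {i j : ℕ} (hij : i < j) (x : List ℕ) : (cutw i j x).take i = x.take i := by
  unfold cutw
  rcases le_total i x.length with h | h
  · rw [List.take_append_of_le_length (by rw [List.length_take]; omega), List.take_take]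
    simp
  · rw [List.drop_eq_nil_of_le (by omega), List.append_nil, List.take_take]
    simp

theorem cutw_drop {i j : ℕ} (hij : i < j) (x : List ℕ) : (cutw i j x).drop i = x.drop j := by
  unfold cutw
  rcases le_total i x.length with h | h
  · rw [List.drop_left' (by rw [List.length_take]; omega)]
  · rw [List.drop_eq_nil_of_le (show x.length ≤ j by omega), List.append_nil,
      List.drop_eq_nil_of_le (by rw [List.length_take]; omega)]

theorem length_cutw {i j : ℕ} (hij : i < j) (x : List ℕ) :
    (cutw i j x).length ≤ x.length ∧ (j < x.length → (cutw i j x).length < x.length) := by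
  unfold cutw
  rw [List.length_append, List.length_take, List.length_drop]
  omega

theorem mem_cutw {i j : ℕ} {x : List ℕ} {a : ℕ} (h : a ∈ cutw i j x) : a ∈ x := by
  unfold cutw at h
  rcases List.mem_append.1 h with h | h
  · exact List.mem_of_mem_take h
  · exact List.mem_of_mem_drop h

/-- The type of a position in a triple of words. -/
noncomputable def ptype (n : ℕ) (c : LCode) (f : Fin 3 → List ℕ) (i : ℕ) :
    (Fin 3 → Finset (Fin (n + 1))) × (Fin 3 × Fin 3 → Finset (Fin (n + 1))) :=
  (fun a => Cnt.st n {t | t ∈ c.1.1} c.1.2.1 ((f a).take i),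
    fun p => Cnt.st n {t | t ∈ c.2.1} c.2.2.1 (conv ((f p.1).take i) ((f p.2).take i)))

theorem card_ptype (n : ℕ) :
    Fintype.card ((Fin 3 → Finset (Fin (n + 1))) × (Fin 3 × Fin 3 → Finset (Fin (n + 1)))) =
      bV n := by
  simp only [Fintype.card_prod, Fintype.card_finset, Fintype.card_fin, Fintype.card_fun, bV]
  rw [← pow_mul, ← pow_mul, ← pow_add]
  congr 1
  ring

theorem cut_triple {n : ℕ} {c : LCode} (h : Bdd n c) (f : Fin 3 → List ℕ)
    (hf : ∃ a, bV n < (f a).length) :
    ∃ g : Fin 3 → List ℕ, (∀ a, InD c (g a) ↔ InD c (f a)) ∧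
      (∀ a b, InR c (g a) (g b) ↔ InR c (f a) (f b)) ∧
      (∀ a, ∀ x ∈ g a, x ∈ f a) ∧ ∑ a, (g a).length < ∑ a, (f a).length := by
  have hcard : Fintype.card ((Fin 3 → Finset (Fin (n + 1))) ×
      (Fin 3 × Fin 3 → Finset (Fin (n + 1)))) < Fintype.card (Fin (bV n + 1)) := by
    rw [card_ptype, Fintype.card_fin]
    omega
  obtain ⟨i, j, hij, hj, hT⟩ : ∃ i j, i < j ∧ j ≤ bV n ∧ ptype n c f i = ptype n c f j := by
    obtain ⟨i, j, hij, he⟩ := Fintype.exists_ne_map_eq_of_card_lt
      (fun i : Fin (bV n + 1) => ptype n c f i) hcard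
    rcases lt_or_gt_of_ne hij with h | h
    · exact ⟨i, j, h, by omega, he⟩
    · exact ⟨j, i, h, by omega, he.symm⟩
  have hT1 : ∀ a, Cnt.st n {t | t ∈ c.1.1} c.1.2.1 ((f a).take i) =
      Cnt.st n {t | t ∈ c.1.1} c.1.2.1 ((f a).take j) := fun a =>
    congrFun (congrArg Prod.fst hT) a
  have hT2 : ∀ a b, Cnt.st n {t | t ∈ c.2.1} c.2.2.1 (conv ((f a).take i) ((f b).take i)) =
      Cnt.st n {t | t ∈ c.2.1} c.2.2.1 (conv ((f a).take j) ((f b).take j)) := fun a b =>
    congrFun (congrArg Prod.snd hT) (a, b)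
  refine ⟨fun a => cutw i j (f a), ?_, ?_, ?_, ?_⟩
  · intro a
    have e1 : f a = (f a).take j ++ (f a).drop j := (List.take_append_drop _ _).symm
    have e2 := Cnt.mem_XD_append h ((f a).take i) ((f a).drop j)
    have e3 := Cnt.mem_XD_append h ((f a).take j) ((f a).drop j)
    rw [hT1 a] at e2
    rw [← e1] at e3
    exact e2.trans e3.symm
  · intro a b
    unfold InR
    rw [conv_split i (cutw i j (f a)) (cutw i j (f b)), cutw_take hij, cutw_take hij,
      cutw_drop hij, cutw_drop hij, conv_split j (f a) (f b)]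
    rw [Cnt.acc_append_st (n := n) (δ := {t | t ∈ c.2.1}) h.rtr _ _ _ _ h.rst,
      Cnt.acc_append_st (n := n) (δ := {t | t ∈ c.2.1}) h.rtr _ _ _ _ h.rst, hT2 a b]
  · intro a x hx
    exact mem_cutw hx
  · obtain ⟨a, ha⟩ := hf
    refine Finset.sum_lt_sum (fun b _ => (length_cutw hij (f b)).1)
      ⟨a, Finset.mem_univ a, (length_cutw hij (f a)).2 (by omega)⟩

/-- The three conditions for a triple. -/
def Good (c : LCode) (f : Fin 3 → List ℕ) : Prop :=
  (InD c (f 0) → InR c (f 0) (f 0)) ∧
    (InD c (f 0) → InD c (f 1) → InR c (f 0) (f 1) → InR c (f 1) (f 0)) ∧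
    (InD c (f 0) → InD c (f 1) → InD c (f 2) → InR c (f 0) (f 1) → InR c (f 1) (f 2) →
      InR c (f 0) (f 2))

theorem good_of_valid {n : ℕ} {c : LCode} (h : Bdd n c) (hv : ValidL n c) (N : ℕ)
    (f : Fin 3 → List ℕ) (hN : ∑ a, (f a).length = N) (hf : ∀ a, ∀ x ∈ f a, x ≤ n) :
    Good c f := by
  induction N using Nat.strong_induction_on generalizing f with
  | _ N ih =>
    by_cases hl : ∃ a, bV n < (f a).length
    · obtain ⟨g, h1, h2, h3, h4⟩ := cut_triple h f hl
      have := ih _ (by omega) g rfl (fun a x hx => hf a x (h3 a x hx))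
      unfold Good at this ⊢
      simp only [h1, h2] at this
      exact this
    · push Not at hl
      have hw : ∀ a, f a ∈ words n (bV n) := fun a => (Cnt.mem_words _ _ _).2 ⟨hl a, hf a⟩
      exact hv.2 (f 0) (hw 0) (f 1) (hw 1) (f 2) (hw 2)

end Val

theorem validL_iff (n : ℕ) (c : LCode) (h : Bdd n c) :
    ValidL n c ↔ NodupC c ∧ EqOn (XD c) (InR c) := by
  constructor
  · intro hv
    refine ⟨hv.1, ⟨?_, ?_, ?_⟩⟩
    · intro u hu
      have := good_of_valid h hv _ ![u, [], []] rfl (by
        intro a
        fin_cases a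
        · exact Cnt.XD_letters h hu
        · simp
        · simp)
      exact this.1 hu
    · intro u hu v hv' hr
      have := good_of_valid h hv _ ![u, v, []] rfl (by
        intro a
        fin_cases a
        · exact Cnt.XD_letters h hu
        · exact Cnt.XD_letters h hv'
        · simp)
      exact this.2.1 hu hv' hr
    · intro u hu v hv' w hw h1 h2
      have := good_of_valid h hv _ ![u, v, w] rfl (by
        intro a
        fin_cases a
        · exact Cnt.XD_letters h hu
        · exact Cnt.XD_letters h hv'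
        · exact Cnt.XD_letters h hw)
      exact this.2.2 hu hv' hw h1 h2
  · rintro ⟨h1, h2⟩
    refine ⟨h1, fun u _ v _ w _ => ⟨fun hu => h2.refl u hu, fun hu hv hr => h2.symm u hu v hv hr,
      fun hu hv hw hr hr' => h2.trans u hu v hv w hw hr hr'⟩⟩

end Pool.Agent.H81
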