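import Mathlib
import Pool.Agent.H81.Hard2
import Pool.Agent.H81.PiValid

set_option autoImplicit false

/-!
# The reduction: computability, and the hardness theorem
-/

namespace Pool.Agent.H81

open Encodable

section dedup

/-- Removal of duplicates. -/
def dd {α : Type} [DecidableEq α] (l : List α) : List α := l.foldr (fun a acc => if a ∈ acc then acc else a :: acc) []

theorem dd_cons {α : Type} [DecidableEq α] (a : α) (l : List α) : dd (a :: l) = if a ∈ dd l then dd l else a :: dd l := rfl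

theorem mem_dd {α : Type} [DecidableEq α] (l : List α) (a : α) : a ∈ dd l ↔ a ∈ l := by
  induction l with
  | nil => rfl
  | cons b l ih =>
    rw [dd_cons]
    split_ifs with h
    · rw [ih, List.mem_cons]
      constructor
      · exact Or.inr
      · rintro (rfl | h')
        · exact ih.1 h |> fun h => h
        · exact h'
    · rw [List.mem_cons, List.mem_cons, ih]

theorem nodup_dd {α : Type} [DecidableEq α] (l : List α) : (dd l).Nodup := by
  induction l with
  | nil => exact List.nodup_nil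
  | cons b l ih =>
    rw [dd_cons]
    split_ifs with h
    · exact ih
    · exact List.nodup_cons.2 ⟨h, ih⟩

theorem mem_primrec {α : Type} [Primcodable α] : PrimrecRel (fun (b : α) (L : List α) => b ∈ L) := by
  have h : PrimrecRel (fun (L : List α) (b : α) => ∃ a ∈ L, a = b) :=
    (Primrec.eq (α := α)).exists_mem_list
  exact h.swap.of_eq (fun a b => by
    constructor
    · rintro ⟨c, hc, rfl⟩; exact hc
    · intro h; exact ⟨_, h, rfl⟩)

theorem dd_primrec {α : Type} [Primcodable α] [DecidableEq α] : Primrec (dd : List α → List α) := by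
  have h1 : PrimrecPred (fun q : List α × (α × List α) => q.2.1 ∈ q.2.2) :=
    mem_primrec.comp (Primrec.fst.comp Primrec.snd) (Primrec.snd.comp Primrec.snd)
  have h2 : Primrec (fun q : List α × (α × List α) =>
      if q.2.1 ∈ q.2.2 then q.2.2 else q.2.1 :: q.2.2) :=
    Primrec.ite h1 (Primrec.snd.comp Primrec.snd)
      (Primrec.list_cons.comp (Primrec.fst.comp Primrec.snd) (Primrec.snd.comp Primrec.snd))
  exact Primrec.list_foldr (f := fun l : List α => l) (g := fun _ : List α => ([] : List α))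
    (h := fun (_ : List α) (p : α × List α) => if p.1 ∈ p.2 then p.2 else p.1 :: p.2)
    Primrec.id (Primrec.const _) h2

end dedup

theorem SP_primrec : Primrec SP := by
  have h1 : Primrec (fun q : ℕ × ℕ => (q.2 + 3, q.2)) :=
    Primrec.pair (Primrec.nat_add.comp Primrec.snd (Primrec.const 3)) Primrec.snd
  have h2 : Primrec (fun x : ℕ => (List.range (x + 1)).map (fun i => (i + 3, i))) :=
    Primrec.list_map (f := fun x : ℕ => List.range (x + 1)) (g := fun (_ : ℕ) (i : ℕ) => (i + 3, i))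
      (Primrec.list_range.comp Primrec.succ) h1
  exact Primrec.list_cons.comp (Primrec.const (2, 0)) h2

/-- Contribution of one source in `sl`. -/
def slG (k : ℕ) (q : (ℕ × List ℕ) × (ℕ × ℕ)) : List (ℕ × ℕ) :=
  if k = 0 then [(q.2.1, q.2.2 + 3)]
  else if k = 1 then (if q.2.2 < q.1.1 then [(q.2.1, q.2.2 + 4)] else [])
  else if k = 2 then (if q.2.2 < q.1.1 then [(q.2.1, q.2.2 + 4)] else [(q.2.1, 0)])
  else if k = 3 then [(q.2.1, 0)]
  else (if q.2.2 ∈ q.1.2 then [(q.2.1, 0)] else [])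

theorem slG_primrec (k : ℕ) : Primrec (slG k) := by
  have hs : Primrec (fun q : (ℕ × List ℕ) × (ℕ × ℕ) => q.2.1) := Primrec.fst.comp Primrec.snd
  have hp : Primrec (fun q : (ℕ × List ℕ) × (ℕ × ℕ) => q.2.2) := Primrec.snd.comp Primrec.snd
  have hx : Primrec (fun q : (ℕ × List ℕ) × (ℕ × ℕ) => q.1.1) := Primrec.fst.comp Primrec.fst
  have hA : Primrec (fun q : (ℕ × List ℕ) × (ℕ × ℕ) => q.1.2) := Primrec.snd.comp Primrec.fst
  have single : ∀ {g : (ℕ × List ℕ) × (ℕ × ℕ) → ℕ}, Primrec g →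
      Primrec (fun q : (ℕ × List ℕ) × (ℕ × ℕ) => [(q.2.1, g q)]) := fun hg =>
    Primrec.list_cons.comp (Primrec.pair hs hg) (Primrec.const [])
  have h3 := single (Primrec.nat_add.comp hp (Primrec.const 3))
  have h4 := single (Primrec.nat_add.comp hp (Primrec.const 4))
  have h0 := single (Primrec.const 0)
  have hlt : PrimrecPred (fun q : (ℕ × List ℕ) × (ℕ × ℕ) => q.2.2 < q.1.1) :=
    Primrec.nat_lt.comp hp hx
  have hmem : PrimrecPred (fun q : (ℕ × List ℕ) × (ℕ × ℕ) => q.2.2 ∈ q.1.2) :=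
    mem_primrec.comp hp hA
  unfold slG
  by_cases k0 : k = 0
  · simp only [k0, if_true]; exact h3
  · by_cases k1 : k = 1
    · simp only [k1, if_true, one_ne_zero, if_false]
      exact Primrec.ite hlt h4 (Primrec.const [])
    · by_cases k2 : k = 2
      · simp only [k0, k1, if_false, if_pos k2]
        exact Primrec.ite hlt h4 h0
      · by_cases k3 : k = 3
        · simp only [k0, k1, k2, if_false, if_pos k3]
          exact h0
        · simp only [k0, k1, k2, k3, if_false]
          exact Primrec.ite hmem h0 (Primrec.const [])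

theorem sl_primrec (k : ℕ) : Primrec (fun q : ℕ × List ℕ => sl q.1 q.2 k) := by
  have h1 : Primrec (fun q : ℕ × List ℕ => (SP q.1).flatMap (fun p => slG k (q, p))) :=
    Primrec.list_flatMap (f := fun q : ℕ × List ℕ => SP q.1)
      (g := fun (q : ℕ × List ℕ) (p : ℕ × ℕ) => slG k (q, p))
      (SP_primrec.comp Primrec.fst) (slG_primrec k)
  exact Primrec.list_cons.comp (Primrec.const (0, 0)) h1

/-- Transitions of one kind. -/
def trk (M : List (Option ℕ × Option ℕ)) (l : List (ℕ × ℕ)) :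
    List (ℕ × (Option ℕ × Option ℕ) × ℕ) :=
  l.flatMap (fun q => M.map (fun p => (q.1, p, q.2)))

theorem trk_primrec (M : List (Option ℕ × Option ℕ)) : Primrec (trk M) := by
  have h1 : Primrec (fun r : (List (ℕ × ℕ) × (ℕ × ℕ)) × (Option ℕ × Option ℕ) =>
      (r.1.2.1, r.2, r.1.2.2)) :=
    Primrec.pair (Primrec.fst.comp (Primrec.snd.comp Primrec.fst))
      (Primrec.pair Primrec.snd (Primrec.snd.comp (Primrec.snd.comp Primrec.fst)))
  have h2 : Primrec (fun r : List (ℕ × ℕ) × (ℕ × ℕ) => M.map (fun p => (r.2.1, p, r.2.2))) :=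
    Primrec.list_map (f := fun _ : List (ℕ × ℕ) × (ℕ × ℕ) => M)
      (g := fun (r : List (ℕ × ℕ) × (ℕ × ℕ)) (p : Option ℕ × Option ℕ) => (r.2.1, p, r.2.2))
      (Primrec.const M) h1
  exact Primrec.list_flatMap (f := fun l : List (ℕ × ℕ) => l)
    (g := fun (_ : List (ℕ × ℕ)) (q : ℕ × ℕ) => M.map (fun p => (q.1, p, q.2)))
    Primrec.id h2

theorem trx_eq (LKs : ℕ → List (Option ℕ × Option ℕ)) (E : List (ℕ × (Option ℕ × Option ℕ) × ℕ))
    (x : ℕ) (A : List ℕ) : trx LKs E x A = E ++ (trk (LKs 0) (sl x A 0) ++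
      (trk (LKs 1) (sl x A 1) ++ (trk (LKs 2) (sl x A 2) ++ (trk (LKs 3) (sl x A 3) ++
        (trk (LKs 4) (sl x A 4) ++ []))))) := rfl

theorem trx_primrec (LKs : ℕ → List (Option ℕ × Option ℕ))
    (E : List (ℕ × (Option ℕ × Option ℕ) × ℕ)) :
    Primrec (fun q : ℕ × List ℕ => trx LKs E q.1 q.2) := by
  have h : ∀ k, Primrec (fun q : ℕ × List ℕ => trk (LKs k) (sl q.1 q.2 k)) := fun k =>
    (trk_primrec (LKs k)).comp (sl_primrec k)
  have h1 : Primrec (fun q : ℕ × List ℕ => E ++ (trk (LKs 0) (sl q.1 q.2 0) ++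
      (trk (LKs 1) (sl q.1 q.2 1) ++ (trk (LKs 2) (sl q.1 q.2 2) ++ (trk (LKs 3) (sl q.1 q.2 3) ++
        (trk (LKs 4) (sl q.1 q.2 4) ++ [])))))) :=
    Primrec.list_append.comp (Primrec.const E) (Primrec.list_append.comp (h 0)
      (Primrec.list_append.comp (h 1) (Primrec.list_append.comp (h 2)
        (Primrec.list_append.comp (h 3) (Primrec.list_append.comp (h 4) (Primrec.const []))))))
  exact h1.of_eq (fun q => (trx_eq _ _ _ _).symm)

/-- The list code of the structure with index `x`. -/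
noncomputable def cx (δ : Finset (ℕ × ℕ × ℕ)) (s t : ℕ)
    (E : List (ℕ × (Option ℕ × Option ℕ) × ℕ)) (LKs : ℕ → List (Option ℕ × Option ℕ))
    (x : ℕ) (A : List ℕ) : LCode :=
  ((δ.toList, s, [t]), (dd (trx LKs E x A), 2, [0, 1]))

theorem cx_primrec (δ : Finset (ℕ × ℕ × ℕ)) (s t : ℕ)
    (E : List (ℕ × (Option ℕ × Option ℕ) × ℕ)) (LKs : ℕ → List (Option ℕ × Option ℕ)) :
    Primrec (fun q : ℕ × List ℕ => cx δ s t E LKs q.1 q.2) := by
  have h1 : Primrec (fun q : ℕ × List ℕ => dd (trx LKs E q.1 q.2)) :=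
    dd_primrec.comp (trx_primrec LKs E)
  have h2 : Primrec (fun q : ℕ × List ℕ => ((dd (trx LKs E q.1 q.2), 2, [0, 1]) :
      List (ℕ × (Option ℕ × Option ℕ) × ℕ) × ℕ × List ℕ)) :=
    Primrec.pair h1 (Primrec.const (2, [0, 1]))
  exact Primrec.pair (Primrec.const (δ.toList, s, [t])) h2

theorem EP_hard (R : ℕ → ℕ → Prop) (hR : Equivalence R)
    (hP : ∃ P : ℕ × ℕ × ℕ → Prop, ComputablePred P ∧ ∀ x y, R x y ↔ ∀ t, P (x, y, t)) :
    ∃ f : ℕ → ℕ, Computable f ∧ ∀ x y, R x y ↔ EP (f x) (f y) := by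
  obtain ⟨κ, hκ, hRκ⟩ := exists_invariant hR hP
  obtain ⟨g, hg, hgV⟩ := exists_primrec_test (KK_computable hκ)
  obtain ⟨L, hL, hLs, hLV⟩ := exists_acceptor hg
  have hV : ∀ n, Rel L n 0 ↔ ∃ i, bval (KK κ i) = n := fun n => (hLV n).trans (hgV n)
  obtain ⟨δ, s, t, ga, Λ, hD⟩ := exists_DomH hL
  let A : ℕ → List ℕ := fun x => accA κ x x
  have hA : ∀ x i, i ∈ A x ↔ 1 ≤ i ∧ i ≤ x ∧ κ (i - 1) x = true := fun x i => mem_accA κ x x i
  let c : ℕ → LCode := fun x => cx δ s t (EQT Λ) (LK Λ ga) x (A x)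
  have hc : Computable c := by
    have h1 : Computable (fun x : ℕ => (x, accA κ x x)) :=
      Computable.pair Computable.id (accA_computable hκ)
    exact (cx_primrec δ s t (EQT Λ) (LK Λ ga)).to_comp.comp
      (f := fun q : ℕ × List ℕ => cx δ s t (EQT Λ) (LK Λ ga) q.1 q.2)
      (g := fun x : ℕ => (x, accA κ x x)) h1
  have hdec : ∀ x, decode (encode (c x)) = some (toP (c x)) := by
    intro x
    rw [decode_PCode]
    have h01 : ([0, 1] : List ℕ).Nodup := by decide
    exact ⟨c x, encodek _, ⟨Finset.nodup_toList _, List.nodup_singleton _, nodup_dd _, h01⟩, rfl⟩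
  have hdom : ∀ x, DomP (toP (c x)) = XX δ s t := by
    intro x
    have h1 : ((([t] : List ℕ).toFinset : Finset ℕ) : Set ℕ) = {t} := by
      ext p
      simp
    simp only [DomP, XX, toP, c, cx, Finset.toList_toFinset, h1]
  have hrel : ∀ x u v, RelP (toP (c x)) u v ↔ rx Λ ga x (A x) u v := by
    intro x u v
    have h1 : ((dd (trx (LK Λ ga) (EQT Λ) x (A x))).toFinset :
        Set (ℕ × (Option ℕ × Option ℕ) × ℕ)) = {t | t ∈ trx (LK Λ ga) (EQT Λ) x (A x)} := by
      ext p
      simp [mem_dd]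
    have h2 : ((([0, 1] : List ℕ).toFinset : Finset ℕ) : Set ℕ) = {q | q ∈ [0, 1]} := by
      ext p
      simp
    simp only [RelP, rx, toP, c, cx, h1, h2]
  have heq : ∀ x, EqOn (DomP (toP (c x))) (RelP (toP (c x))) := by
    intro x
    have h1 : RelP (toP (c x)) = rx Λ ga x (A x) := by
      funext u v
      exact propext (hrel x u v)
    rw [hdom, h1]
    exact eqOn_rx hD x (A x)
  refine ⟨fun x => encode (c x), Computable.encode.comp hc, ?_⟩
  intro x y
  rw [sizes_iff hRκ hA hLs hV x y, ← iso_rx_iff hD x y (A x) (A y)]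
  have hval : ∀ x, ValidP (encode (c x)) := fun x => ⟨_, hdec x, heq x⟩
  constructor
  · rintro ⟨f, hf, hfr⟩
    refine Or.inr ⟨_, _, hdec x, hdec y, heq x, heq y, f, ?_, ?_⟩
    · rw [hdom, hdom]; exact hf
    · rw [hdom]
      intro u hu v hv
      rw [hrel, hrel]
      exact hfr u hu v hv
  · rintro (⟨h, -⟩ | ⟨p, q, hp, hq, -, -, f, hf, hfr⟩)
    · exact absurd (hval x) h
    · rw [hdec x] at hp
      rw [hdec y] at hq
      obtain rfl := Option.some.inj hp
      obtain rfl := Option.some.inj hq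
      rw [hdom, hdom] at hf
      rw [hdom] at hfr
      refine ⟨f, hf, fun u hu v hv => ?_⟩
      rw [← hrel, ← hrel]
      exact hfr u hu v hv

end Pool.Agent.H81
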