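import Mathlib
import Pool.Agent.H81.PiDefs

set_option autoImplicit false

/-!
# Primitive recursiveness of the bounded test
-/

namespace Pool.Agent.H81

open Encodable

section gen

variable {α β γ σ : Type} [Primcodable α] [Primcodable β] [Primcodable γ] [Primcodable σ]

theorem pr_exists {f : α → List β} {p : α → β → Prop} (hf : Primrec f)
    (hp : PrimrecPred (fun q : α × β => p q.1 q.2)) :
    PrimrecPred (fun a => ∃ b ∈ f a, p a b) := by
  have h : PrimrecRel (fun (b : β) (a : α) => p a b) :=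
    PrimrecPred.comp (f := fun q : β × α => (q.2, q.1)) hp (Primrec.pair Primrec.snd Primrec.fst)
  exact (PrimrecRel.exists_mem_list h).comp hf Primrec.id

theorem pr_forall {f : α → List β} {p : α → β → Prop} (hf : Primrec f)
    (hp : PrimrecPred (fun q : α × β => p q.1 q.2)) :
    PrimrecPred (fun a => ∀ b ∈ f a, p a b) := by
  have h : PrimrecRel (fun (b : β) (a : α) => p a b) :=
    PrimrecPred.comp (f := fun q : β × α => (q.2, q.1)) hp (Primrec.pair Primrec.snd Primrec.fst)
  exact (PrimrecRel.forall_mem_list h).comp hf Primrec.id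

theorem pr_filter {f : α → List β} {p : α → β → Prop} (inst : ∀ a b, Decidable (p a b))
    (hf : Primrec f) (hp : PrimrecPred (fun q : α × β => p q.1 q.2)) :
    Primrec (fun a => (f a).filter (fun b => @decide (p a b) (inst a b))) := by
  have h : PrimrecRel (fun (b : β) (a : α) => p a b) :=
    PrimrecPred.comp (f := fun q : β × α => (q.2, q.1)) hp (Primrec.pair Primrec.snd Primrec.fst)
  exact (@PrimrecRel.listFilter β α _ _ _ h (fun b a => inst a b)).comp hf Primrec.id

theorem pr_imp {p q : α → Prop} (hp : PrimrecPred p) (hq : PrimrecPred q) :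
    PrimrecPred (fun a => p a → q a) :=
  (hp.not.or hq).of_eq (fun _ => imp_iff_not_or.symm)

theorem pr_iff {p q : α → Prop} (hp : PrimrecPred p) (hq : PrimrecPred q) :
    PrimrecPred (fun a => p a ↔ q a) :=
  ((pr_imp hp hq).and (pr_imp hq hp)).of_eq (fun _ => iff_iff_implies_and_implies.symm)

theorem pr_mem {f : α → List β} {g : α → β} (hf : Primrec f) (hg : Primrec g) :
    PrimrecPred (fun a => g a ∈ f a) := by
  have h : PrimrecPred (fun q : α × β => g q.1 = q.2) :=
    Primrec.eq.comp (hg.comp Primrec.fst) Primrec.snd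
  refine (pr_exists (p := fun a b => g a = b) hf h).of_eq (fun a => ?_)
  constructor
  · rintro ⟨b, hb, rfl⟩; exact hb
  · intro h; exact ⟨_, h, rfl⟩

theorem pr_pow : Primrec₂ (fun a b : ℕ => a ^ b) := Primrec₂.unpaired'.1 Nat.Primrec.pow

theorem pr_nodup {f : α → List β} (hf : Primrec f) : PrimrecPred (fun a => (f a).Nodup) := by
  have h1 : Primrec (fun a => List.range (f a).length) :=
    Primrec.list_range.comp (Primrec.list_length.comp hf)
  have h2 : PrimrecPred (fun q : (α × ℕ) × ℕ => (f q.1.1)[q.1.2]? = (f q.1.1)[q.2]? → q.1.2 = q.2) := by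
    refine pr_imp (Primrec.eq.comp ?_ ?_) (Primrec.eq.comp ?_ ?_)
    · exact Primrec.list_getElem?.comp (hf.comp (Primrec.fst.comp Primrec.fst)) (Primrec.snd.comp Primrec.fst)
    · exact Primrec.list_getElem?.comp (hf.comp (Primrec.fst.comp Primrec.fst)) Primrec.snd
    · exact Primrec.snd.comp Primrec.fst
    · exact Primrec.snd
  have h3 : PrimrecPred (fun q : α × ℕ => ∀ j ∈ List.range (f q.1).length,
      (f q.1)[q.2]? = (f q.1)[j]? → q.2 = j) :=
    pr_forall (p := fun (q : α × ℕ) j => (f q.1)[q.2]? = (f q.1)[j]? → q.2 = j)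
      (h1.comp Primrec.fst) h2
  refine (pr_forall (p := fun a i => ∀ j ∈ List.range (f a).length,
      (f a)[i]? = (f a)[j]? → i = j) h1 h3).of_eq (fun a => ?_)
  rw [List.nodup_iff_getElem?_ne_getElem?]
  simp only [List.mem_range]
  constructor
  · intro h i j hij hj heq
    have := h i (hij.trans hj) j hj heq
    omega
  · intro h i hi j hj heq
    by_contra hne
    rcases Nat.lt_or_gt_of_ne hne with h' | h'
    · exact h i j h' hj heq
    · exact h j i h' hi heq.symm

end gen


section acc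

variable {β : Type} [Primcodable β] [DecidableEq β]

/-- One step of the subset construction. -/
def stepL (δ : List (ℕ × β × ℕ)) (S : List ℕ) (a : β) : List ℕ :=
  (δ.filter (fun t => decide (t.1 ∈ S ∧ t.2.1 = a))).map (fun t => t.2.2)

omit [Primcodable β] in
theorem mem_stepL (δ : List (ℕ × β × ℕ)) (S : List ℕ) (a : β) (s : ℕ) :
    s ∈ stepL δ S a ↔ ∃ q ∈ S, (q, a, s) ∈ δ := by
  simp only [stepL, List.mem_map, List.mem_filter, decide_eq_true_eq]
  constructor
  · rintro ⟨⟨q, b, s'⟩, ⟨h1, h2, h3⟩, h4⟩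
    simp only at h2 h3 h4
    subst h3 h4
    exact ⟨q, h2, h1⟩
  · rintro ⟨q, hq, h⟩
    exact ⟨(q, a, s), ⟨h, hq, rfl⟩, rfl⟩

omit [Primcodable β] in
theorem acc_foldl (δ : List (ℕ × β × ℕ)) (F : List ℕ) (w : List β) (S : List ℕ) :
    (∃ q ∈ S, Acc {t | t ∈ δ} {x | x ∈ F} q w) ↔ ∃ s ∈ w.foldl (stepL δ) S, s ∈ F := by
  induction w generalizing S with
  | nil => simp [Acc]
  | cons a w ih =>
    rw [List.foldl_cons, ← ih]
    constructor
    · rintro ⟨q, hq, q', h1, h2⟩
      exact ⟨q', (mem_stepL _ _ _ _).2 ⟨q, hq, h1⟩, h2⟩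
    · rintro ⟨q', hq', h2⟩
      obtain ⟨q, hq, h1⟩ := (mem_stepL _ _ _ _).1 hq'
      exact ⟨q, hq, q', h1, h2⟩

omit [Primcodable β] in
theorem acc_iff_foldl (δ : List (ℕ × β × ℕ)) (F : List ℕ) (w : List β) (q : ℕ) :
    Acc {t | t ∈ δ} {x | x ∈ F} q w ↔ ∃ s ∈ w.foldl (stepL δ) [q], s ∈ F := by
  rw [← acc_foldl]
  simp

theorem pr_stepL : Primrec (fun p : (List (ℕ × β × ℕ) × List ℕ) × β => stepL p.1.1 p.1.2 p.2) := by
  have h1 : Primrec (fun p : (List (ℕ × β × ℕ) × List ℕ) × β => p.1.1) :=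
    Primrec.fst.comp Primrec.fst
  have h2 : PrimrecPred (fun q : ((List (ℕ × β × ℕ) × List ℕ) × β) × (ℕ × β × ℕ) =>
      q.2.1 ∈ q.1.1.2 ∧ q.2.2.1 = q.1.2) := by
    refine PrimrecPred.and (pr_mem ?_ ?_) (Primrec.eq.comp ?_ ?_)
    · exact Primrec.snd.comp (Primrec.fst.comp Primrec.fst)
    · exact Primrec.fst.comp Primrec.snd
    · exact Primrec.fst.comp (Primrec.snd.comp Primrec.snd)
    · exact Primrec.snd.comp Primrec.fst
  have h3 := pr_filter (p := fun (p : (List (ℕ × β × ℕ) × List ℕ) × β) (t : ℕ × β × ℕ) =>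
    t.1 ∈ p.1.2 ∧ t.2.1 = p.2) (fun a b => inferInstance) h1 h2
  have h4 : Primrec₂ (fun (_ : (List (ℕ × β × ℕ) × List ℕ) × β) (t : ℕ × β × ℕ) => t.2.2) :=
    Primrec.snd.comp (Primrec.snd.comp Primrec.snd)
  exact (Primrec.list_map h3 h4).of_eq (fun p => rfl)

theorem pr_acc {α : Type} [Primcodable α] {δ : α → List (ℕ × β × ℕ)} {F : α → List ℕ} {q : α → ℕ}
    {w : α → List β} (hδ : Primrec δ) (hF : Primrec F) (hq : Primrec q) (hw : Primrec w) :
    PrimrecPred (fun a => Acc {t | t ∈ δ a} {x | x ∈ F a} (q a) (w a)) := by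
  have h0 : Primrec (fun a => [q a]) := Primrec.list_cons.comp hq (Primrec.const [])
  have h1 : Primrec₂ (fun (a : α) (sb : List ℕ × β) => stepL (δ a) sb.1 sb.2) := by
    have : Primrec (fun x : α × (List ℕ × β) => ((δ x.1, x.2.1), x.2.2)) :=
      Primrec.pair (Primrec.pair (hδ.comp Primrec.fst) (Primrec.fst.comp Primrec.snd))
        (Primrec.snd.comp Primrec.snd)
    exact (pr_stepL (β := β)).comp this
  have h2 : Primrec (fun a => (w a).foldl (fun s b => stepL (δ a) s b) [q a]) :=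
    Primrec.list_foldl hw h0 h1
  have h3 : PrimrecPred (fun x : α × ℕ => x.2 ∈ F x.1) :=
    pr_mem (hF.comp Primrec.fst) Primrec.snd
  exact (pr_exists (p := fun a s => s ∈ F a) h2 h3).of_eq (fun a => (acc_iff_foldl _ _ _ _).symm)

end acc

theorem pr_InD {α : Type} [Primcodable α] {c : α → LCode} {u : α → List ℕ} (hc : Primrec c)
    (hu : Primrec u) : PrimrecPred (fun a => InD (c a) (u a)) := by
  have h1 : Primrec (fun a => (c a).1.1) := Primrec.fst.comp (Primrec.fst.comp hc)
  have h2 : Primrec (fun a => (c a).1.2.2) :=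
    Primrec.snd.comp (Primrec.snd.comp (Primrec.fst.comp hc))
  have h3 : Primrec (fun a => (c a).1.2.1) :=
    Primrec.fst.comp (Primrec.snd.comp (Primrec.fst.comp hc))
  exact pr_acc h1 h2 h3 hu

theorem pr_conv : Primrec₂ conv := by
  have h1 : Primrec (fun p : List ℕ × List ℕ => List.range (max p.1.length p.2.length)) :=
    Primrec.list_range.comp (Primrec.nat_max.comp (Primrec.list_length.comp Primrec.fst)
      (Primrec.list_length.comp Primrec.snd))
  have h2 : Primrec₂ (fun (p : List ℕ × List ℕ) (i : ℕ) => (p.1[i]?, p.2[i]?)) := by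
    refine Primrec.pair ?_ ?_
    · exact Primrec.list_getElem?.comp (Primrec.fst.comp Primrec.fst) Primrec.snd
    · exact Primrec.list_getElem?.comp (Primrec.snd.comp Primrec.fst) Primrec.snd
  exact Primrec.list_map h1 h2

theorem pr_InR {α : Type} [Primcodable α] {c : α → LCode} {u v : α → List ℕ} (hc : Primrec c)
    (hu : Primrec u) (hv : Primrec v) : PrimrecPred (fun a => InR (c a) (u a) (v a)) := by
  have h1 : Primrec (fun a => (c a).2.1) := Primrec.fst.comp (Primrec.snd.comp hc)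
  have h2 : Primrec (fun a => (c a).2.2.2) :=
    Primrec.snd.comp (Primrec.snd.comp (Primrec.snd.comp hc))
  have h3 : Primrec (fun a => (c a).2.2.1) :=
    Primrec.fst.comp (Primrec.snd.comp (Primrec.snd.comp hc))
  have h4 : Primrec (fun a => conv (u a) (v a)) := pr_conv.comp hu hv
  exact pr_acc h1 h2 h3 h4

theorem pr_NodupC {α : Type} [Primcodable α] {c : α → LCode} (hc : Primrec c) :
    PrimrecPred (fun a => NodupC (c a)) := by
  have h1 : Primrec (fun a => (c a).1.1) := Primrec.fst.comp (Primrec.fst.comp hc)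
  have h2 : Primrec (fun a => (c a).1.2.2) :=
    Primrec.snd.comp (Primrec.snd.comp (Primrec.fst.comp hc))
  have h3 : Primrec (fun a => (c a).2.1) := Primrec.fst.comp (Primrec.snd.comp hc)
  have h4 : Primrec (fun a => (c a).2.2.2) :=
    Primrec.snd.comp (Primrec.snd.comp (Primrec.snd.comp hc))
  exact (pr_nodup h1).and ((pr_nodup h2).and ((pr_nodup h3).and (pr_nodup h4)))

theorem pr_words : Primrec₂ words := by
  have h0 : Primrec (fun _ : ℕ => ([[]] : List (List ℕ))) := Primrec.const _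
  have h1 : Primrec₂ (fun (n : ℕ) (p : ℕ × List (List ℕ)) =>
      ([] : List ℕ) :: (List.range (n + 1)).flatMap (fun a => p.2.map (fun w => a :: w))) := by
    have a1 : Primrec (fun x : ℕ × (ℕ × List (List ℕ)) => List.range (x.1 + 1)) :=
      Primrec.list_range.comp (Primrec.succ.comp Primrec.fst)
    have a3 : Primrec₂ (fun (y : (ℕ × (ℕ × List (List ℕ))) × ℕ) (w : List ℕ) => y.2 :: w) :=
      Primrec.list_cons.comp (Primrec.snd.comp Primrec.fst) Primrec.snd
    have a4 : Primrec (fun y : (ℕ × (ℕ × List (List ℕ))) × ℕ => y.1.2.2) :=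
      Primrec.snd.comp (Primrec.snd.comp Primrec.fst)
    have a2 : Primrec₂ (fun (x : ℕ × (ℕ × List (List ℕ))) (a : ℕ) => x.2.2.map (fun w => a :: w)) :=
      Primrec.list_map a4 a3
    exact Primrec.list_cons.comp (Primrec.const []) (Primrec.list_flatMap a1 a2)
  have h2 := Primrec.nat_rec h0 h1
  refine Primrec₂.of_eq h2 ?_
  intro n L
  induction L with
  | zero => rfl
  | succ L ih =>
    change _ :: _ = words n (L + 1)
    rw [words, ← ih]


theorem pr_bV : Primrec bV := by
  have h1 : Primrec (fun n : ℕ => 12 * (n + 1)) :=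
    Primrec.nat_mul.comp (Primrec.const 12) Primrec.succ
  exact pr_pow.comp (Primrec.const 2) h1

theorem pr_bT : Primrec bT := by
  have h1 : Primrec (fun n : ℕ => 2 * (n + 1)) :=
    Primrec.nat_mul.comp (Primrec.const 2) Primrec.succ
  exact pr_pow.comp (Primrec.const 2) h1

theorem pr_bK : Primrec₂ bK := by
  have h1 : Primrec (fun p : ℕ × ℕ => 2 ^ (p.1 + 1)) :=
    pr_pow.comp (Primrec.const 2) (Primrec.succ.comp Primrec.fst)
  have h2 : Primrec (fun p : ℕ × ℕ => p.2 + 2) :=
    Primrec.nat_add.comp Primrec.snd (Primrec.const 2)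
  have h3 : Primrec (fun p : ℕ × ℕ => 2 * (2 ^ (p.1 + 1) * 2 ^ (p.1 + 1))) :=
    Primrec.nat_mul.comp (Primrec.const 2) (Primrec.nat_mul.comp h1 h1)
  exact Primrec.nat_mul.comp h1 (pr_pow.comp h2 h3)

theorem pr_ValidL {α : Type} [Primcodable α] {n : α → ℕ} {c : α → LCode} (hn : Primrec n)
    (hc : Primrec c) : PrimrecPred (fun a => ValidL (n a) (c a)) := by
  have hw : Primrec (fun a => words (n a) (bV (n a))) := pr_words.comp hn (pr_bV.comp hn)
  have hw1 : Primrec (fun x : α × List ℕ => words (n x.1) (bV (n x.1))) := hw.comp Primrec.fst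
  have hw2 : Primrec (fun x : (α × List ℕ) × List ℕ => words (n x.1.1) (bV (n x.1.1))) :=
    hw.comp (Primrec.fst.comp Primrec.fst)
  have hc3 : Primrec (fun x : ((α × List ℕ) × List ℕ) × List ℕ => c x.1.1.1) :=
    hc.comp (Primrec.fst.comp (Primrec.fst.comp Primrec.fst))
  have hu : Primrec (fun x : ((α × List ℕ) × List ℕ) × List ℕ => x.1.1.2) :=
    Primrec.snd.comp (Primrec.fst.comp Primrec.fst)
  have hv : Primrec (fun x : ((α × List ℕ) × List ℕ) × List ℕ => x.1.2) :=
    Primrec.snd.comp Primrec.fst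
  have hww : Primrec (fun x : ((α × List ℕ) × List ℕ) × List ℕ => x.2) := Primrec.snd
  have h3 : PrimrecPred (fun x : ((α × List ℕ) × List ℕ) × List ℕ =>
      (InD (c x.1.1.1) x.1.1.2 → InR (c x.1.1.1) x.1.1.2 x.1.1.2) ∧
      (InD (c x.1.1.1) x.1.1.2 → InD (c x.1.1.1) x.1.2 → InR (c x.1.1.1) x.1.1.2 x.1.2 →
        InR (c x.1.1.1) x.1.2 x.1.1.2) ∧
      (InD (c x.1.1.1) x.1.1.2 → InD (c x.1.1.1) x.1.2 → InD (c x.1.1.1) x.2 →
        InR (c x.1.1.1) x.1.1.2 x.1.2 → InR (c x.1.1.1) x.1.2 x.2 →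
        InR (c x.1.1.1) x.1.1.2 x.2)) :=
    (pr_imp (pr_InD hc3 hu) (pr_InR hc3 hu hu)).and
      ((pr_imp (pr_InD hc3 hu) (pr_imp (pr_InD hc3 hv)
        (pr_imp (pr_InR hc3 hu hv) (pr_InR hc3 hv hu)))).and
      (pr_imp (pr_InD hc3 hu) (pr_imp (pr_InD hc3 hv) (pr_imp (pr_InD hc3 hww)
        (pr_imp (pr_InR hc3 hu hv) (pr_imp (pr_InR hc3 hv hww) (pr_InR hc3 hu hww)))))))
  have h2 := pr_forall (p := fun (x : (α × List ℕ) × List ℕ) (w : List ℕ) =>
      (InD (c x.1.1) x.1.2 → InR (c x.1.1) x.1.2 x.1.2) ∧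
      (InD (c x.1.1) x.1.2 → InD (c x.1.1) x.2 → InR (c x.1.1) x.1.2 x.2 →
        InR (c x.1.1) x.2 x.1.2) ∧
      (InD (c x.1.1) x.1.2 → InD (c x.1.1) x.2 → InD (c x.1.1) w →
        InR (c x.1.1) x.1.2 x.2 → InR (c x.1.1) x.2 w →
        InR (c x.1.1) x.1.2 w)) hw2 h3
  have h1 := pr_forall (p := fun (x : α × List ℕ) (v : List ℕ) =>
      ∀ w ∈ words (n x.1) (bV (n x.1)),
      (InD (c x.1) x.2 → InR (c x.1) x.2 x.2) ∧
      (InD (c x.1) x.2 → InD (c x.1) v → InR (c x.1) x.2 v →
        InR (c x.1) v x.2) ∧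
      (InD (c x.1) x.2 → InD (c x.1) v → InD (c x.1) w →
        InR (c x.1) x.2 v → InR (c x.1) v w →
        InR (c x.1) x.2 w)) hw1 h2
  have h0 := pr_forall (p := fun (x : α) (u : List ℕ) =>
      ∀ v ∈ words (n x) (bV (n x)), ∀ w ∈ words (n x) (bV (n x)),
      (InD (c x) u → InR (c x) u u) ∧
      (InD (c x) u → InD (c x) v → InR (c x) u v →
        InR (c x) v u) ∧
      (InD (c x) u → InD (c x) v → InD (c x) w →
        InR (c x) u v → InR (c x) v w →
        InR (c x) u w)) hw h1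
  exact (pr_NodupC hc).and h0

theorem pr_Long {α : Type} [Primcodable α] {n : α → ℕ} {c : α → LCode} {u : α → List ℕ}
    (hn : Primrec n) (hc : Primrec c) (hu : Primrec u) :
    PrimrecPred (fun a => Long (n a) (c a) (u a)) := by
  have hb : Primrec (fun a => bT (n a)) := pr_bT.comp hn
  have hl : Primrec (fun a => (u a).length) := Primrec.list_length.comp hu
  have hw : Primrec (fun a => words (n a) ((u a).length + 2 * bT (n a))) :=
    pr_words.comp hn (Primrec.nat_add.comp hl (Primrec.nat_mul.comp (Primrec.const 2) hb))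
  have h1 : PrimrecPred (fun x : α × List ℕ => (u x.1).length + bT (n x.1) ≤ x.2.length ∧
      InD (c x.1) x.2 ∧ InR (c x.1) (u x.1) x.2) := by
    refine PrimrecPred.and (Primrec.nat_le.comp ?_ ?_) (PrimrecPred.and ?_ ?_)
    · exact (Primrec.nat_add.comp hl hb).comp Primrec.fst
    · exact Primrec.list_length.comp Primrec.snd
    · exact pr_InD (hc.comp Primrec.fst) Primrec.snd
    · exact pr_InR (hc.comp Primrec.fst) (hu.comp Primrec.fst) Primrec.snd
  exact pr_exists (p := fun (a : α) (v : List ℕ) => (u a).length + bT (n a) ≤ v.length ∧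
      InD (c a) v ∧ InR (c a) (u a) v) hw h1

theorem pr_numR {α : Type} [Primcodable α] {n : α → ℕ} {c : α → LCode} {u : α → List ℕ}
    (hn : Primrec n) (hc : Primrec c) (hu : Primrec u) :
    Primrec (fun a => numR (n a) (c a) (u a)) := by
  have hb : Primrec (fun a => bT (n a)) := pr_bT.comp hn
  have hl : Primrec (fun a => (u a).length) := Primrec.list_length.comp hu
  have hw : Primrec (fun a => words (n a) ((u a).length + bT (n a))) :=
    pr_words.comp hn (Primrec.nat_add.comp hl hb)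
  have h1 : PrimrecPred (fun x : α × List ℕ => InD (c x.1) x.2 ∧ InR (c x.1) (u x.1) x.2) := by
    refine PrimrecPred.and ?_ ?_
    · exact pr_InD (hc.comp Primrec.fst) Primrec.snd
    · exact pr_InR (hc.comp Primrec.fst) (hu.comp Primrec.fst) Primrec.snd
  have h2 := pr_filter (p := fun (a : α) (v : List ℕ) => InD (c a) v ∧ InR (c a) (u a) v)
    (fun _ _ => Classical.propDecidable _) hw h1
  exact (Primrec.list_length.comp h2).of_eq (fun a =>
    congrArg List.length (List.filter_congr (fun v _ => decide_eq_decide.2 Iff.rfl)))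

theorem pr_ZZ {α : Type} [Primcodable α] {n : α → ℕ} {c : α → LCode} {k : α → ℕ} {u : α → List ℕ}
    (hn : Primrec n) (hc : Primrec c) (hk : Primrec k) (hu : Primrec u) :
    PrimrecPred (fun a => ZZ (n a) (c a) (k a) (u a)) := by
  have hl : Primrec (fun a => (u a).length) := Primrec.list_length.comp hu
  have hw : Primrec (fun a => words (n a) (u a).length) := pr_words.comp hn hl
  have h1 : PrimrecPred (fun x : α × List ℕ => x.2.length < (u x.1).length → InD (c x.1) x.2 →
      ¬ InR (c x.1) (u x.1) x.2) := by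
    refine pr_imp (Primrec.nat_lt.comp ?_ ?_) (pr_imp ?_ (PrimrecPred.not ?_))
    · exact Primrec.list_length.comp Primrec.snd
    · exact hl.comp Primrec.fst
    · exact pr_InD (hc.comp Primrec.fst) Primrec.snd
    · exact pr_InR (hc.comp Primrec.fst) (hu.comp Primrec.fst) Primrec.snd
  have h2 := pr_forall (p := fun (a : α) (v : List ℕ) => v.length < (u a).length → InD (c a) v →
      ¬ InR (c a) (u a) v) hw h1
  have h3 : PrimrecPred (fun a => k a = 0) := Primrec.eq.comp hk (Primrec.const 0)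
  have h4 : PrimrecPred (fun a => Long (n a) (c a) (u a)) := pr_Long hn hc hu
  have h5 : PrimrecPred (fun a => numR (n a) (c a) (u a) = k a) :=
    Primrec.eq.comp (pr_numR hn hc hu) hk
  exact (pr_InD hc hu).and ((h3.and (h4.and h2)).or (h3.not.and (h4.not.and h5)))

theorem pr_InfZ {α : Type} [Primcodable α] {n : α → ℕ} {c : α → LCode} {k : α → ℕ}
    (hn : Primrec n) (hc : Primrec c) (hk : Primrec k) :
    PrimrecPred (fun a => InfZ (n a) (c a) (k a)) := by
  have hb : Primrec (fun a => bK (n a) (k a)) := pr_bK.comp hn hk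
  have hw : Primrec (fun a => words (n a) (2 * bK (n a) (k a))) :=
    pr_words.comp hn (Primrec.nat_mul.comp (Primrec.const 2) hb)
  have h1 : PrimrecPred (fun x : α × List ℕ => bK (n x.1) (k x.1) ≤ x.2.length ∧
      ZZ (n x.1) (c x.1) (k x.1) x.2) := by
    refine PrimrecPred.and (Primrec.nat_le.comp ?_ ?_) ?_
    · exact hb.comp Primrec.fst
    · exact Primrec.list_length.comp Primrec.snd
    · exact pr_ZZ (hn.comp Primrec.fst) (hc.comp Primrec.fst) (hk.comp Primrec.fst) Primrec.snd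
  exact pr_exists (p := fun (a : α) (u : List ℕ) => bK (n a) (k a) ≤ u.length ∧
      ZZ (n a) (c a) (k a) u) hw h1

theorem pr_RepZ {α : Type} [Primcodable α] {n : α → ℕ} {c : α → LCode} {k : α → ℕ}
    {u : α → List ℕ} (hn : Primrec n) (hc : Primrec c) (hk : Primrec k) (hu : Primrec u) :
    PrimrecPred (fun a => RepZ (n a) (c a) (k a) (u a)) := by
  have hb : Primrec (fun a => bK (n a) (k a)) := pr_bK.comp hn hk
  have hw : Primrec (fun a => words (n a) (bK (n a) (k a))) := pr_words.comp hn hb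
  have h1 : PrimrecPred (fun x : α × List ℕ => encode x.2 < encode (u x.1) →
      ZZ (n x.1) (c x.1) (k x.1) x.2 → ¬ InR (c x.1) (u x.1) x.2) := by
    refine pr_imp (Primrec.nat_lt.comp ?_ ?_) (pr_imp ?_ (PrimrecPred.not ?_))
    · exact Primrec.encode.comp Primrec.snd
    · exact Primrec.encode.comp (hu.comp Primrec.fst)
    · exact pr_ZZ (hn.comp Primrec.fst) (hc.comp Primrec.fst) (hk.comp Primrec.fst) Primrec.snd
    · exact pr_InR (hc.comp Primrec.fst) (hu.comp Primrec.fst) Primrec.snd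
  have h2 := pr_forall (p := fun (a : α) (v : List ℕ) => encode v < encode (u a) →
      ZZ (n a) (c a) (k a) v → ¬ InR (c a) (u a) v) hw h1
  exact (pr_ZZ hn hc hk hu).and h2

theorem pr_cntZ {α : Type} [Primcodable α] {n : α → ℕ} {c : α → LCode} {k : α → ℕ}
    (hn : Primrec n) (hc : Primrec c) (hk : Primrec k) :
    Primrec (fun a => cntZ (n a) (c a) (k a)) := by
  have hb : Primrec (fun a => bK (n a) (k a)) := pr_bK.comp hn hk
  have hw : Primrec (fun a => words (n a) (bK (n a) (k a))) := pr_words.comp hn hb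
  have h1 : PrimrecPred (fun x : α × List ℕ => RepZ (n x.1) (c x.1) (k x.1) x.2) :=
    pr_RepZ (hn.comp Primrec.fst) (hc.comp Primrec.fst) (hk.comp Primrec.fst) Primrec.snd
  have h2 := pr_filter (p := fun (a : α) (u : List ℕ) => RepZ (n a) (c a) (k a) u)
    (fun _ _ => Classical.propDecidable _) hw h1
  exact (Primrec.list_length.comp h2).of_eq (fun a =>
    congrArg List.length (List.filter_congr (fun v _ => decide_eq_decide.2 Iff.rfl)))

theorem pr_lc : Primrec lc :=
  Primrec.option_getD.comp (Primrec.decode (α := LCode)) (Primrec.const (([], 0, []), ([], 0, [])))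

theorem pr_ValidN {α : Type} [Primcodable α] {n : α → ℕ} (hn : Primrec n) :
    PrimrecPred (fun a => ValidN (n a)) := by
  have h1 : PrimrecPred (fun a => (decode (α := LCode) (n a)).isSome = true) :=
    Primrec.eq.comp (Primrec.option_isSome.comp ((Primrec.decode (α := LCode)).comp hn))
      (Primrec.const true)
  exact h1.and (pr_ValidL hn (pr_lc.comp hn))

theorem pr_Pdec : PrimrecPred (fun q : ℕ × ℕ × ℕ => Pdec q.1 q.2.1 q.2.2) := by
  have hx : Primrec (fun q : ℕ × ℕ × ℕ => q.1) := Primrec.fst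
  have hy : Primrec (fun q : ℕ × ℕ × ℕ => q.2.1) := Primrec.fst.comp Primrec.snd
  have hk : Primrec (fun q : ℕ × ℕ × ℕ => q.2.2) := Primrec.snd.comp Primrec.snd
  have v1 := pr_ValidN hx
  have v2 := pr_ValidN hy
  have i1 := pr_InfZ hx (pr_lc.comp hx) hk
  have i2 := pr_InfZ hy (pr_lc.comp hy) hk
  have e : PrimrecPred (fun q : ℕ × ℕ × ℕ =>
      cntZ q.1 (lc q.1) q.2.2 = cntZ q.2.1 (lc q.2.1) q.2.2) :=
    Primrec.eq.comp (pr_cntZ hx (pr_lc.comp hx) hk) (pr_cntZ hy (pr_lc.comp hy) hk)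
  exact (pr_iff v1 v2).and (pr_imp v1 (pr_imp v2 ((pr_iff i1 i2).and (pr_imp i1.not e))))

/-- The bounded test is computable. -/
theorem Pdec_computable : ComputablePred (fun q : ℕ × ℕ × ℕ => Pdec q.1 q.2.1 q.2.2) := by
  obtain ⟨inst, h⟩ := pr_Pdec
  exact ⟨inst, h.to_comp⟩

end Pool.Agent.H81
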