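import Mathlib
import Pool.Agent.H81.PiDefs
import Pool.Agent.H81.PiSize
import Pool.Agent.H81.PiCount
import Pool.Agent.H81.PiValid

set_option autoImplicit false

/-!
# The bounded test decides the isomorphism relation level by level
-/

namespace Pool.Agent.H81

open Encodable

theorem DomP_toP (c : LCode) : DomP (toP c) = XD c := by
  ext u
  have h1 : ((c.1.1.toFinset : Finset (ℕ × ℕ × ℕ)) : Set (ℕ × ℕ × ℕ)) = {t | t ∈ c.1.1} := by
    ext p; simp
  have h2 : ((c.1.2.2.toFinset : Finset ℕ) : Set ℕ) = {t | t ∈ c.1.2.2} := by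
    ext p; simp
  simp only [DomP, XD, InD, toP, h1, h2]

theorem RelP_toP (c : LCode) : RelP (toP c) = InR c := by
  funext u v
  have h1 : ((c.2.1.toFinset : Finset (ℕ × (Option ℕ × Option ℕ) × ℕ)) :
      Set (ℕ × (Option ℕ × Option ℕ) × ℕ)) = {t | t ∈ c.2.1} := by
    ext p; simp
  have h2 : ((c.2.2.2.toFinset : Finset ℕ) : Set ℕ) = {t | t ∈ c.2.2.2} := by
    ext p; simp
  simp only [RelP, InR, toP, h1, h2]

theorem lc_eq {n : ℕ} {c : LCode} (h : decode n = some c) : lc n = c := by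
  rw [lc, h]; rfl

theorem validP_iff (n : ℕ) : ValidP n ↔ ValidN n := by
  constructor
  · rintro ⟨p, hp, he⟩
    obtain ⟨c, hc, hn, rfl⟩ := (decode_PCode n p).1 hp
    rw [DomP_toP, RelP_toP] at he
    refine ⟨by rw [hc]; rfl, ?_⟩
    rw [lc_eq hc]
    exact (validL_iff n c (bdd_of_decode n c hc)).2 ⟨hn, he⟩
  · rintro ⟨h1, h2⟩
    obtain ⟨c, hc⟩ := Option.isSome_iff_exists.1 h1
    rw [lc_eq hc] at h2
    obtain ⟨hn, he⟩ := (validL_iff n c (bdd_of_decode n c hc)).1 h2
    refine ⟨toP c, (decode_PCode n _).2 ⟨c, hc, hn, rfl⟩, ?_⟩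
    rw [DomP_toP, RelP_toP]
    exact he

theorem decode_of_validN {n : ℕ} (h : ValidN n) : ∃ c : LCode, decode n = some c ∧ lc n = c ∧
    Bdd n c ∧ EqOn (XD c) (InR c) ∧ decode n = some (toP c) := by
  obtain ⟨h1, h2⟩ := h
  obtain ⟨c, hc⟩ := Option.isSome_iff_exists.1 h1
  have hl := lc_eq hc
  rw [hl] at h2
  obtain ⟨hn, he⟩ := (validL_iff n c (bdd_of_decode n c hc)).1 h2
  exact ⟨c, hc, hl, bdd_of_decode n c hc, he, (decode_PCode n _).2 ⟨c, hc, hn, rfl⟩⟩

theorem classesOf_zero {α : Type} {X : Set α} {r : α → α → Prop} (h : EqOn X r) :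
    (classesOf X r 0).encard = 0 := by
  rw [Set.encard_eq_zero, Set.eq_empty_iff_forall_notMem]
  rintro c ⟨⟨u, hu, rfl⟩, hc⟩
  rw [Set.encard_eq_zero] at hc
  have := h.mem_cls hu
  rw [hc] at this
  exact this

theorem iso_test {x y : ℕ} {c d : LCode} (hc : Bdd x c) (hd : Bdd y d)
    (ec : EqOn (XD c) (InR c)) (ed : EqOn (XD d) (InR d)) :
    (∀ k, (classesOf (XD c) (InR c) k).encard = (classesOf (XD d) (InR d) k).encard) ↔
      ∀ k, (InfZ x c k ↔ InfZ y d k) ∧ (¬ InfZ x c k → cntZ x c k = cntZ y d k) := by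
  constructor
  · intro h k
    have hk := h (szk k)
    by_cases h1 : InfZ x c k <;> by_cases h2 : InfZ y d k
    · exact ⟨⟨fun _ => h2, fun _ => h1⟩, fun h3 => absurd h1 h3⟩
    · rw [infZ_spec x c hc ec k h1, cntZ_spec y d hd ed k h2] at hk
      exact absurd hk.symm (ENat.natCast_ne_top _)
    · rw [cntZ_spec x c hc ec k h1, infZ_spec y d hd ed k h2] at hk
      exact absurd hk (ENat.natCast_ne_top _)
    · rw [cntZ_spec x c hc ec k h1, cntZ_spec y d hd ed k h2] at hk
      exact ⟨⟨fun h => absurd h h1, fun h => absurd h h2⟩, fun _ => by exact_mod_cast hk⟩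
  · intro h
    have key : ∀ k, (classesOf (XD c) (InR c) (szk k)).encard =
        (classesOf (XD d) (InR d) (szk k)).encard := by
      intro k
      obtain ⟨h1, h2⟩ := h k
      by_cases h3 : InfZ x c k
      · rw [infZ_spec x c hc ec k h3, infZ_spec y d hd ed k (h1.1 h3)]
      · rw [cntZ_spec x c hc ec k h3, cntZ_spec y d hd ed k (fun h4 => h3 (h1.2 h4)), h2 h3]
    intro k
    rcases eq_or_ne k ⊤ with rfl | hk
    · exact key 0
    · obtain ⟨m, rfl⟩ := ENat.ne_top_iff_exists.1 hk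
      rcases Nat.eq_zero_or_pos m with rfl | hm
      · rw [Nat.cast_zero, classesOf_zero ec, classesOf_zero ed]
      · have := key m
        rw [szk, if_neg (by omega)] at this
        exact this

theorem EP_iff (x y : ℕ) : EP x y ↔ ∀ k, Pdec x y k := by
  constructor
  · rintro (⟨h1, h2⟩ | ⟨p, q, hp, hq, ep, eq, hiso⟩) k
    · rw [validP_iff] at h1 h2
      exact ⟨⟨fun h => absurd h h1, fun h => absurd h h2⟩, fun h => absurd h h1⟩
    · have h1 : ValidN x := (validP_iff x).1 ⟨p, hp, ep⟩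
      have h2 : ValidN y := (validP_iff y).1 ⟨q, hq, eq⟩
      obtain ⟨c, hc, hlc, hbc, ec, hpc⟩ := decode_of_validN h1
      obtain ⟨d, hd, hld, hbd, ed, hqd⟩ := decode_of_validN h2
      obtain rfl : toP c = p := Option.some.inj (hpc.symm.trans hp)
      obtain rfl : toP d = q := Option.some.inj (hqd.symm.trans hq)
      rw [DomP_toP, DomP_toP, RelP_toP, RelP_toP, iso_iff ec ed, iso_test hbc hbd ec ed] at hiso
      refine ⟨⟨fun _ => h2, fun _ => h1⟩, fun _ _ => ?_⟩
      rw [hlc, hld]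
      exact hiso k
  · intro h
    by_cases h1 : ValidN x
    · have h2 : ValidN y := (h 0).1.1 h1
      obtain ⟨c, hc, hlc, hbc, ec, hpc⟩ := decode_of_validN h1
      obtain ⟨d, hd, hld, hbd, ed, hqd⟩ := decode_of_validN h2
      refine Or.inr ⟨toP c, toP d, hpc, hqd, ?_, ?_, ?_⟩
      · rw [DomP_toP, RelP_toP]; exact ec
      · rw [DomP_toP, RelP_toP]; exact ed
      · rw [DomP_toP, DomP_toP, RelP_toP, RelP_toP, iso_iff ec ed, iso_test hbc hbd ec ed]
        intro k
        have := (h k).2 h1 h2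
        rwa [hlc, hld] at this
    · have h2 : ¬ ValidN y := fun h3 => h1 ((h 0).1.2 h3)
      left
      rw [validP_iff, validP_iff]
      exact ⟨h1, h2⟩

end Pool.Agent.H81
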